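import Pool.Agent.Lib.MP_2fb14c_an.Cubic

-- part Pool.Agent.Lib.MP_2fb14c_an.Config
section

/-!
Configurations in which some elements are used exactly once and the others have a fugacity.
-/

set_option autoImplicit false
set_option linter.unusedSectionVars false

open Finset Function

namespace Pool.Agent.Lib.MP_2fb14c_an

variable {ι : Type*} [Fintype ι] [DecidableEq ι]

/-- Elements of `T` are used once, the others have fugacity `f`. -/
noncomputable def cfg (T : Finset ι) (f : ι → ℝ) : ι → Bt → ℝ :=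
  fun l => if l ∈ T then E ℝ 1 else nu (f l)

theorem cfg_insert (T : Finset ι) (f : ι → ℝ) (i : ι) :
    update (cfg T f) i (E ℝ 1) = cfg (insert i T) f := by
  funext l
  by_cases h : l = i
  · subst h; simp [cfg]
  · simp [cfg, h]

theorem cfg_update {T : Finset ι} (f : ι → ℝ) {i : ι} (hi : i ∉ T) (s : ℝ) :
    update (cfg T f) i (nu s) = cfg T (update f i s) := by
  funext l
  by_cases h : l = i
  · subst h; simp [cfg, hi]
  · simp [cfg, h]

theorem cfg_zero {T : Finset ι} (f : ι → ℝ) {i : ι} (hi : i ∉ T) :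
    update (cfg T f) i (E ℝ 0) = cfg T (update f i 0) := by
  rw [← nu_zero, cfg_update f hi]

theorem cfg_self {T : Finset ι} (f : ι → ℝ) {i : ι} (hi : i ∉ T) :
    update (cfg T f) i (nu (f i)) = cfg T f := by
  rw [cfg_update f hi, update_eq_self]

theorem cfg_congr {T : Finset ι} {f g : ι → ℝ} (h : ∀ l, l ∉ T → f l = g l) :
    cfg T f = cfg T g := by
  funext l
  by_cases hl : l ∈ T
  · simp [cfg, hl]
  · simp [cfg, hl, h l hl]

theorem adm_cfg (T : Finset ι) (f : ι → ℝ) (l : ι) : Adm (cfg T f l) := by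
  unfold cfg
  split_ifs
  · exact adm_E1
  · exact adm_nu _

/-- Fugacities between `0` and `w`. -/
def Box (w : ℝ) (f : ι → ℝ) : Prop := ∀ l, 0 ≤ f l ∧ f l ≤ w

theorem Box.update {w : ℝ} {f : ι → ℝ} (hf : Box w f) (i : ι) {s : ℝ} (h0 : 0 ≤ s) (h1 : s ≤ w) :
    Box w (update f i s) := by
  intro l
  by_cases h : l = i
  · subst h; simp [h0, h1]
  · simpa [h] using hf l

theorem Box.zero {w : ℝ} {f : ι → ℝ} (hf : Box w f) (i : ι) : Box w (Function.update f i 0) :=
  hf.update i le_rfl ((hf i).1.trans (hf i).2)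

/-- Positivity on the whole box. -/
def Ab (C : (ι → Bt) → ℝ) (w : ℝ) (T : Finset ι) : Prop := ∀ f, Box w f → 0 < Z C (cfg T f)

theorem line_mono {C : (ι → Bt) → ℝ} (hC : Stab C) {w : ℝ} {T : Finset ι} {j : ι}
    {a a' : Bt → ℝ} (ha : AdmL a a')
    (hpos : ∀ h, Box w h → 0 < Z C (update (cfg T h) j a)) {f g : ι → ℝ} (hf : Box w f)
    (hg : Box w g) (hfg : ∀ l, f l ≤ g l) :
    Z C (update (cfg T g) j a') / Z C (update (cfg T g) j a) ≤
      Z C (update (cfg T f) j a') / Z C (update (cfg T f) j a) := by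
  have key : ∀ X : Finset ι,
      Z C (update (cfg T (X.piecewise g f)) j a') / Z C (update (cfg T (X.piecewise g f)) j a) ≤
      Z C (update (cfg T f) j a') / Z C (update (cfg T f) j a) := by
    intro X
    induction X using Finset.induction_on with
    | empty => simp
    | insert i X hi ih =>
      refine le_trans ?_ ih
      rw [piecewise_insert]
      set h := X.piecewise g f with hh
      have hb : Box w h := by
        intro l
        rw [hh, Finset.piecewise]
        split_ifs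
        · exact hg l
        · exact hf l
      have hhi : h i = f i := piecewise_eq_of_notMem _ _ _ hi
      by_cases hT : i ∈ T
      · rw [cfg_congr (f := update h i (g i)) (g := h)]
        intro l hl
        rw [update_of_ne]
        rintro rfl
        exact hl hT
      by_cases hj : i = j
      · subst hj
        rw [← cfg_update h hT, update_idem, update_idem]
      have e : ∀ (x : Bt → ℝ) (s : ℝ), Z C (update (cfg T (update h i s)) j x) =
          Sv C (update (cfg T h) j x) i s := by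
        intro x s
        rw [← cfg_update h hT, update_comm hj, Z_nu_eq]
      have e' : ∀ (x : Bt → ℝ), Z C (update (cfg T h) j x) =
          Sv C (update (cfg T h) j x) i (f i) := by
        intro x
        rw [← e, ← hhi, update_eq_self]
      rw [e, e, e', e']
      apply ratio_mono hC hj (fun l _ _ => adm_cfg T h l) ha (hfg i)
      intro r hr
      rw [← e]
      exact hpos _ (hb.update i ((hf i).1.trans hr.1) (hr.2.trans (hg i).2))
  simpa using key univ

theorem Ab.insert {C : (ι → Bt) → ℝ} (hC : Stab C) {w : ℝ} (hw : 0 ≤ w) {T : Finset ι} {i : ι}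
    (hi : i ∉ T) (hT : Ab C w T) (h : 0 < Z C (cfg (insert i T) fun _ => w)) :
    Ab C w (insert i T) := by
  intro f hf
  have hpos : ∀ h, Box w h → 0 < Z C (update (cfg T h) i (E ℝ 0)) := by
    intro h hh
    rw [cfg_zero h hi]
    exact hT _ (hh.zero i)
  have hb : Box w (fun _ : ι => w) := fun _ => ⟨hw, le_rfl⟩
  have := line_mono hC admL_E01 hpos hf hb (fun l => (hf l).2)
  rw [cfg_insert, cfg_insert] at this
  have h2 := lt_of_lt_of_le (div_pos h (hpos _ hb)) this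
  exact (div_pos_iff_of_pos_right (hpos f hf)).1 h2

/-- The potential. -/
noncomputable def rho (C : (ι → Bt) → ℝ) (T : Finset ι) (f : ι → ℝ) (j : ι) : ℝ :=
  S C (cfg T f) j 2 / S C (cfg T f) j 1

theorem S_one (C : (ι → Bt) → ℝ) (T : Finset ι) (f : ι → ℝ) (j : ι) :
    S C (cfg T f) j 1 = Z C (cfg (insert j T) f) := by
  rw [S, cfg_insert]

theorem rho_mono {C : (ι → Bt) → ℝ} (hC : Stab C) {w : ℝ} (hA : ∀ T, Ab C w T) (T : Finset ι)
    (j : ι) {f g : ι → ℝ} (hf : Box w f) (hg : Box w g) (hfg : ∀ l, f l ≤ g l) :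
    rho C T g j ≤ rho C T f j := by
  apply line_mono hC admL_E12 _ hf hg hfg
  intro h hh
  rw [cfg_insert]
  exact hA _ h hh

/-- Fugacities set to zero on `T`. -/
def zer (T : Finset ι) (f : ι → ℝ) : ι → ℝ := fun l => if l ∈ T then 0 else f l

theorem Box.zer {w : ℝ} {f : ι → ℝ} (hf : Box w f) (T : Finset ι) : Box w (zer T f) := by
  intro l
  unfold MP_2fb14c_an.zer
  split_ifs
  · exact ⟨le_rfl, (hf l).1.trans (hf l).2⟩
  · exact hf l

theorem Sv_pos {C : (ι → Bt) → ℝ} (hC : Stab C) {w : ℝ} (hA : ∀ T, Ab C w T) {i : ι} {s : ℝ} :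
    ∀ (T : Finset ι) (f : ι → ℝ), i ∉ T → Box w f →
      (∀ r ∈ Set.Icc s 0, 0 < Sv C (cfg ∅ (zer T f)) i r) →
      ∀ r ∈ Set.Icc s 0, 0 < Sv C (cfg T f) i r := by
  intro T
  induction T using Finset.induction_on with
  | empty =>
    intro f _ _ h
    have : zer ∅ f = f := by funext l; simp [zer]
    rwa [this] at h
  | insert l T hl ih =>
    intro f hi hf h r hr
    have hil : i ≠ l := by rintro rfl; exact hi (mem_insert_self _ _)
    have hiT : i ∉ T := fun hh => hi (mem_insert_of_mem hh)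
    have e : zer T (update f l 0) = zer (insert l T) f := by
      funext m
      by_cases hm : m = l
      · subst hm; simp [zer]
      · simp [zer, hm]
    have ih' := ih (update f l 0) hiT (hf.zero l) (by rw [e]; exact h)
    rw [← cfg_zero f hl] at ih'
    have hm := ratio_mono hC hil (c := cfg T f) (fun m _ _ => adm_cfg T f m) admL_E01 hr.2
      (fun t ht => ih' t ⟨hr.1.trans ht.1, ht.2⟩)
    rw [cfg_insert] at hm
    have h0 : 0 < Sv C (cfg (insert l T) f) i 0 := by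
      rw [← Z_nu_eq, cfg_update f hi]
      exact hA _ _ (hf.zero i)
    have h1 := lt_of_lt_of_le (div_pos h0 (ih' 0 ⟨hr.1.trans hr.2, le_rfl⟩)) hm
    exact (div_pos_iff_of_pos_right (ih' r hr)).1 h1

theorem root_le {u ξ : ℝ} (hξ : 0 < ξ) (h : ∀ s, s ≤ 0 → 0 < 1 + s * ξ → 1 + s * u ≠ 0) :
    u ≤ ξ := by
  by_contra hn
  have hn := not_le.1 hn
  have hu : 0 < u := by linarith
  apply h (-u⁻¹) (by simp [hu.le])
  · have : u⁻¹ * ξ < 1 := by rw [inv_mul_lt_iff₀ hu]; linarith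
    linarith
  · field_simp
    ring

theorem good_cfg {C : (ι → Bt) → ℝ} (hC : Stab C) {w : ℝ} (hA : ∀ T, Ab C w T) {T : Finset ι}
    {i : ι} (hi : i ∉ T) {f : ι → ℝ} (hf : Box w f) {d ρ ξ : ℝ} (hd : 0 < d) (hdw : d⁻¹ ≤ w)
    (hρ : 0 < ρ) (hξ : 0 < ξ) (hr : ρ ≤ rho C T f i)
    (hup : ∀ s, s ≤ 0 → 0 < 1 + s * ξ → 0 < Sv C (cfg ∅ (zer T f)) i s)
    (hth : ξ * (d - ρ) + d ^ 2 / 4 ≤ ρ * d) :
    Good (S C (cfg T f) i 0) (S C (cfg T f) i 1) (S C (cfg T f) i 2) (S C (cfg T f) i 3) d ∧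
      ∀ s, 0 ≤ s → s ≤ w → d * Sv C (cfg T f) i s < (1 + s * ξ) ^ 3 * S C (cfg T f) i 1 := by
  have h0 : 0 < S C (cfg T f) i 0 := by
    rw [S, cfg_zero f hi]
    exact hA _ _ (hf.zero i)
  have h1 : 0 < S C (cfg T f) i 1 := by
    rw [S_one]
    exact hA _ _ hf
  obtain ⟨u1, u2, u3, e1, e2, e3⟩ := S_roots hC (fun l _ => adm_cfg T f l) h0.ne'
  have ev : ∀ s, Sv C (cfg T f) i s =
      S C (cfg T f) i 0 * ((1 + s * u1) * (1 + s * u2) * (1 + s * u3)) := by
    intro s
    rw [Sv, e1, e2, e3, cub_roots]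
  have hneg : ∀ s, s ≤ 0 → 0 < 1 + s * ξ → (1 + s * u1) * (1 + s * u2) * (1 + s * u3) ≠ 0 := by
    intro s hs hs' e
    have := Sv_pos hC hA T f hi hf (s := s)
      (fun r hr => hup r hr.2 (by nlinarith [hr.1])) s ⟨le_rfl, hs⟩
    rw [ev, e] at this
    simp at this
  have b1 : u1 ≤ ξ := root_le hξ fun s hs hs' e => hneg s hs hs' (by rw [e]; ring)
  have b2 : u2 ≤ ξ := root_le hξ fun s hs hs' e => hneg s hs hs' (by rw [e]; ring)
  have b3 : u3 ≤ ξ := root_le hξ fun s hs hs' e => hneg s hs hs' (by rw [e]; ring)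
  have he1 : 0 < u1 + u2 + u3 := by
    rw [e1] at h1
    exact (mul_pos_iff_of_pos_left h0).1 h1
  have he2 : ρ * (u1 + u2 + u3) ≤ u1 * u2 + u1 * u3 + u2 * u3 := by
    rw [rho, le_div_iff₀ h1, e1, e2] at hr
    apply le_of_mul_le_mul_left _ h0
    linarith
  have hp : ∀ s, 0 ≤ s → s ≤ w → 0 < (1 + s * u1) * (1 + s * u2) * (1 + s * u3) := by
    intro s hs hs'
    have := hA T _ (hf.update i hs hs')
    rw [← cfg_update f hi, Z_nu_eq, ev] at this
    exact (mul_pos_iff_of_pos_left h0).1 this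
  have hpos : 0 < (d + u1) * (d + u2) * (d + u3) := by
    have := mul_pos (pow_pos hd 3) (hp d⁻¹ (by positivity) hdw)
    refine lt_of_lt_of_eq this ?_
    field_simp
  have hG := good_of_rho h0 hd hρ he1 he2 b1 b2 b3 hth hpos
  refine ⟨by rw [e1, e2, e3]; exact hG, ?_⟩
  intro s hs hs'
  have hσ : d ≤ u2 + u3 ∧ d ≤ u1 + u3 ∧ d ≤ u1 + u2 := sigma_all hρ he1 he2 b1 b2 b3 hth
  obtain ⟨q1, q2, q3⟩ := hσ
  have hps := hp s hs hs'
  have c1 : 1 + s * u1 ≤ 1 + s * ξ := by nlinarith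
  have c2 : 1 + s * u2 ≤ 1 + s * ξ := by nlinarith
  have c3 : 1 + s * u3 ≤ 1 + s * ξ := by nlinarith
  have s12 : 0 < (1 + s * u1) + (1 + s * u2) := by nlinarith
  have s13 : 0 < (1 + s * u1) + (1 + s * u3) := by nlinarith
  have s23 : 0 < (1 + s * u2) + (1 + s * u3) := by nlinarith
  have hle : (1 + s * u1) * (1 + s * u2) * (1 + s * u3) ≤ (1 + s * ξ) ^ 3 :=
    cube_le hps s12 s13 s23 c1 c2 c3
  rw [ev, e1]
  have hX : 0 < (1 + s * ξ) ^ 3 := lt_of_lt_of_le hps hle
  have : d * ((1 + s * u1) * (1 + s * u2) * (1 + s * u3)) < (1 + s * ξ) ^ 3 * (u1 + u2 + u3) := by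
    have a1 := mul_le_mul_of_nonneg_left hle hd.le
    have a2 : d < u1 + u2 + u3 := by linarith
    have a3 := mul_lt_mul_of_pos_left a2 hX
    linarith
  nlinarith

theorem turn_cfg {C : (ι → Bt) → ℝ} (hC : Stab C) {w : ℝ} (hA : ∀ T, Ab C w T) {T : Finset ι}
    {i j : ι} (hi : i ∉ T) (hij : i ≠ j) {f : ι → ℝ} (hf : Box w f) {d : ℝ} (hd : 0 < d)
    (hfi : f i = d⁻¹)
    (hG : Good (S C (cfg (insert j T) f) i 0) (S C (cfg (insert j T) f) i 1)
      (S C (cfg (insert j T) f) i 2) (S C (cfg (insert j T) f) i 3) d) :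
    rho C T f j ≤ rho C (insert i T) f j := by
  rw [← cfg_insert] at hG
  have h := hG.turn hd (wronsk hC hij (fun l _ _ => adm_cfg T f l) admL_E12)
    (pick hC hij (fun l _ _ => adm_cfg T f l) admL_E12)
  have e : ∀ n, Sv C (update (cfg T f) j (E ℝ n)) i d⁻¹ = S C (cfg T f) j n := by
    intro n
    rw [← Z_nu_eq, update_comm hij.symm, ← hfi, cfg_self f hi, S]
  have e' : ∀ n, S C (update (cfg T f) j (E ℝ n)) i 1 = S C (cfg (insert i T) f) j n := by
    intro n
    rw [S, update_comm hij.symm, cfg_insert, S]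
  have h' : Sv C (update (cfg T f) j (E ℝ 2)) i d⁻¹ * S C (update (cfg T f) j (E ℝ 1)) i 1 ≤
    S C (update (cfg T f) j (E ℝ 2)) i 1 * Sv C (update (cfg T f) j (E ℝ 1)) i d⁻¹ := h
  rw [e, e, e', e'] at h'
  rw [rho, rho, div_le_div_iff₀ (by rw [S_one]; exact hA _ _ hf) (by rw [S_one]; exact hA _ _ hf)]
  exact h'

end Pool.Agent.Lib.MP_2fb14c_an
end

-- part Pool.Agent.Lib.MP_2fb14c_an.LinAlg
section

/-!
The partition function built from principal minors of a Hermitian matrix.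
-/

set_option autoImplicit false
set_option linter.unusedSectionVars false

open Finset Function Matrix

namespace Pool.Agent.Lib.MP_2fb14c_an

variable {ι : Type*} [Fintype ι] [DecidableEq ι]

/-- The matrix `diag α + diag β * M`. -/
def Dm (M : Matrix ι ι ℂ) (α β : ι → ℂ) : Matrix ι ι ℂ :=
  Matrix.of fun l => α l • (Pi.single l 1 : ι → ℂ) + β l • M l

/-- Rows of `M` on a subset, rows of the identity elsewhere. -/
def Mb (M : Matrix ι ι ℂ) (m : ι → Bool) : Matrix ι ι ℂ :=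
  Matrix.of fun l => if m l then M l else Pi.single l 1

/-- Principal minor. -/
noncomputable def minor (M : Matrix ι ι ℂ) (m : ι → Bool) : ℝ := (Mb M m).det.re

theorem det_Dm (M : Matrix ι ι ℂ) (α β : ι → ℂ) :
    (Dm M α β).det = ∑ m : ι → Bool, (∏ l, if m l then β l else α l) * (Mb M m).det := by
  have h := (detRowAlternating : (ι → ℂ) [⋀^ι]→ₗ[ℂ] ℂ).toMultilinearMap.map_sum
    (fun l (b : Bool) => (if b then β l else α l) • (if b then M l else (Pi.single l 1 : ι → ℂ)))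
  have e : (fun l => ∑ b : Bool,
      (if b then β l else α l) • (if b then M l else (Pi.single l 1 : ι → ℂ))) =
      fun l => α l • (Pi.single l 1 : ι → ℂ) + β l • M l := by
    funext l
    simp [add_comm]
  rw [e] at h
  refine h.trans ?_
  apply sum_congr rfl
  intro m _
  rw [MultilinearMap.map_smul_univ]
  rfl

theorem minor_eq {M : Matrix ι ι ℂ} (hM : M.IsHermitian) (m : ι → Bool) :
    (minor M m : ℂ) = (Mb M m).det := by
  have e : Mb M m = 1 + diagonal (fun l => if m l then (1 : ℂ) else 0) * (M - 1) := by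
    ext l k
    simp only [Mb, of_apply, Matrix.add_apply, diagonal_mul, Matrix.sub_apply, one_apply]
    by_cases h : m l = true
    · simp [h]
    · simp [h, Pi.single_apply, eq_comm]
  have h : star (Mb M m).det = (Mb M m).det := by
    rw [← det_conjTranspose, e, conjTranspose_add, conjTranspose_mul, conjTranspose_sub,
      conjTranspose_one, hM.eq, diagonal_conjTranspose, det_one_add_mul_comm]
    have e2 : star (fun l => if m l then (1 : ℂ) else 0) = fun l => if m l then (1 : ℂ) else 0 := by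
      funext l
      by_cases h : m l = true <;> simp [h]
    rw [e2]
  exact Complex.conj_eq_iff_re.1 h

/-- The coefficients: products of three principal minors. -/
noncomputable def CM (M : Matrix ι ι ℂ) (n : ι → Bt) : ℝ := ∏ k, minor M (fun l => n l k)

/-- Real determinant. -/
noncomputable def dR (M : Matrix ι ι ℂ) (α β : ι → ℝ) : ℝ :=
  ∑ m : ι → Bool, (∏ l, if m l then β l else α l) * minor M m

theorem dR_eq {M : Matrix ι ι ℂ} (hM : M.IsHermitian) (α β : ι → ℝ) :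
    (dR M α β : ℂ) = (Dm M (fun l => α l) (fun l => β l)).det := by
  rw [det_Dm, dR]
  push_cast
  apply sum_congr rfl
  intro m _
  rw [minor_eq hM]
  congr 1
  apply prod_congr rfl
  intro l _
  split_ifs <;> rfl

theorem Z_prod {R : Type*} [CommRing R] (mi : (ι → Bool) → R) (α β : ι → Fin 3 → R) :
    Z (fun n => ∏ k, mi (fun l => n l k)) (fun l => prodSt (α l) (β l)) =
      ∏ k, ∑ m : ι → Bool, (∏ l, if m l then β l k else α l k) * mi m := by
  rw [Fintype.prod_sum, Z]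
  apply Fintype.sum_equiv (Equiv.piComm fun (_ : ι) (_ : Fin 3) => Bool)
  intro n
  simp only [prodSt, Equiv.piComm_apply, Function.swap, prod_mul_distrib]
  rw [prod_comm]
  rfl

theorem Z_CM (M : Matrix ι ι ℂ) (α β : ι → Fin 3 → ℝ) :
    Z (CM M) (fun l => prodSt (α l) (β l)) = ∏ k, dR M (fun l => α l k) (fun l => β l k) :=
  Z_prod (minor M) α β

theorem Dm_mulVec (M : Matrix ι ι ℂ) (α β v : ι → ℂ) (l : ι) :
    (Dm M α β *ᵥ v) l = α l * v l + β l * (M *ᵥ v) l := by
  show (α l • (Pi.single l 1 : ι → ℂ) + β l • M l) ⬝ᵥ v = _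
  rw [add_dotProduct, smul_dotProduct, smul_dotProduct, single_one_dotProduct]
  rfl

theorem herm_dot {M : Matrix ι ι ℂ} (hM : M.IsHermitian) (x y : ι → ℂ) :
    star x ⬝ᵥ M *ᵥ y = star (M *ᵥ x) ⬝ᵥ y := by
  rw [star_mulVec, hM.eq, dotProduct_mulVec]

theorem stab_CM {M : Matrix ι ι ℂ} (hM : M.IsHermitian) : Stab (CM M) := by
  intro y hy
  have e : (fun n => (CM M n : ℂ)) = fun n => ∏ k, (Mb M (fun l => n l k)).det := by
    funext n
    simp [CM, minor_eq hM]
  rw [e, Z_prod (fun m => (Mb M m).det)]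
  apply prod_ne_zero_iff.2
  intro k _
  rw [← det_Dm M (fun _ => 1) (fun l => y l k)]
  intro h
  obtain ⟨v, hv, h0⟩ := exists_mulVec_eq_zero_iff.2 h
  have h1 : ∀ l, v l = -(y l k * (M *ᵥ v) l) := by
    intro l
    have := congrFun h0 l
    rw [Dm_mulVec] at this
    simp only [one_mul, Pi.zero_apply] at this
    linear_combination this
  have h2 : (star v ⬝ᵥ M *ᵥ v).im = 0 := hM.im_star_dotProduct_mulVec_self v
  have h3 : (star v ⬝ᵥ M *ᵥ v).im = ∑ l, (y l k).im * Complex.normSq ((M *ᵥ v) l) := by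
    rw [dotProduct, Complex.im_sum]
    apply sum_congr rfl
    intro l _
    rw [Pi.star_apply]
    nth_rewrite 1 [h1 l]
    generalize (M *ᵥ v) l = z
    simp [Complex.normSq_apply]
    ring
  rw [h3, sum_eq_zero_iff_of_nonneg
    (fun l _ => mul_nonneg (hy l k).le (Complex.normSq_nonneg _))] at h2
  apply hv
  funext l
  have := h2 l (mem_univ l)
  rw [mul_eq_zero, Complex.normSq_eq_zero] at this
  rw [h1 l, this.resolve_left (hy l k).ne']
  simp

theorem Dm_update (M : Matrix ι ι ℂ) (α β : ι → ℂ) (i : ι) (a b : ℂ) :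
    Dm M (update α i a) (update β i b) =
      (Dm M α β).updateRow i (a • (Pi.single i 1 : ι → ℂ) + b • M i) := by
  ext l k
  by_cases h : l = i
  · subst h; simp [Dm]
  · simp [Dm, h]

theorem cast_update (α : ι → ℝ) (i : ι) (a : ℝ) :
    (fun l => ((update α i a l : ℝ) : ℂ)) = update (fun l => (α l : ℂ)) i (a : ℂ) := by
  funext l
  by_cases h : l = i
  · subst h; simp
  · simp [h]

theorem dR_update {M : Matrix ι ι ℂ} (hM : M.IsHermitian) (α β : ι → ℝ) (i : ι) (a b : ℝ) :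
    dR M (update α i a) (update β i b) =
      a * dR M (update α i 1) (update β i 0) + b * dR M (update α i 0) (update β i 1) := by
  apply Complex.ofReal_injective
  push_cast
  simp only [dR_eq hM, cast_update, Dm_update, det_updateRow_add, det_updateRow_smul]
  push_cast
  ring

theorem schur {M : Matrix ι ι ℂ} (hM : M.IsHermitian) (α β : ι → ℝ) (i : ι)
    (h0 : dR M (update α i 1) (update β i 0) ≠ 0) :
    ∃ v : ι → ℂ, v i = 1 ∧ (∀ l, l ≠ i → α l * v l + β l * (M *ᵥ v) l = 0) ∧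
      (M *ᵥ v) i = (dR M (update α i 0) (update β i 1) / dR M (update α i 1) (update β i 0) : ℝ) := by
  set D := Dm M (fun l => (update α i 1 l : ℝ)) (fun l => (update β i 0 l : ℝ)) with hD
  have hd : D.det ≠ 0 := by
    rw [← dR_eq hM]
    exact_mod_cast h0
  set v : ι → ℂ := D⁻¹ *ᵥ Pi.single i 1 with hv
  have hDv : D *ᵥ v = Pi.single i 1 := by
    rw [hv, mulVec_mulVec, mul_nonsing_inv _ (Ne.isUnit hd), one_mulVec]
  have h1 : v i = 1 := by
    have := congrFun hDv i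
    rw [hD, Dm_mulVec] at this
    simpa using this
  have h2 : ∀ l, l ≠ i → α l * v l + β l * (M *ᵥ v) l = 0 := by
    intro l hl
    have := congrFun hDv l
    rw [hD, Dm_mulVec] at this
    simpa [hl] using this
  refine ⟨v, h1, h2, ?_⟩
  have h3 : (Dm M (update (fun l => (α l : ℂ)) i (-(M *ᵥ v) i))
      (update (fun l => (β l : ℂ)) i 1)).det = 0 := by
    apply exists_mulVec_eq_zero_iff.1
    refine ⟨v, ?_, ?_⟩
    · intro e
      rw [e] at h1
      simp at h1
    · funext l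
      rw [Dm_mulVec]
      by_cases h : l = i
      · subst h; simp [h1]
      · simpa [h] using h2 l h
  have h0' : (dR M (update α i 1) (update β i 0) : ℂ) ≠ 0 := by exact_mod_cast h0
  push_cast
  rw [eq_div_iff h0']
  simp only [dR_eq hM, cast_update, Dm_update, det_updateRow_add, det_updateRow_smul] at h3 ⊢
  push_cast
  linear_combination -h3

end Pool.Agent.Lib.MP_2fb14c_an
end

-- part Pool.Agent.Lib.MP_2fb14c_an.Form
section

/-!
Variational bounds for Schur complements.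
-/

set_option autoImplicit false
set_option linter.unusedSectionVars false

open Finset Function Matrix Complex

namespace Pool.Agent.Lib.MP_2fb14c_an

variable {ι : Type*} [Fintype ι] [DecidableEq ι]

/-- Real part of the inner product. -/
noncomputable def rp (x y : ι → ℂ) : ℝ := ∑ l, ((x l).re * (y l).re + (x l).im * (y l).im)

theorem rp_eq (x y : ι → ℂ) : rp x y = (star x ⬝ᵥ y).re := by
  simp [rp, dotProduct]

theorem rp_comm (x y : ι → ℂ) : rp x y = rp y x := by
  simp only [rp, mul_comm]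

theorem rp_add_left (x y z : ι → ℂ) : rp (x + y) z = rp x z + rp y z := by
  simp only [rp, ← sum_add_distrib, Pi.add_apply, add_re, add_im]
  exact sum_congr rfl fun _ _ => by ring

theorem rp_add_right (x y z : ι → ℂ) : rp x (y + z) = rp x y + rp x z := by
  rw [rp_comm, rp_add_left, rp_comm y, rp_comm z]

theorem rp_sub_left (x y z : ι → ℂ) : rp (x - y) z = rp x z - rp y z := by
  simp only [rp, ← sum_sub_distrib, Pi.sub_apply, sub_re, sub_im]
  exact sum_congr rfl fun _ _ => by ring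

theorem rp_sub_right (x y z : ι → ℂ) : rp x (y - z) = rp x y - rp x z := by
  rw [rp_comm, rp_sub_left, rp_comm y, rp_comm z]

theorem rp_smul_left (t : ℝ) (x y : ι → ℂ) : rp (t • x) y = t * rp x y := by
  simp only [rp, mul_sum, Pi.smul_apply, smul_re, smul_im, smul_eq_mul]
  exact sum_congr rfl fun _ _ => by ring

theorem rp_smul_right (t : ℝ) (x y : ι → ℂ) : rp x (t • y) = t * rp x y := by
  rw [rp_comm, rp_smul_left, rp_comm]

theorem rp_self (x : ι → ℂ) : rp x x = ∑ l, normSq (x l) := by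
  simp only [rp, normSq_apply]

theorem rp_self_nonneg (x : ι → ℂ) : 0 ≤ rp x x := by
  rw [rp_self]
  exact sum_nonneg fun _ _ => normSq_nonneg _

theorem rp_herm {M : Matrix ι ι ℂ} (hM : M.IsHermitian) (x y : ι → ℂ) :
    rp x (M *ᵥ y) = rp (M *ᵥ x) y := by
  rw [rp_eq, rp_eq, herm_dot hM]

theorem rp_single (j : ι) (y : ι → ℂ) : rp (Pi.single j 1) y = (y j).re := by
  rw [rp, sum_eq_single j]
  · simp
  · intro b _ hb
    simp [hb]
  · simp

theorem rp_erase (x y : ι → ℂ) (i : ι) : rp x y = ((x i).re * (y i).re + (x i).im * (y i).im) +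
    ∑ l ∈ univ.erase i, ((x l).re * (y l).re + (x l).im * (y l).im) := by
  rw [rp, add_sum_erase univ (fun l => (x l).re * (y l).re + (x l).im * (y l).im) (mem_univ i)]

/-- The determinant of `1 + diag f * M`. -/
noncomputable def Df (M : Matrix ι ι ℂ) (f : ι → ℝ) : ℝ := dR M (fun _ => 1) f

/-- Constant coefficient in the fugacity at `i`. -/
noncomputable def D0 (M : Matrix ι ι ℂ) (f : ι → ℝ) (i : ι) : ℝ := Df M (update f i 0)

/-- Linear coefficient in the fugacity at `i`. -/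
noncomputable def D1 (M : Matrix ι ι ℂ) (f : ι → ℝ) (i : ι) : ℝ :=
  dR M (update (fun _ => 1) i 0) (update f i 1)

theorem D0_eq (M : Matrix ι ι ℂ) (f : ι → ℝ) (i : ι) :
    D0 M f i = dR M (update (fun _ => 1) i 1) (update f i 0) := by
  rw [D0, Df, show update (fun _ : ι => (1 : ℝ)) i 1 = fun _ => 1 from update_eq_self i _]

theorem Df_update {M : Matrix ι ι ℂ} (hM : M.IsHermitian) (f : ι → ℝ) (i : ι) (s : ℝ) :
    Df M (update f i s) = D0 M f i + s * D1 M f i := by
  have := dR_update hM (fun _ => 1) f i 1 s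
  rw [← D0_eq, show update (fun _ : ι => (1 : ℝ)) i 1 = fun _ => 1 from update_eq_self i _] at this
  rw [Df, this, D1, one_mul]

theorem Z_cfg_empty (M : Matrix ι ι ℂ) (f : ι → ℝ) : Z (CM M) (cfg ∅ f) = Df M f ^ 3 := by
  have := Z_CM M (fun _ _ => 1) (fun l _ => f l)
  rw [prod_const, card_univ, Fintype.card_fin] at this
  rw [Df, ← this]
  congr 1

theorem schur_f {M : Matrix ι ι ℂ} (hM : M.IsHermitian) (f : ι → ℝ) (i : ι) (h0 : 0 < D0 M f i) :
    ∃ v : ι → ℂ, v i = 1 ∧ (∀ l, l ≠ i → (v l).re = -(f l * ((M *ᵥ v) l).re) ∧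
      (v l).im = -(f l * ((M *ᵥ v) l).im)) ∧
      rp v (M *ᵥ v) = D1 M f i / D0 M f i - ∑ l ∈ univ.erase i, f l * normSq ((M *ᵥ v) l) := by
  rw [D0_eq] at h0
  obtain ⟨v, h1, h2, h3⟩ := schur hM (fun _ => 1) f i h0.ne'
  have h4 : ∀ l, l ≠ i → (v l).re = -(f l * ((M *ᵥ v) l).re) ∧
      (v l).im = -(f l * ((M *ᵥ v) l).im) := by
    intro l hl
    have := h2 l hl
    have a1 := congrArg Complex.re this
    have a2 := congrArg Complex.im this
    simp at a1 a2
    constructor <;> linarith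
  refine ⟨v, h1, h4, ?_⟩
  rw [rp_erase _ _ i, h1, h3, D0_eq, D1, sub_eq_add_neg, ← sum_neg_distrib]
  congr 1
  · simp only [one_re, ofReal_re, one_mul, one_im, zero_mul, add_zero]
  · apply sum_congr rfl
    intro l hl
    obtain ⟨a1, a2⟩ := h4 l (ne_of_mem_erase hl)
    rw [a1, a2, normSq_apply]
    ring

theorem lower_gen {M : Matrix ι ι ℂ} (hM : M.IsHermitian) {f : ι → ℝ} (hf : ∀ l, 0 ≤ f l) {i : ι}
    (h0 : 0 < D0 M f i) {e : ι → ℝ} (he : ∀ l, l ≠ i → e l * f l ≤ 1) {lam : ℝ}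
    (h : ∀ c : ι → ℂ, c i = 1 → lam ≤ rp c (M *ᵥ c) + ∑ l ∈ univ.erase i, e l * normSq (c l)) :
    lam * D0 M f i ≤ D1 M f i := by
  obtain ⟨v, h1, h2, h3⟩ := schur_f hM f i h0
  have h4 := h v h1
  have h5 : ∑ l ∈ univ.erase i, e l * normSq (v l) ≤
      ∑ l ∈ univ.erase i, f l * normSq ((M *ᵥ v) l) := by
    apply sum_le_sum
    intro l hl
    obtain ⟨a1, a2⟩ := h2 l (ne_of_mem_erase hl)
    have a3 := he l (ne_of_mem_erase hl)
    have a4 : 0 ≤ f l * normSq ((M *ᵥ v) l) := mul_nonneg (hf l) (normSq_nonneg _)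
    have a5 : e l * normSq (v l) = (e l * f l) * (f l * normSq ((M *ᵥ v) l)) := by
      rw [normSq_apply, normSq_apply, a1, a2]
      ring
    rw [a5]
    nlinarith
  rw [← le_div_iff₀ h0]
  linarith

theorem upper_gen {M : Matrix ι ι ℂ} (hM : M.IsHermitian) {δ : ℝ}
    (hδ : ∀ z : ι → ℂ, -δ * rp z z ≤ rp z (M *ᵥ z)) {f : ι → ℝ} (hf : ∀ l, 0 ≤ f l ∧ δ * f l ≤ 1)
    {i : ι} (h0 : 0 < D0 M f i) {d : ℝ} (c : ι → ℂ) (hc : c i = 1)
    (hs : ∀ l, l ≠ i → c l = 0 ∨ 1 ≤ d * f l) :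
    D1 M f i ≤ (rp c (M *ᵥ c) + d * ∑ l ∈ univ.erase i, normSq (c l)) * D0 M f i := by
  obtain ⟨v, h1, h2, h3⟩ := schur_f hM f i h0
  rw [← div_le_iff₀ h0]
  obtain ⟨z, rfl⟩ : ∃ z, c = v + z := ⟨c - v, by simp⟩
  have hz : z i = 0 := by simpa [h1] using hc
  have e1 : rp (v + z) (M *ᵥ (v + z)) = rp v (M *ᵥ v) + 2 * rp z (M *ᵥ v) + rp z (M *ᵥ z) := by
    rw [mulVec_add, rp_add_left, rp_add_right, rp_add_right, rp_herm hM v z, rp_comm _ z]
    ring
  have e2 := hδ z
  rw [rp_erase z z i, hz] at e2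
  have e3 := rp_erase z (M *ᵥ v) i
  rw [hz] at e3
  simp only [zero_re, zero_im, zero_mul, add_zero, zero_add] at e2 e3
  have key : 0 ≤ ∑ l ∈ univ.erase i,
      (2 * ((z l).re * ((M *ᵥ v) l).re + (z l).im * ((M *ᵥ v) l).im) -
        δ * ((z l).re * (z l).re + (z l).im * (z l).im) + d * normSq ((v + z) l) -
        f l * normSq ((M *ᵥ v) l)) := by
    apply sum_nonneg
    intro l hl
    obtain ⟨a1, a2⟩ := h2 l (ne_of_mem_erase hl)
    obtain ⟨f0, f1⟩ := hf l
    simp only [normSq_apply, Pi.add_apply, add_re, add_im, a1, a2]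
    set p := ((M *ᵥ v) l).re
    set q := ((M *ᵥ v) l).im
    set a := (z l).re with ha
    set b := (z l).im with hb
    rcases hs l (ne_of_mem_erase hl) with h | h
    · have b1 := congrArg Complex.re h
      have b2 := congrArg Complex.im h
      simp only [Pi.add_apply, add_re, add_im, a1, a2, zero_re, zero_im, ← ha, ← hb] at b1 b2
      have b3 : a = f l * p := by linarith
      have b4 : b = f l * q := by linarith
      rw [b3, b4]
      have : 0 ≤ f l * (p * p + q * q) * (1 - δ * f l) :=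
        mul_nonneg (mul_nonneg f0 (by nlinarith)) (by linarith)
      nlinarith
    · have fp : 0 < f l := by
        rcases f0.lt_or_eq with h' | h'
        · exact h'
        · rw [← h'] at h
          norm_num at h
      apply nonneg_of_mul_nonneg_right (a := f l) _ fp
      have c1 : 0 ≤ (d * f l - 1) *
          ((-(f l * p) + a) * (-(f l * p) + a) + (-(f l * q) + b) * (-(f l * q) + b)) :=
        mul_nonneg (by linarith) (add_nonneg (mul_self_nonneg _) (mul_self_nonneg _))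
      have c2 : 0 ≤ (1 - δ * f l) * (a * a + b * b) :=
        mul_nonneg (by linarith) (add_nonneg (mul_self_nonneg _) (mul_self_nonneg _))
      refine le_of_le_of_eq (add_nonneg c1 c2) ?_
      ring
  simp only [sum_sub_distrib, sum_add_distrib, ← mul_sum] at key
  simp only [sum_add_distrib] at e2 e3
  linarith

theorem Df_zero {M : Matrix ι ι ℂ} (hM : M.IsHermitian) : Df M (fun _ => 0) = 1 := by
  apply Complex.ofReal_injective
  rw [Df, dR_eq hM]
  have : Dm M (fun _ => ((1 : ℝ) : ℂ)) (fun _ => ((0 : ℝ) : ℂ)) = 1 := by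
    ext l k
    simp [Dm, one_apply, Pi.single_apply, eq_comm]
  rw [this, det_one]
  rfl

theorem Df_pos {M : Matrix ι ι ℂ} (hM : M.IsHermitian) {δ w : ℝ} (hw : δ * w ≤ 1) (hδ : 0 ≤ δ)
    (h : ∀ i (c : ι → ℂ), c i = 1 → 0 ≤ rp c (M *ᵥ c) + ∑ l ∈ univ.erase i, δ * normSq (c l))
    {f : ι → ℝ} (hf : Box w f) : 0 < Df M f := by
  have key : ∀ X : Finset ι, 0 < Df M (X.piecewise f fun _ => 0) := by
    intro X
    induction X using Finset.induction_on with
    | empty => simp [Df_zero hM]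
    | insert i X hi ih =>
      rw [piecewise_insert, Df_update hM]
      set g := X.piecewise f fun _ => 0 with hg
      have hb : Box w g := by
        intro l
        rw [hg, Finset.piecewise]
        split_ifs
        · exact hf l
        · exact ⟨le_rfl, (hf l).1.trans (hf l).2⟩
      have hgi : g i = 0 := piecewise_eq_of_notMem _ _ _ hi
      have h0 : 0 < D0 M g i := by rwa [D0, update_eq_self_iff.2 hgi.symm]
      have := lower_gen hM (fun l => (hb l).1) h0 (e := fun _ => δ)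
        (fun l _ => (mul_le_mul_of_nonneg_left (hb l).2 hδ).trans hw) (h i)
      have := mul_nonneg (hf i).1 (show 0 ≤ D1 M g i by linarith)
      linarith
  simpa using key univ

/-- Indicator data of a subset. -/
def ind (X : Finset ι) (a b : ℝ) : ι → ℝ := fun l => if l ∈ X then a else b

theorem ind_insert (X : Finset ι) (i : ι) (a b : ℝ) :
    update (ind X a b) i a = ind (insert i X) a b := by
  funext l
  by_cases h : l = i
  · subst h; simp [ind]
  · simp [ind, h]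

theorem ind_self {X : Finset ι} {i : ι} (hi : i ∉ X) (a b : ℝ) :
    update (ind X a b) i b = ind X a b := by
  funext l
  by_cases h : l = i
  · subst h; simp [ind, hi]
  · simp [h]

theorem psd_step {M : Matrix ι ι ℂ} (hM : M.IsHermitian) {X : Finset ι} {i : ι} (hi : i ∉ X)
    (h0 : 0 < dR M (ind X 0 1) (ind X 1 0))
    (h1 : 0 < dR M (ind (insert i X) 0 1) (ind (insert i X) 1 0))
    (h : ∀ c : ι → ℂ, (∀ l, l ∉ X → c l = 0) → 0 ≤ rp c (M *ᵥ c)) (c : ι → ℂ)
    (hc : ∀ l, l ∉ insert i X → c l = 0) : 0 ≤ rp c (M *ᵥ c) := by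
  obtain ⟨v, a1, a2, a3⟩ := schur hM (ind X 0 1) (ind X 1 0) i (by
    rw [ind_self hi, ind_self hi]
    exact h0.ne')
  rw [ind_self hi, ind_self hi, ind_insert, ind_insert] at a3
  set u := dR M (ind (insert i X) 0 1) (ind (insert i X) 1 0) / dR M (ind X 0 1) (ind X 1 0)
  have hu : 0 < u := div_pos h1 h0
  have b1 : ∀ l, l ∈ X → (M *ᵥ v) l = 0 := by
    intro l hl
    have := a2 l (by rintro rfl; exact hi hl)
    simpa [ind, hl] using this
  have b2 : ∀ l, l ≠ i → l ∉ X → v l = 0 := by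
    intro l hl hl'
    have := a2 l hl
    simpa [ind, hl'] using this
  obtain ⟨z, hz⟩ : ∃ z, c = c i • v + z := ⟨c - c i • v, by simp⟩
  have hz0 : ∀ l, l ∉ X → z l = 0 := by
    intro l hl
    have := congrFun hz l
    by_cases h : l = i
    · subst h
      simpa [a1] using this
    · rw [hc l (by simp [h, hl])] at this
      simpa [b2 l h hl] using this.symm
  generalize c i = t at hz
  have e1 : rp (t • v + z) (M *ᵥ (t • v + z)) =
      rp (t • v) (M *ᵥ (t • v)) + 2 * rp z (M *ᵥ (t • v)) + rp z (M *ᵥ z) := by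
    rw [mulVec_add, rp_add_left, rp_add_right, rp_add_right, rp_herm hM (t • v) z, rp_comm _ z]
    ring
  have e2 : rp z (M *ᵥ (t • v)) = 0 := by
    rw [mulVec_smul, rp]
    apply sum_eq_zero
    intro l _
    by_cases hl : l ∈ X
    · simp [b1 l hl]
    · simp [hz0 l hl]
  have e3 : rp (t • v) (M *ᵥ (t • v)) = normSq t * u := by
    rw [mulVec_smul, rp, sum_eq_single i]
    · simp [a1, a3, normSq_apply]
      ring
    · intro l _ hl
      by_cases hl' : l ∈ X
      · simp [b1 l hl']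
      · simp [b2 l hl hl']
    · simp
  rw [hz, e1, e2, e3]
  have := h z hz0
  have := mul_nonneg (normSq_nonneg t) hu.le
  linarith

end Pool.Agent.Lib.MP_2fb14c_an
end

-- part Pool.Agent.Lib.MP_2fb14c_an.Proj
section

/-!
Quadratic form estimates for projections with constant diagonal one half.
-/

set_option autoImplicit false
set_option linter.unusedSectionVars false

open Finset Function Matrix Complex

namespace Pool.Agent.Lib.MP_2fb14c_an

variable {ι : Type*} [Fintype ι] [DecidableEq ι]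

/-- An orthogonal projection with diagonal one half. -/
structure Proj (P : Matrix ι ι ℂ) : Prop where
  herm : P.IsHermitian
  idem : P * P = P
  diag : ∀ i, P i i = 1 / 2

/-- The matrix `x - θ P`. -/
noncomputable def Mt (P : Matrix ι ι ℂ) (x θ : ℝ) : Matrix ι ι ℂ :=
  x • (1 : Matrix ι ι ℂ) - θ • P

/-- Mass of the column `j` on the set `R`. -/
noncomputable def ms (P : Matrix ι ι ℂ) (R : Finset ι) (j : ι) : ℝ := ∑ l ∈ R, normSq (P l j)

/-- Restriction of a vector. -/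
def res (R : Finset ι) (c : ι → ℂ) : ι → ℂ := fun l => if l ∈ R then c l else 0

theorem Mt_herm {P : Matrix ι ι ℂ} (hP : Proj P) (x θ : ℝ) : (Mt P x θ).IsHermitian := by
  unfold Mt IsHermitian
  rw [conjTranspose_sub, conjTranspose_smul, conjTranspose_smul, conjTranspose_one, hP.herm.eq]
  simp

theorem Mt_form (P : Matrix ι ι ℂ) (x θ : ℝ) (c : ι → ℂ) :
    rp c (Mt P x θ *ᵥ c) = x * rp c c - θ * rp c (P *ᵥ c) := by
  rw [Mt, sub_mulVec, smul_mulVec, smul_mulVec, one_mulVec, rp_sub_right, rp_smul_right,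
    rp_smul_right]

theorem Proj.PP {P : Matrix ι ι ℂ} (hP : Proj P) (x y : ι → ℂ) :
    rp (P *ᵥ x) (P *ᵥ y) = rp x (P *ᵥ y) := by
  rw [← rp_herm hP.herm, mulVec_mulVec, hP.idem]

theorem Proj.QQ {P : Matrix ι ι ℂ} (hP : Proj P) (x y : ι → ℂ) :
    rp (x - P *ᵥ x) (y - P *ᵥ y) = rp x y - rp x (P *ᵥ y) := by
  rw [rp_sub_left, rp_sub_right, rp_sub_right, hP.PP, ← rp_herm hP.herm]
  ring

theorem Proj.A_nonneg {P : Matrix ι ι ℂ} (hP : Proj P) (x : ι → ℂ) : 0 ≤ rp x (P *ᵥ x) := by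
  rw [← hP.PP]
  exact rp_self_nonneg _

theorem Proj.A_le {P : Matrix ι ι ℂ} (hP : Proj P) (x : ι → ℂ) : rp x (P *ᵥ x) ≤ rp x x := by
  have := rp_self_nonneg (x - P *ᵥ x)
  rw [hP.QQ] at this
  linarith

theorem Proj.A_comm {P : Matrix ι ι ℂ} (hP : Proj P) (x y : ι → ℂ) :
    rp x (P *ᵥ y) = rp y (P *ᵥ x) := by
  rw [rp_herm hP.herm, rp_comm]

theorem rp_expand (c y : ι → ℂ) (t : ℝ) :
    rp (c - t • y) (c - t • y) = rp c c - 2 * t * rp y c + t ^ 2 * rp y y := by
  rw [rp_sub_left, rp_sub_right, rp_sub_right, rp_smul_left, rp_smul_left, rp_smul_right,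
    rp_smul_right, rp_comm c y]
  ring

theorem Proj.A_expand {P : Matrix ι ι ℂ} (hP : Proj P) (c y : ι → ℂ) (t : ℝ) :
    rp (c - t • y) (P *ᵥ (c - t • y)) =
      rp c (P *ᵥ c) - 2 * t * rp y (P *ᵥ c) + t ^ 2 * rp y (P *ᵥ y) := by
  rw [mulVec_sub, mulVec_smul, rp_sub_left, rp_sub_right, rp_sub_right, rp_smul_left, rp_smul_left,
    rp_smul_right, rp_smul_right, hP.A_comm c y]
  ring

theorem col_apply (P : Matrix ι ι ℂ) (j l : ι) : (P *ᵥ Pi.single j 1) l = P l j := by
  simp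

theorem rp_res (R : Finset ι) (x y : ι → ℂ) : rp (res R x) y = rp (res R x) (res R y) := by
  unfold rp
  apply sum_congr rfl
  intro l _
  by_cases h : l ∈ R <;> simp [res, h]

theorem rp_res' (R : Finset ι) (x y : ι → ℂ) : rp (res R x) y = rp x (res R y) := by
  rw [rp_res, rp_comm x, rp_res R y x, rp_comm]

theorem rp_res_self (R : Finset ι) (x : ι → ℂ) : rp (res R x) (res R x) = ∑ l ∈ R, normSq (x l) := by
  rw [rp_self, ← sum_subset (subset_univ R)]
  · exact sum_congr rfl fun l hl => by simp [res, hl]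
  · intro l _ hl
    simp [res, hl]

theorem ms_eq (P : Matrix ι ι ℂ) (R : Finset ι) (j : ι) :
    rp (res R (P *ᵥ Pi.single j 1)) (res R (P *ᵥ Pi.single j 1)) = ms P R j := by
  rw [rp_res_self, ms]
  simp only [col_apply]

theorem ms_nonneg (P : Matrix ι ι ℂ) (R : Finset ι) (j : ι) : 0 ≤ ms P R j :=
  sum_nonneg fun _ _ => normSq_nonneg _

theorem Proj.A_ee {P : Matrix ι ι ℂ} (hP : Proj P) (j : ι) :
    rp (Pi.single j 1) (P *ᵥ Pi.single j 1) = 1 / 2 := by
  rw [rp_single, col_apply, hP.diag]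
  norm_num

theorem Proj.ms_le {P : Matrix ι ι ℂ} (hP : Proj P) {R : Finset ι} {j : ι} (hj : j ∉ R) :
    ms P R j ≤ 1 / 4 := by
  have h1 := hP.PP (Pi.single j 1) (Pi.single j 1)
  rw [hP.A_ee, rp_self] at h1
  simp only [col_apply] at h1
  have h2 : ms P (insert j R) j ≤ ∑ l, normSq (P l j) :=
    sum_le_sum_of_subset_of_nonneg (subset_univ _) fun _ _ _ => normSq_nonneg _
  rw [ms, sum_insert hj, hP.diag, h1] at h2
  have : normSq (1 / 2 : ℂ) = 1 / 4 := by
    simp
    norm_num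
  rw [ms]
  linarith

theorem Proj.normSq_comm {P : Matrix ι ι ℂ} (hP : Proj P) (i j : ι) :
    normSq (P i j) = normSq (P j i) := by
  rw [← hP.herm.apply i j]
  exact normSq_conj _

theorem lower_form {P : Matrix ι ι ℂ} (hP : Proj P) {x θ δ η ζ τ : ℝ} {R : Finset ι} {j : ι}
    (hj : j ∉ R) (hη : 0 < η) (hη' : η ≤ x + δ - θ) (hb : 0 < x + δ) (hδ : 0 < δ) (hζ : 0 ≤ ζ)
    (hτ : 0 ≤ τ)
    (hg : τ * ((1 / 2 - 2 * ζ * ms P R j + ζ ^ 2 * ms P R j) / η +
      (1 / 2 + 2 * ζ * ms P R j + ζ ^ 2 * ms P R j) / (x + δ) + ζ * ms P R j / δ) ≤ 1)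
    (c : ι → ℂ) (hc : c j = 1) :
    τ - δ ≤ rp c (Mt P x θ *ᵥ c) +
      ∑ l ∈ univ.erase j, (if l ∈ R then δ + ζ * δ else δ) * normSq (c l) := by
  set e : ι → ℂ := Pi.single j 1 with he
  set p := res R (P *ᵥ e) with hp
  have hm : rp p p = ms P R j := ms_eq P R j
  set m := ms P R j
  set b := x + δ with hbd
  set y := e - ζ • p with hy
  have ec : rp e c = 1 := by rw [rp_single, hc]; rfl
  have ee : rp e e = 1 := by rw [rp_single]; simp [he]
  have pe : rp p e = 0 := by rw [rp_comm, rp_single]; simp [hp, res, hj]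
  have pPe : rp p (P *ᵥ e) = m := by rw [hp, rp_res, ← hp, hm]
  have Aee : rp e (P *ᵥ e) = 1 / 2 := hP.A_ee j
  have App1 := hP.A_nonneg p
  have App2 := hP.A_le p
  have Ayy : rp y (P *ᵥ y) = 1 / 2 - 2 * ζ * m + ζ ^ 2 * rp p (P *ᵥ p) := by
    rw [hy, hP.A_expand, Aee, pPe]
  have yy : rp y y = 1 + ζ ^ 2 * m := by
    rw [hy, rp_expand, ee, pe, hm]
    ring
  have yc : rp y c = 1 - ζ * rp p c := by rw [hy, rp_sub_left, rp_smul_left, ec]
  have I1 := hP.A_nonneg (c - (τ / η) • y)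
  rw [hP.A_expand] at I1
  have I2 := hP.A_le (c - (τ / b) • y)
  rw [hP.A_expand, rp_expand] at I2
  have I3 := rp_self_nonneg (res R c - (τ / δ) • p)
  rw [rp_expand, hm, rp_res_self, hp, ← rp_res, ← hp] at I3
  have es : ∑ l ∈ univ.erase j, (if l ∈ R then δ + ζ * δ else δ) * normSq (c l) =
      δ * (rp c c - 1) + ζ * δ * ∑ l ∈ R, normSq (c l) := by
    have a1 : rp c c - 1 = ∑ l ∈ univ.erase j, normSq (c l) := by
      rw [rp_self, ← add_sum_erase univ _ (mem_univ j), hc]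
      simp
    have a2 : ∑ l ∈ R, normSq (c l) = ∑ l ∈ univ.erase j, if l ∈ R then normSq (c l) else 0 := by
      rw [← sum_filter]
      apply sum_congr _ fun _ _ => rfl
      ext l
      simp only [mem_filter, mem_erase, mem_univ, and_true]
      exact ⟨fun h => ⟨by rintro rfl; exact hj h, h⟩, fun h => h.2⟩
    rw [a1, a2, mul_sum, mul_sum, ← sum_add_distrib]
    apply sum_congr rfl
    intro l _
    split_ifs <;> ring
  rw [es, Mt_form]
  have Acc := hP.A_nonneg c
  set A := rp c (P *ᵥ c)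
  set N := rp c c
  set NR := ∑ l ∈ R, normSq (c l)
  set Ayc := rp y (P *ᵥ c)
  set pc := rp p c
  set App := rp p (P *ᵥ p)
  rw [Ayy] at I1 I2
  rw [yy, yc] at I2
  have J1 : 0 ≤ η * A - 2 * τ * Ayc + τ ^ 2 * ((1 / 2 - 2 * ζ * m + ζ ^ 2 * App) / η) := by
    refine le_of_le_of_eq (mul_nonneg hη.le I1) ?_
    field_simp
  have J2 : 0 ≤ b * (N - A) - 2 * τ * (1 - ζ * pc - Ayc) +
      τ ^ 2 * ((1 / 2 + 2 * ζ * m + ζ ^ 2 * (m - App)) / b) := by
    refine le_of_le_of_eq (mul_nonneg hb.le (sub_nonneg.2 I2)) ?_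
    field_simp
    ring
  have J3 : 0 ≤ ζ * δ * NR - 2 * τ * ζ * pc + τ ^ 2 * (ζ * m / δ) := by
    refine le_of_le_of_eq (mul_nonneg (mul_nonneg hζ hδ.le) I3) ?_
    field_simp
  have K1 : (1 / 2 - 2 * ζ * m + ζ ^ 2 * App) / η ≤ (1 / 2 - 2 * ζ * m + ζ ^ 2 * m) / η := by
    rw [hm] at App2
    gcongr
  have K2 : (1 / 2 + 2 * ζ * m + ζ ^ 2 * (m - App)) / b ≤ (1 / 2 + 2 * ζ * m + ζ ^ 2 * m) / b := by
    gcongr
    linarith
  have K3 := mul_le_mul_of_nonneg_left hg hτ
  have K4 := mul_le_mul_of_nonneg_left K1 (sq_nonneg τ)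
  have K5 := mul_le_mul_of_nonneg_left K2 (sq_nonneg τ)
  have K6 := mul_le_mul_of_nonneg_right hη' Acc
  have hx : x = b - δ := by rw [hbd]; ring
  rw [hx]
  nlinarith

theorem upper_form {P : Matrix ι ι ℂ} (hP : Proj P) {x θ d t : ℝ} (hx : x ≤ 1) (hθ : θ ≤ 1)
    (hd : 0 ≤ d) (ht0 : 0 ≤ t) (ht1 : t ≤ 1) {T : Finset ι} {i : ι} (hi : i ∉ T) :
    ∃ c : ι → ℂ, c i = 1 ∧ (∀ l ∈ T, c l = 0) ∧
      rp c (Mt P x θ *ᵥ c) + d * ∑ l ∈ univ.erase i, normSq (c l) ≤
        (1 - t) ^ 2 / 2 + 4 * t * ms P T i + 2 * (1 - θ) + d := by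
  set e : ι → ℂ := Pi.single i 1 with he
  set V := (insert i T)ᶜ with hV
  have hiV : i ∉ V := by simp [hV]
  set p := res V (P *ᵥ e) with hp
  set q := res T (P *ᵥ e) with hq
  have hm : rp p p = ms P V i := ms_eq P V i
  have hm' : rp q q = ms P T i := ms_eq P T i
  have hle := hP.ms_le hiV
  have h0 := ms_nonneg P V i
  set c := e - (-2 * t) • p with hc
  have ci : c i = 1 := by simp [hc, he, hp, res, hiV]
  refine ⟨c, ci, ?_, ?_⟩
  · intro l hl
    have : l ≠ i := by rintro rfl; exact hi hl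
    simp [hc, he, hp, res, hV, hl, this]
  have ee : rp e e = 1 := by rw [rp_single]; simp [he]
  have pe : rp p e = 0 := by rw [rp_comm, rp_single]; simp [hp, res, hiV]
  have qe : rp q e = 0 := by rw [rp_comm, rp_single]; simp [hq, res, hi]
  have qPe : rp q (P *ᵥ e) = ms P T i := by rw [hq, rp_res, ← hq, hm']
  have Aee : rp e (P *ᵥ e) = 1 / 2 := hP.A_ee i
  have cc : rp c c = 1 + 4 * t ^ 2 * ms P V i := by
    rw [hc, rp_expand, ee, pe, hm]
    ring
  have a1 : ∑ l ∈ univ.erase i, normSq (c l) = rp c c - 1 := by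
    rw [rp_self, ← add_sum_erase univ _ (mem_univ i), ci]
    simp
  have dec : p = P *ᵥ e - q - (1 / 2 : ℝ) • e := by
    funext l
    by_cases h1 : l = i
    · subst h1
      simp [hp, hq, res, hiV, hi, he, hP.diag]
    · by_cases h2 : l ∈ T <;> simp [hp, hq, res, hV, he, h1, h2]
  have dec2 : c - P *ᵥ c = (1 - t) • (e - P *ᵥ e) - (2 * t) • (q - P *ᵥ q) := by
    rw [hc, dec]
    simp only [mulVec_sub, mulVec_smul, mulVec_mulVec, hP.idem]
    module
  have B1 := hP.QQ c c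
  rw [dec2, rp_expand, rp_smul_left, rp_smul_right, rp_smul_right, hP.QQ, hP.QQ, hP.QQ, ee, Aee,
    qe, qPe, hm'] at B1
  have B2 := hP.A_nonneg q
  have B3 := hP.A_le c
  have B4 := hP.A_nonneg c
  rw [a1, Mt_form]
  set A := rp c (P *ᵥ c)
  set N := rp c c
  have t2 : t ^ 2 ≤ 1 := by nlinarith
  have N2 : N ≤ 2 := by nlinarith
  have N1 : 1 ≤ N := by nlinarith
  have s1 : (1 - θ) * A ≤ (1 - θ) * 2 := mul_le_mul_of_nonneg_left (by linarith) (by linarith)
  have s2 : x * N ≤ 1 * N := mul_le_mul_of_nonneg_right hx (by linarith)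
  have s3 : d * (N - 1) ≤ d * 1 := mul_le_mul_of_nonneg_left (by linarith) hd
  have s4 := mul_nonneg (sq_nonneg t) B2
  nlinarith

end Pool.Agent.Lib.MP_2fb14c_an
end

-- part Pool.Agent.Lib.MP_2fb14c_an.Greedy
section

/-!
A greedy choice of a sparse subset carrying a fixed fraction of the mass.
-/

set_option autoImplicit false
set_option linter.unusedSectionVars false

open Finset Function Matrix Complex

namespace Pool.Agent.Lib.MP_2fb14c_an

variable {ι : Type*} [Fintype ι] [DecidableEq ι]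

theorem greedy_aux (k : ι → ι → ℝ) (hk : ∀ i r, 0 ≤ k i r) (μ : ι → ℝ) (hμ : ∀ i, 0 ≤ μ i) (s : ℝ)
    (Pr : Finset ι → Prop) (h0 : Pr ∅) (T : Finset ι)
    (hstep : ∀ i R, i ∈ T → i ∉ R → R ⊆ T → ∑ r ∈ R, k i r ≤ s → Pr R → Pr (insert i R)) :
    ∀ X : Finset ι, X ⊆ T →
      ∃ R ⊆ X, Pr R ∧ ∀ l ∈ X, l ∉ R → s * μ l ≤ ∑ r ∈ R, k l r * μ r := by
  intro X
  induction X using Finset.induction_on_min_value μ with
  | empty => exact fun _ => ⟨∅, Subset.refl _, h0, by simp⟩
  | insert i X hi hmin ih =>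
    intro hX
    obtain ⟨R, hR, hP, hinv⟩ := ih ((subset_insert _ _).trans hX)
    have hiR : i ∉ R := fun h => hi (hR h)
    by_cases h : ∑ r ∈ R, k i r ≤ s
    · refine ⟨insert i R, insert_subset_insert _ hR,
        hstep i R (hX (mem_insert_self _ _)) hiR (hR.trans ((subset_insert _ _).trans hX)) h hP, ?_⟩
      intro l hl hlR
      rw [mem_insert, not_or] at hlR
      rw [sum_insert hiR]
      have := hinv l ((mem_insert.1 hl).resolve_left hlR.1) hlR.2
      have := mul_nonneg (hk l i) (hμ i)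
      linarith
    · refine ⟨R, hR.trans (subset_insert _ _), hP, ?_⟩
      intro l hl hlR
      rcases mem_insert.1 hl with rfl | hl
      · calc s * μ l ≤ (∑ r ∈ R, k l r) * μ l := mul_le_mul_of_nonneg_right (not_le.1 h).le (hμ l)
          _ = ∑ r ∈ R, k l r * μ l := sum_mul _ _ _
          _ ≤ _ := sum_le_sum fun r hr => mul_le_mul_of_nonneg_left (hmin r (hR hr)) (hk l r)
      · exact hinv l hl hlR

theorem greedy {P : Matrix ι ι ℂ} (hP : Proj P) (j : ι) (Pr : Finset ι → Prop) (h0 : Pr ∅)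
    (T : Finset ι)
    (hstep : ∀ i R, i ∈ T → i ∉ R → R ⊆ T → ms P R i ≤ 1 / 400 → Pr R → Pr (insert i R)) :
    ∃ R ⊆ T, Pr R ∧ ms P T j ≤ 101 * ms P R j := by
  obtain ⟨R, hR, hPr, hinv⟩ := greedy_aux (fun i r => normSq (P r i)) (fun _ _ => normSq_nonneg _)
    (fun l => normSq (P l j)) (fun _ => normSq_nonneg _) (1 / 400) Pr h0 T hstep T (Subset.refl _)
  refine ⟨R, hR, hPr, ?_⟩
  have h1 : ∑ l ∈ T \ R, 1 / 400 * normSq (P l j) ≤
      ∑ l ∈ T \ R, ∑ r ∈ R, normSq (P r l) * normSq (P r j) :=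
    sum_le_sum fun l hl => hinv l (mem_sdiff.1 hl).1 (mem_sdiff.1 hl).2
  rw [sum_comm, ← mul_sum] at h1
  have h2 : ∑ r ∈ R, ∑ l ∈ T \ R, normSq (P r l) * normSq (P r j) ≤
      ∑ r ∈ R, 1 / 4 * normSq (P r j) := by
    apply sum_le_sum
    intro r hr
    rw [← sum_mul]
    apply mul_le_mul_of_nonneg_right _ (normSq_nonneg _)
    have := hP.ms_le (R := T \ R) (j := r) (by simp [hr])
    rw [ms] at this
    simpa only [hP.normSq_comm r] using this
  rw [← mul_sum] at h2
  have h3 := sum_sdiff (f := fun l => normSq (P l j)) hR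
  unfold ms
  linarith

end Pool.Agent.Lib.MP_2fb14c_an
end

-- part Pool.Agent.Lib.MP_2fb14c_an.Base
section

/-!
Estimates for product configurations with the numerical constants.
-/

set_option autoImplicit false
set_option linter.unusedSectionVars false

open Finset Function Matrix Complex

namespace Pool.Agent.Lib.MP_2fb14c_an

variable {ι : Type*} [Fintype ι] [DecidableEq ι]

/-- The step size. -/
noncomputable def dd : ℝ := 1 / 10 ^ 6

/-- The maximal fugacity. -/
noncomputable def ww : ℝ := 10 ^ 6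

/-- The evaluation point. -/
noncomputable def xx : ℝ := 1 - 1 / 10 ^ 14

/-- The crude lower bound for the potential. -/
noncomputable def uu : ℝ := 1 / 10 ^ 6 - 202 / 10 ^ 14

theorem dd_pos : 0 < dd := by norm_num [dd]

theorem ww_pos : 0 < ww := by norm_num [ww]

theorem dd_inv : dd⁻¹ = ww := by norm_num [dd, ww]

theorem uu_pos : 0 < uu := by norm_num [uu]

theorem box_ww : Box ww (fun _ : ι => ww) := fun _ => ⟨ww_pos.le, le_rfl⟩

theorem low0 {P : Matrix ι ι ℂ} (hP : Proj P) {θ : ℝ} (h1 : θ ≤ 1) (i : ι) (c : ι → ℂ)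
    (hc : c i = 1) : uu ≤ rp c (Mt P xx θ *ᵥ c) + ∑ l ∈ univ.erase i, dd * normSq (c l) := by
  have := lower_form hP (x := xx) (θ := θ) (δ := dd) (η := dd - 1 / 10 ^ 14) (ζ := 0)
    (τ := uu + dd) (R := ∅) (j := i) (by simp) (by norm_num [dd]) (by rw [xx]; linarith)
    (by norm_num [dd, xx]) dd_pos le_rfl (by norm_num [dd, uu])
    (by norm_num [dd, uu, xx]) c hc
  simpa using this

theorem dfpos {P : Matrix ι ι ℂ} (hP : Proj P) {θ : ℝ} (h1 : θ ≤ 1) {f : ι → ℝ} (hf : Box ww f) :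
    0 < Df (Mt P xx θ) f :=
  Df_pos (Mt_herm hP _ _) (δ := dd) (by norm_num [dd, ww]) dd_pos.le
    (fun i c hc => uu_pos.le.trans (low0 hP h1 i c hc)) hf

theorem d0pos {P : Matrix ι ι ℂ} (hP : Proj P) {θ : ℝ} (h1 : θ ≤ 1) {f : ι → ℝ} (hf : Box ww f)
    (i : ι) : 0 < D0 (Mt P xx θ) f i := dfpos hP h1 (hf.zero i)

theorem d1low {P : Matrix ι ι ℂ} (hP : Proj P) {θ : ℝ} (h1 : θ ≤ 1) {f : ι → ℝ} (hf : Box ww f)
    (i : ι) : uu * D0 (Mt P xx θ) f i ≤ D1 (Mt P xx θ) f i :=
  lower_gen (Mt_herm hP _ _) (fun l => (hf l).1) (d0pos hP h1 hf i) (e := fun _ => dd)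
    (fun l _ => (mul_le_mul_of_nonneg_left (hf l).2 dd_pos.le).trans (by norm_num [dd, ww]))
    (low0 hP h1 i)

theorem Sv_empty {M : Matrix ι ι ℂ} (hM : M.IsHermitian) (f : ι → ℝ) (i : ι) (s : ℝ) :
    Sv (CM M) (cfg ∅ f) i s = (D0 M f i + s * D1 M f i) ^ 3 := by
  rw [← Z_nu_eq, cfg_update f (notMem_empty i), Z_cfg_empty, Df_update hM]

theorem S_empty {M : Matrix ι ι ℂ} (hM : M.IsHermitian) (f : ι → ℝ) (i : ι) :
    S (CM M) (cfg ∅ f) i 1 = 3 * D0 M f i ^ 2 * D1 M f i ∧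
      S (CM M) (cfg ∅ f) i 2 = 3 * D0 M f i * D1 M f i ^ 2 := by
  have := cub_coeff_eq (b0 := D0 M f i ^ 3) (b1 := 3 * D0 M f i ^ 2 * D1 M f i)
    (b2 := 3 * D0 M f i * D1 M f i ^ 2) (b3 := D1 M f i ^ 3)
    (fun s => (Sv_empty hM f i s).trans (by rw [cub]; ring))
  exact ⟨this.2.1, this.2.2.1⟩

theorem rho_empty {P : Matrix ι ι ℂ} (hP : Proj P) {θ : ℝ} (h1 : θ ≤ 1) {f : ι → ℝ}
    (hf : Box ww f) (i : ι) :
    rho (CM (Mt P xx θ)) ∅ f i = D1 (Mt P xx θ) f i / D0 (Mt P xx θ) f i := by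
  obtain ⟨a1, a2⟩ := S_empty (Mt_herm hP xx θ) f i
  have b0 := d0pos hP h1 hf i
  have b1 := lt_of_lt_of_le (mul_pos uu_pos b0) (d1low hP h1 hf i)
  rw [rho, a1, a2]
  field_simp

theorem hup {P : Matrix ι ι ℂ} (hP : Proj P) {θ : ℝ} (h1 : θ ≤ 1) {T : Finset ι}
    {i : ι} (hi : i ∉ T) {f : ι → ℝ} (hf : Box ww f) {d t ξ : ℝ} (hd : 0 ≤ d)
    (hfd : ∀ l, l ∉ T → 1 ≤ d * f l) (ht0 : 0 ≤ t) (ht1 : t ≤ 1)
    (hξ : (1 - t) ^ 2 / 2 + 4 * t * ms P T i + 2 * (1 - θ) + d ≤ ξ) (s : ℝ) (hs : s ≤ 0)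
    (hs' : 0 < 1 + s * ξ) : 0 < Sv (CM (Mt P xx θ)) (cfg ∅ (zer T f)) i s := by
  rw [Sv_empty (Mt_herm hP _ _)]
  apply pow_pos
  have hb := hf.zer T
  have b0 := d0pos hP h1 hb i
  obtain ⟨c, c1, c2, c3⟩ := upper_form hP (x := xx) (by norm_num [xx]) h1 hd ht0 ht1 hi
  have := upper_gen (Mt_herm hP xx θ) (δ := dd) (f := zer T f) (fun z => ?_) (fun l => ⟨(hb l).1,
    (mul_le_mul_of_nonneg_left (hb l).2 dd_pos.le).trans (by norm_num [dd, ww])⟩) b0 (d := d) c c1
    (fun l _ => ?_)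
  · have h2 := this.trans (mul_le_mul_of_nonneg_right (c3.trans hξ) b0.le)
    nlinarith [mul_pos hs' b0]
  · rw [Mt_form]
    have a1 := hP.A_le z
    have a2 := hP.A_nonneg z
    have a3 : θ * rp z (P *ᵥ z) ≤ 1 * rp z z := mul_le_mul h1 a1 a2 zero_le_one
    have a4 : 0 ≤ (xx + dd - 1) * rp z z := mul_nonneg (by norm_num [xx, dd]) (rp_self_nonneg z)
    linarith
  · by_cases hl : l ∈ T
    · exact Or.inl (c2 l hl)
    · exact Or.inr (by simpa [zer, hl] using hfd l hl)

/-- Fugacity `1 / d` on `R` and maximal elsewhere. -/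
noncomputable def fR (R : Finset ι) (d : ℝ) : ι → ℝ := fun l => if l ∈ R then d⁻¹ else ww

theorem box_fR (R : Finset ι) {d : ℝ} (hd : dd ≤ d) : Box ww (fR R d) := by
  intro l
  unfold fR
  split_ifs
  · exact ⟨inv_nonneg.2 (dd_pos.le.trans hd), dd_inv ▸ inv_anti₀ dd_pos hd⟩
  · exact ⟨ww_pos.le, le_rfl⟩

theorem rho_fR {P : Matrix ι ι ℂ} (hP : Proj P) {θ : ℝ} (h1 : θ ≤ 1) {η ζ τ : ℝ} {R : Finset ι}
    {j : ι} (hj : j ∉ R) (hη : 0 < η) (hη' : η ≤ xx + dd - θ) (hζ : 0 ≤ ζ) (hτ : 0 ≤ τ)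
    (hg : τ * ((1 / 2 - 2 * ζ * ms P R j + ζ ^ 2 * ms P R j) / η +
      (1 / 2 + 2 * ζ * ms P R j + ζ ^ 2 * ms P R j) / (xx + dd) + ζ * ms P R j / dd) ≤ 1) :
    τ - dd ≤ rho (CM (Mt P xx θ)) ∅ (fR R (dd + ζ * dd)) j := by
  have hd : dd ≤ dd + ζ * dd := by nlinarith [dd_pos]
  have hb := box_fR R hd
  rw [rho_empty hP h1 hb, le_div_iff₀ (d0pos hP h1 hb j)]
  apply lower_gen (Mt_herm hP _ _) (fun l => (hb l).1) (d0pos hP h1 hb j) _
    (lower_form hP hj hη hη' (by norm_num [dd, xx]) dd_pos hζ hτ hg)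
  intro l _
  unfold fR
  split_ifs
  · rw [mul_inv_cancel₀ (by linarith [dd_pos])]
  · norm_num [dd, ww]

theorem biaffine {M : Matrix ι ι ℂ} (hM : M.IsHermitian) (f : ι → ℝ) {i j : ι} (hij : i ≠ j) :
    ∃ a b c d : ℝ, (∀ s, D0 M (update f i s) j = a + b * s ∧ D1 M (update f i s) j = c + d * s) ∧
      ∀ v, D0 M (update f j v) i = a + c * v ∧ D1 M (update f j v) i = b + d * v := by
  have h1 : ∀ s v, Df M (update (update f i s) j v) =
      D0 M (update f i s) j + v * D1 M (update f i s) j := fun s v => Df_update hM _ j v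
  have h2 : ∀ s v, Df M (update (update f i s) j v) =
      D0 M (update f j v) i + s * D1 M (update f j v) i := fun s v => by
    rw [update_comm hij, Df_update hM]
  refine ⟨D0 M (update f j 0) i, D1 M (update f j 0) i,
    D0 M (update f j 1) i - D0 M (update f j 0) i, D1 M (update f j 1) i - D1 M (update f j 0) i,
    fun s => ?_, fun v => ?_⟩
  · have a1 := (h1 s 0).symm.trans (h2 s 0)
    have a2 := (h1 s 1).symm.trans (h2 s 1)
    constructor <;> linarith
  · have a1 := (h1 0 0).symm.trans (h2 0 0)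
    have a2 := (h1 0 1).symm.trans (h2 0 1)
    have a3 := (h1 1 0).symm.trans (h2 1 0)
    have a4 := (h1 1 1).symm.trans (h2 1 1)
    have a5 := (h1 0 v).symm.trans (h2 0 v)
    have a6 := (h1 1 v).symm.trans (h2 1 v)
    constructor
    · linear_combination -a5 + (1 - v) * a1 + v * a2
    · linear_combination a5 - a6 - (1 - v) * a1 - v * a2 + (1 - v) * a3 + v * a4

theorem two_ineq {a b c d x : ℝ} (ha : 0 < a) (hb : x * a ≤ b) (hc : x * a ≤ c)
    (h1 : x * (a + c) ≤ b + d) (h2 : x * (a + b) ≤ c + d) (hx : 99 / 100 ≤ x) :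
    3 / 2 * (a * c) ≤ b * c + a * d := by
  have c0 : 0 < c := by nlinarith
  have ac := mul_pos ha c0
  rcases le_total a c with h | h
  · have a1 := mul_le_mul_of_nonneg_left h1 ha.le
    have a2 := mul_le_mul_of_nonneg_right hb (sub_nonneg.2 h)
    nlinarith
  · have a1 := mul_le_mul_of_nonneg_left h2 ha.le
    have a2 := mul_le_mul_of_nonneg_right hb c0.le
    have a3 : 99 / 100 * a ≤ b := by nlinarith
    have a4 : 99 / 100 * (a + b) ≤ x * (a + b) := mul_le_mul_of_nonneg_right hx (by nlinarith)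
    have a5 := mul_le_mul_of_nonneg_left a4 ha.le
    have a6 := mul_le_mul_of_nonneg_left a3 ha.le
    have a7 := mul_le_mul_of_nonneg_left h ha.le
    have a8 := mul_le_mul_of_nonneg_right hx ac.le
    nlinarith

theorem good_two {P : Matrix ι ι ℂ} (hP : Proj P) {θ : ℝ} (h1 : θ ≤ 1) {f : ι → ℝ}
    (hf : Box ww f) {i j : ι} (hij : i ≠ j) :
    Good (S (CM (Mt P xx θ)) (cfg {j} f) i 0) (S (CM (Mt P xx θ)) (cfg {j} f) i 1)
      (S (CM (Mt P xx θ)) (cfg {j} f) i 2) (S (CM (Mt P xx θ)) (cfg {j} f) i 3)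
      (dd + 1 / 2 * dd) := by
  have hM := Mt_herm hP xx θ
  obtain ⟨a, b, c, d, e1, e2⟩ := biaffine hM f hij
  have p0 := d0pos hP h1 (hf.zero i) j
  have p1 := d1low hP h1 (hf.zero i) j
  have p2 := d1low hP h1 (hf.update i ww_pos.le le_rfl) j
  have p3 := d1low hP h1 (hf.zero j) i
  have p4 := d1low hP h1 (hf.update j ww_pos.le le_rfl) i
  rw [(e1 _).1] at p0
  rw [(e1 _).1, (e1 _).2] at p1 p2
  rw [(e2 _).1, (e2 _).2] at p3 p4
  simp only [mul_zero, add_zero] at p0 p1 p3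
  have hc : 0 < c := lt_of_lt_of_le (mul_pos uu_pos p0) p1
  have hb : 0 < b := lt_of_lt_of_le (mul_pos uu_pos p0) p3
  have hv : ∀ s, Sv (CM (Mt P xx θ)) (cfg {j} f) i s = cub (3 * a ^ 2 * c)
      (3 * a ^ 2 * c * (b / a + b / a + d / c))
      (3 * a ^ 2 * c * (b / a * (b / a) + b / a * (d / c) + b / a * (d / c)))
      (3 * a ^ 2 * c * (b / a * (b / a) * (d / c))) s := by
    intro s
    rw [← Z_nu_eq, cfg_update f (by simpa using hij), ← insert_empty_eq, ← S_one,
      (S_empty hM _ j).1, (e1 s).1, (e1 s).2, cub_roots]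
    field_simp
  obtain ⟨s0, s1, s2, s3⟩ := cub_coeff_eq hv
  have k1 : dd + 1 / 2 * dd ≤ b / a + d / c := by
    rw [div_add_div _ _ p0.ne' hc.ne', le_div_iff₀ (mul_pos p0 hc)]
    have := two_ineq (a := a) (b := ww * b) (c := ww * c) (d := ww ^ 2 * d) (x := ww * uu) p0
      (by nlinarith [ww_pos]) (by nlinarith [ww_pos]) (by nlinarith [ww_pos])
      (by nlinarith [ww_pos]) (by norm_num [ww, uu])
    rw [dd]
    rw [ww] at this
    linarith
  have k2 : uu ≤ b / a := by rwa [le_div_iff₀ p0]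
  have k3 : -dd < d / c := by
    rw [lt_div_iff₀ hc]
    have : 0 < uu * (a + b * ww) := mul_pos uu_pos (add_pos p0 (mul_pos hb ww_pos))
    rw [dd]
    rw [ww] at p2 this
    linarith
  have k4 : dd + 1 / 2 * dd ≤ 2 * uu := by norm_num [dd, uu]
  have k5 := dd_pos
  have k6 := uu_pos
  rw [s0, s1, s2, s3]
  exact ⟨by positivity, b / a, b / a, d / c, rfl, rfl, rfl, by linarith, by linarith, by linarith,
    k1, k1, by linarith⟩

end Pool.Agent.Lib.MP_2fb14c_an
end
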