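import Pool.Agent.Lib.MP_2fb14c_an.Frame

/-!
Unit vectors with Bessel bound two, over the real or the complex field, split into three
Riesz sequences.
-/

set_option autoImplicit false
set_option linter.unusedSectionVars false

open Finset Function Matrix

namespace Pool.Agent.Lib.MP_2fb14c_an

variable {𝕜 : Type*} [RCLike 𝕜] {ι : Type*} [Fintype ι] [DecidableEq ι]
variable {H : Type*} [NormedAddCommGroup H] [InnerProductSpace 𝕜 H]

/-- The embedding of the scalar field in the complex numbers. -/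
noncomputable def toC (𝕜 : Type*) [RCLike 𝕜] : 𝕜 →+* ℂ where
  toFun z := ⟨RCLike.re z, RCLike.im z⟩
  map_one' := Complex.ext (by simp) (by simp)
  map_mul' z w := Complex.ext (by simp) (by simp)
  map_zero' := Complex.ext (by simp) (by simp)
  map_add' z w := Complex.ext (by simp) (by simp)

theorem toC_re (z : 𝕜) : (toC 𝕜 z).re = RCLike.re z := rfl

theorem toC_star (z : 𝕜) : toC 𝕜 (star z) = star (toC 𝕜 z) :=
  Complex.ext (by simp [toC]) (by simp [toC])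

theorem bessel_upper (u : ι → H)
    (h : ∀ x : H, ∑ i, ‖(inner 𝕜 (u i) x : 𝕜)‖ ^ 2 ≤ 2 * ‖x‖ ^ 2) (c : ι → 𝕜) :
    ‖∑ i, c i • u i‖ ^ 2 ≤ 2 * ∑ i, ‖c i‖ ^ 2 := by
  set y := ∑ i, c i • u i with hy
  have h1 : ‖y‖ ^ 2 ≤ ∑ i, (‖c i‖ ^ 2 + 1 / 4 * ‖(inner 𝕜 (u i) y : 𝕜)‖ ^ 2) := by
    rw [← inner_self_eq_norm_sq (𝕜 := 𝕜)]
    conv_lhs => rw [hy, sum_inner, ← hy, map_sum]
    refine sum_le_sum fun i _ => (RCLike.re_le_norm _).trans ?_
    rw [inner_smul_left, norm_mul, RCLike.norm_conj]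
    nlinarith [sq_nonneg (‖c i‖ - 1 / 2 * ‖(inner 𝕜 (u i) y : 𝕜)‖)]
  rw [sum_add_distrib, ← mul_sum] at h1
  linarith [h y]

theorem form_eq (u : ι → H) (c : ι → 𝕜) :
    star c ⬝ᵥ ((1 - (1 / 2 : 𝕜) • gram 𝕜 u) *ᵥ c) =
      ((∑ i, ‖c i‖ ^ 2 - 1 / 2 * ‖∑ i, c i • u i‖ ^ 2 : ℝ) : 𝕜) := by
  rw [sub_mulVec, smul_mulVec, one_mulVec, dotProduct_sub, dotProduct_smul,
    star_dotProduct_gram_mulVec, inner_self_eq_norm_sq_to_K]
  push_cast
  simp [dotProduct, RCLike.conj_mul]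

open scoped MatrixOrder ComplexOrder in
/-- A positive contraction is the corner of a projection. -/
theorem exists_dilation {A : Matrix ι ι 𝕜} (h0 : A.PosSemidef) (h1 : (1 - A).PosSemidef) :
    ∃ S : Matrix ι ι 𝕜, (fromBlocks A S S (1 - A)).IsHermitian ∧
      fromBlocks A S S (1 - A) * fromBlocks A S S (1 - A) = fromBlocks A S S (1 - A) := by
  have hc : Commute A (1 - A) := (Commute.one_right A).sub_right (Commute.refl A)
  have hB : 0 ≤ A * (1 - A) := Commute.mul_nonneg h0.nonneg h1.nonneg hc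
  set S := CFC.sqrt (A * (1 - A)) with hS
  have hSS : S * S = A * (1 - A) := CFC.sqrt_mul_sqrt_self _ hB
  have hSh : S.IsHermitian := (nonneg_iff_posSemidef.1 (CFC.sqrt_nonneg _)).isHermitian
  have hSA : Commute S A :=
    Commute.cfcₙ_nnreal ((Commute.refl A).mul_left hc.symm) _
  refine ⟨S, IsHermitian.fromBlocks h0.isHermitian hSh.eq h1.isHermitian, ?_⟩
  rw [fromBlocks_multiply, hSS]
  congr 1
  · noncomm_ring
  · rw [mul_sub, hSA.eq]; noncomm_ring
  · rw [sub_mul, hSA.eq]; noncomm_ring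
  · noncomm_ring

open scoped ComplexOrder in
theorem bessel_lower (u : ι → H) (h1 : ∀ i, ‖u i‖ = 1)
    (h : ∀ x : H, ∑ i, ‖(inner 𝕜 (u i) x : 𝕜)‖ ^ 2 ≤ 2 * ‖x‖ ^ 2) :
    ∃ f : ι → Fin 3, ∀ (k : Fin 3) (c : ι → 𝕜), (∀ i, f i ≠ k → c i = 0) →
      2 / 10 ^ 14 * ∑ i, ‖c i‖ ^ 2 ≤ ‖∑ i, c i • u i‖ ^ 2 := by
  set A : Matrix ι ι 𝕜 := 1 - (1 / 2 : 𝕜) • gram 𝕜 u with hA
  have hb : (1 - A).PosSemidef := by
    rw [hA, sub_sub_cancel]
    refine (posSemidef_gram 𝕜 u).smul ?_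
    rw [show (1 / 2 : 𝕜) = ((1 / 2 : ℝ) : 𝕜) by push_cast; rfl]
    exact RCLike.ofReal_nonneg.2 (by norm_num)
  have ha : A.PosSemidef := by
    refine PosSemidef.of_dotProduct_mulVec_nonneg ?_ fun c => ?_
    · simpa using isHermitian_one.sub hb.isHermitian
    · rw [hA, form_eq]
      exact RCLike.ofReal_nonneg.2 (by linarith [bessel_upper u h c])
  obtain ⟨S, hh, hi⟩ := exists_dilation ha hb
  have hd : ∀ i, A i i = 1 / 2 := fun i => by
    simp [hA, h1]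
    norm_num
  have hP : Proj ((fromBlocks A S S (1 - A)).map (toC 𝕜)) := by
    refine ⟨hh.map _ toC_star, by rw [← Matrix.map_mul, hi], ?_⟩
    rintro (i | i)
    · simp [hd, map_ofNat]
    · simp [hd, map_ofNat]
      norm_num
  obtain ⟨σ, hσ⟩ := paving hP
  refine ⟨fun i => σ (Sum.inl i), fun k c hc => ?_⟩
  have := hσ k (toC 𝕜 ∘ Sum.elim c 0) (by
    rintro (i | i) hi
    · simp [hc i hi]
    · simp)
  have e : ∀ x y : ι ⊕ ι → 𝕜, rp (toC 𝕜 ∘ x) (toC 𝕜 ∘ y) = RCLike.re (star x ⬝ᵥ y) := by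
    intro x y
    rw [rp_eq, ← toC_re, RingHom.map_dotProduct]
    congr 2
    funext i
    exact (toC_star _).symm
  have e2 : ((fromBlocks A S S (1 - A)).map (toC 𝕜)) *ᵥ (toC 𝕜 ∘ Sum.elim c 0) =
      toC 𝕜 ∘ (fromBlocks A S S (1 - A) *ᵥ Sum.elim c 0) := by
    funext i
    exact (RingHom.map_mulVec _ _ _ _).symm
  have e3 : star (Sum.elim c (0 : ι → 𝕜)) = Sum.elim (star c) 0 := by
    funext i
    rcases i with i | i <;> simp
  have e4 : RCLike.re (star c ⬝ᵥ c) = ∑ i, ‖c i‖ ^ 2 := by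
    rw [dotProduct, map_sum]
    exact sum_congr rfl fun i _ => by
      rw [Pi.star_apply, RCLike.star_def, RCLike.conj_mul, ← RCLike.ofReal_pow, RCLike.ofReal_re]
  rw [e2, e, e, e3, fromBlocks_mulVec, sumElim_dotProduct_sumElim, sumElim_dotProduct_sumElim,
    xx] at this
  simp only [Sum.elim_comp_inl, Sum.elim_comp_inr, mulVec_zero, add_zero, zero_dotProduct] at this
  rw [hA, form_eq, RCLike.ofReal_re, e4] at this
  linarith

/-- A colouring can be refined to a surjective one. -/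
theorem exists_refine {κ : Type*} [Fintype κ] [DecidableEq κ] (f : ι → κ) :
    ∃ g : ι → κ, (∀ i j, g i = g j → f i = f j) ∧
      (Fintype.card κ ≤ Fintype.card ι → Surjective g) := by
  obtain ⟨g, hg, hmax⟩ := exists_max_image
    (univ.filter fun g : ι → κ => ∀ i j, g i = g j → f i = f j) (fun g => #(univ.image g))
    ⟨f, by simp⟩
  have hg' := (mem_filter.1 hg).2
  refine ⟨g, hg', fun hc k => by_contra fun hk => ?_⟩
  push Not at hk
  have hni : ¬ Injective g := fun hinj =>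
    hk _ ((((Fintype.bijective_iff_injective_and_card g).2
      ⟨hinj, le_antisymm (Fintype.card_le_of_injective g hinj) hc⟩).2 k).choose_spec)
  obtain ⟨i, j, hij, hne⟩ := not_injective_iff.1 hni
  have h1 := hmax (update g i k) (mem_filter.2 ⟨mem_univ _, fun a b hab => by
    by_cases ha : a = i <;> by_cases hb : b = i
    · rw [ha, hb]
    · subst ha
      rw [update_self, update_of_ne hb] at hab
      exact absurd hab.symm (hk b)
    · subst hb
      rw [update_self, update_of_ne ha] at hab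
      exact absurd hab (hk a)
    · rw [update_of_ne ha, update_of_ne hb] at hab
      exact hg' a b hab⟩)
  have h2 : insert k (univ.image g) ⊆ univ.image (update g i k) := by
    intro z hz
    rcases mem_insert.1 hz with rfl | hz
    · exact mem_image.2 ⟨i, mem_univ _, update_self _ _ _⟩
    · obtain ⟨a, -, rfl⟩ := mem_image.1 hz
      by_cases ha : a = i
      · exact mem_image.2 ⟨j, mem_univ _, by rw [update_of_ne hne.symm, ha, hij]⟩
      · exact mem_image.2 ⟨a, mem_univ _, update_of_ne ha _ _⟩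
  have h3 := card_le_card h2
  rw [card_insert_of_notMem (by simpa using hk)] at h3
  omega

theorem sum_ext_zero {M : Type*} [AddCommMonoid M] (R : Finset ι) (a : R → 𝕜) (F : 𝕜 → ι → M)
    (hF : ∀ i, F 0 i = 0) :
    ∑ j : R, F (a j) j = ∑ i, F (if hi : i ∈ R then a ⟨i, hi⟩ else 0) i := by
  rw [← sum_subset (subset_univ R) (fun i _ hi => by simp [hi, hF]), ← sum_coe_sort R]
  exact sum_congr rfl fun j _ => by simp [j.2]

theorem bessel_three (u : ι → H) (h1 : ∀ i, ‖u i‖ = 1)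
    (h : ∀ x : H, ∑ i, ‖(inner 𝕜 (u i) x : 𝕜)‖ ^ 2 ≤ 2 * ‖x‖ ^ 2) :
    ∃ g : ι → Fin 3, (3 ≤ Fintype.card ι → Surjective g) ∧
      ∀ (k : Fin 3) (R : Finset ι), (∀ i ∈ R, g i = k) → ∀ a : R → 𝕜,
        2 / 10 ^ 14 * ∑ j, ‖a j‖ ^ 2 ≤ ‖∑ j, a j • u j‖ ^ 2 ∧
          ‖∑ j, a j • u j‖ ^ 2 ≤ 2 * ∑ j, ‖a j‖ ^ 2 := by
  obtain ⟨f, hf⟩ := bessel_lower u h1 h
  obtain ⟨g, hg, hs⟩ := exists_refine f
  refine ⟨g, fun h3 => hs (by simpa using h3), fun k R hR a => ?_⟩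
  set c : ι → 𝕜 := fun i => if hi : i ∈ R then a ⟨i, hi⟩ else 0 with hc
  have e1 : ∑ j, ‖a j‖ ^ 2 = ∑ i, ‖c i‖ ^ 2 := sum_ext_zero R a (fun z _ => ‖z‖ ^ 2) (by simp)
  have e2 : ∑ j, a j • u j = ∑ i, c i • u i := sum_ext_zero R a (fun z i => z • u i) (by simp)
  rw [e1, e2]
  refine ⟨?_, bessel_upper u h c⟩
  rcases R.eq_empty_or_nonempty with h0 | ⟨i0, hi0⟩
  · have : c = 0 := by funext i; simp [hc, h0]
    simp [this]
  · refine hf (f i0) c fun i hi => dif_neg fun hiR => hi (hg _ _ ?_)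
    rw [hR _ hiR, hR _ hi0]

end Pool.Agent.Lib.MP_2fb14c_an
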