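import Mathlib

-- part Pool.Agent.Lib.MP_2fb14c_an.Poly
section

/-!
Complex polynomials without roots in the open upper half plane.
-/

set_option autoImplicit false

open Polynomial Complex

namespace Pool.Agent.Lib.MP_2fb14c_an

/-- No root in the open upper half plane. -/
def NoRootH (p : ℂ[X]) : Prop := ∀ s : ℂ, 0 < s.im → p.eval s ≠ 0

theorem NoRootH.induction {P : ℂ[X] → Prop} (hC : ∀ c, P (C c))
    (hM : ∀ (r : ℂ) (q : ℂ[X]), r.im ≤ 0 → P q → P ((X - C r) * q)) :
    ∀ p, NoRootH p → P p := by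
  intro p
  induction h : p.natDegree using Nat.strong_induction_on generalizing p with
  | _ n ih =>
    intro hp
    by_cases h0 : p.natDegree = 0
    · rw [Polynomial.eq_C_of_natDegree_eq_zero h0]
      exact hC _
    · have hdeg : p.degree ≠ 0 := by
        intro hd
        exact h0 (Polynomial.natDegree_eq_zero_iff_degree_le_zero.2 hd.le)
      obtain ⟨r, hr⟩ := IsAlgClosed.exists_root p hdeg
      obtain ⟨q, hq⟩ := dvd_iff_isRoot.2 hr
      have hp0 : p ≠ 0 := by
        intro e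
        exact h0 (by rw [e]; simp)
      have hq0 : q ≠ 0 := by
        intro e
        exact hp0 (by rw [hq, e, mul_zero])
      have hd : p.natDegree = 1 + q.natDegree := by
        rw [hq, natDegree_mul (X_sub_C_ne_zero r) hq0, natDegree_X_sub_C]
      have hqr : NoRootH q := by
        intro s hs e
        apply hp s hs
        rw [hq, eval_mul, e, mul_zero]
      have hri : r.im ≤ 0 := by
        by_contra hlt
        exact hp r (not_le.1 hlt) hr
      rw [hq]
      exact hM r q hri (ih q.natDegree (by omega) q rfl hqr)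

theorem NoRootH.im_le {p : ℂ[X]} (hp : NoRootH p) {s : ℂ} (hs : 0 ≤ s.im) :
    ((starRingEnd ℂ) (p.eval s) * p.derivative.eval s).im ≤ 0 := by
  refine NoRootH.induction
    (P := fun p => ((starRingEnd ℂ) (p.eval s) * p.derivative.eval s).im ≤ 0) ?_ ?_ p hp
  · intro c
    simp
  · intro r q hr hq
    simp only [derivative_mul, derivative_X, derivative_C, sub_zero, one_mul,
      eval_add, eval_mul, eval_sub, eval_X, eval_C, map_mul, map_sub]
    set a := q.eval s
    set b := q.derivative.eval s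
    have e : (((starRingEnd ℂ) s - (starRingEnd ℂ) r) * (starRingEnd ℂ) a * (a + (s - r) * b)).im
        = -(s.im - r.im) * (a.re ^ 2 + a.im ^ 2) +
          ((s.re - r.re) ^ 2 + (s.im - r.im) ^ 2) * ((starRingEnd ℂ) a * b).im := by
      simp
      ring
    rw [e]
    have h1 : 0 ≤ (s.im - r.im) * (a.re ^ 2 + a.im ^ 2) :=
      mul_nonneg (by linarith) (by positivity)
    have h2 : ((s.re - r.re) ^ 2 + (s.im - r.im) ^ 2) * ((starRingEnd ℂ) a * b).im ≤ 0 :=
      mul_nonpos_of_nonneg_of_nonpos (by positivity) hq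
    linarith

theorem NoRootH.normSq_le {p : ℂ[X]} (hp : NoRootH p) {s s' : ℂ} (h1 : s'.re = s.re)
    (h2 : |s'.im| ≤ s.im) : normSq (p.eval s') ≤ normSq (p.eval s) := by
  refine NoRootH.induction
    (P := fun p => normSq (p.eval s') ≤ normSq (p.eval s)) ?_ ?_ p hp
  · intro c
    simp
  · intro r q hr hq
    simp only [eval_mul, eval_sub, eval_X, eval_C, map_mul]
    apply mul_le_mul _ hq (normSq_nonneg _) (normSq_nonneg _)
    rw [normSq_apply, normSq_apply]
    simp only [sub_re, sub_im, h1]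
    have := abs_le.1 h2
    nlinarith

/-- A cubic given by its coefficients. -/
def cub {R : Type*} [CommRing R] (a0 a1 a2 a3 s : R) : R := a0 + a1 * s + a2 * s ^ 2 + a3 * s ^ 3

/-- The derivative of the cubic. -/
def dcub {R : Type*} [CommRing R] (a1 a2 a3 s : R) : R := a1 + 2 * a2 * s + 3 * a3 * s ^ 2

/-- The cubic has no root in the upper half plane. -/
def CubH (a0 a1 a2 a3 : ℂ) : Prop := ∀ s : ℂ, 0 < s.im → cub a0 a1 a2 a3 s ≠ 0

/-- The cubic as a polynomial. -/
noncomputable def cubP (a0 a1 a2 a3 : ℂ) : ℂ[X] :=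
  C a0 + C a1 * X + C a2 * X ^ 2 + C a3 * X ^ 3

theorem cubP_eval (a0 a1 a2 a3 s : ℂ) : (cubP a0 a1 a2 a3).eval s = cub a0 a1 a2 a3 s := by
  simp [cubP, cub]

theorem cubP_deriv (a0 a1 a2 a3 s : ℂ) :
    (cubP a0 a1 a2 a3).derivative.eval s = dcub a1 a2 a3 s := by
  simp [cubP, dcub]
  ring

theorem CubH.noRoot {a0 a1 a2 a3 : ℂ} (h : CubH a0 a1 a2 a3) : NoRootH (cubP a0 a1 a2 a3) := by
  intro s hs
  rw [cubP_eval]
  exact h s hs

theorem CubH.im_le {a0 a1 a2 a3 : ℂ} (h : CubH a0 a1 a2 a3) {s : ℂ} (hs : 0 ≤ s.im) :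
    ((starRingEnd ℂ) (cub a0 a1 a2 a3 s) * dcub a1 a2 a3 s).im ≤ 0 := by
  have := h.noRoot.im_le hs
  rwa [cubP_eval, cubP_deriv] at this

theorem CubH.normSq_le {a0 a1 a2 a3 : ℂ} (h : CubH a0 a1 a2 a3) {s s' : ℂ} (h1 : s'.re = s.re)
    (h2 : |s'.im| ≤ s.im) : normSq (cub a0 a1 a2 a3 s') ≤ normSq (cub a0 a1 a2 a3 s) := by
  have := h.noRoot.normSq_le h1 h2
  rwa [cubP_eval, cubP_eval] at this

/-- `x * p + y * p'` has no root in the upper half plane when `y / x` lies in it. -/
theorem CubH.comb {a0 a1 a2 a3 : ℂ} (h : CubH a0 a1 a2 a3) {x y : ℂ}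
    (hxy : 0 < ((starRingEnd ℂ) x * y).im) :
    CubH (x * a0 + y * a1) (x * a1 + 2 * y * a2) (x * a2 + 3 * y * a3) (x * a3) := by
  intro s hs e
  have e' : x * cub a0 a1 a2 a3 s + y * dcub a1 a2 a3 s = 0 := by
    rw [← e]
    simp only [cub, dcub]
    ring
  have h1 := h.im_le hs.le
  have h2 := h s hs
  set p := cub a0 a1 a2 a3 s
  set q := dcub a1 a2 a3 s
  have h3 : 0 < normSq p := normSq_pos.2 h2
  have e2 : (starRingEnd ℂ) y * (starRingEnd ℂ) p * (x * p + y * q) = 0 := by rw [e', mul_zero]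
  have e3 := congrArg Complex.im e2
  have e4 : ((starRingEnd ℂ) y * (starRingEnd ℂ) p * (x * p + y * q)).im =
      -((starRingEnd ℂ) x * y).im * normSq p + normSq y * ((starRingEnd ℂ) p * q).im := by
    simp [normSq_apply]
    ring
  rw [e4] at e3
  have h4 : normSq y * ((starRingEnd ℂ) p * q).im ≤ 0 :=
    mul_nonpos_of_nonneg_of_nonpos (normSq_nonneg _) h1
  have h5 := mul_pos hxy h3
  simp only [zero_im] at e3
  linarith

/-- A real cubic whose modulus grows with the imaginary part has only real roots. -/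
theorem real_roots {S0 S1 S2 S3 : ℝ} (h0 : S0 ≠ 0)
    (h : ∀ s s' : ℂ, s'.re = s.re → |s'.im| ≤ s.im →
      normSq (cub (S0 : ℂ) S1 S2 S3 s') ≤ normSq (cub (S0 : ℂ) S1 S2 S3 s)) :
    ∃ u1 u2 u3 : ℝ, S1 = S0 * (u1 + u2 + u3) ∧ S2 = S0 * (u1 * u2 + u1 * u3 + u2 * u3) ∧
      S3 = S0 * (u1 * u2 * u3) := by
  have hH : CubH S0 S1 S2 S3 := by
    intro s hs e
    have hz : cubP S0 S1 S2 S3 = 0 := by
      apply Polynomial.eq_zero_of_infinite_isRoot
      have hinj : Function.Injective (fun t : ℝ => (s.re : ℂ) + t * I) := by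
        intro a b hab
        simpa using congrArg Complex.im hab
      refine Set.Infinite.mono ?_ ((Set.Icc_infinite hs).image hinj.injOn)
      rintro _ ⟨t, ht, rfl⟩
      have := h s ((s.re : ℂ) + t * I) (by simp) (by
        simp only [add_im, ofReal_im, mul_im, ofReal_re, I_im, mul_one, I_re, mul_zero, add_zero,
          zero_add]
        rw [abs_of_nonneg ht.1]
        exact ht.2)
      rw [e, map_zero] at this
      have h2 := le_antisymm this (normSq_nonneg _)
      simp only [Set.mem_ofPred_eq, IsRoot.def, cubP_eval]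
      exact normSq_eq_zero.1 h2
    have := cubP_eval S0 S1 S2 S3 0
    rw [hz] at this
    simp [cub] at this
    exact h0 (by exact_mod_cast this.symm)
  have h0' : (S0 : ℂ) ≠ 0 := by exact_mod_cast h0
  have hreal : ∀ z : ℂ, S0 * z ^ 3 + S1 * z ^ 2 + S2 * z + S3 = 0 → z.im = 0 := by
    have aux : ∀ z : ℂ, S0 * z ^ 3 + S1 * z ^ 2 + S2 * z + S3 = 0 → ¬ z.im < 0 := by
      intro z hz hlt
      have hz0 : z ≠ 0 := by
        intro e
        rw [e] at hlt
        simp at hlt
      apply hH z⁻¹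
      · rw [inv_im]
        exact div_pos (by linarith) (normSq_pos.2 hz0)
      · have : cub (S0 : ℂ) S1 S2 S3 z⁻¹ = (S0 * z ^ 3 + S1 * z ^ 2 + S2 * z + S3) * z⁻¹ ^ 3 := by
          simp only [cub]
          field_simp
        rw [this, hz, zero_mul]
    intro z hz
    have h1 := aux z hz
    have h2 := aux ((starRingEnd ℂ) z) (by
      have := congrArg (starRingEnd ℂ) hz
      simpa using this)
    rw [conj_im] at h2
    linarith [not_lt.1 h1, not_lt.1 h2]
  obtain ⟨z1, hz1⟩ := IsAlgClosed.exists_root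
    (C (S0 : ℂ) * X ^ 3 + C (S1 : ℂ) * X ^ 2 + C (S2 : ℂ) * X + C (S3 : ℂ)) (by
      rw [Polynomial.degree_cubic h0']
      norm_num)
  have hz1' : S0 * z1 ^ 3 + S1 * z1 ^ 2 + S2 * z1 + S3 = 0 := by simpa using hz1
  obtain ⟨w, hw⟩ := IsAlgClosed.exists_eq_mul_self
    ((S1 / S0 + z1) ^ 2 - 4 * (S2 / S0 + z1 * (S1 / S0 + z1)) : ℂ)
  set z2 : ℂ := (-(S1 / S0 + z1) + w) / 2 with hz2
  set z3 : ℂ := (-(S1 / S0 + z1) - w) / 2 with hz3
  have s1 : (S1 : ℂ) = S0 * (-z1 - z2 - z3) := by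
    rw [hz2, hz3]
    field_simp
    ring
  have p23 : z2 * z3 = S2 / S0 + z1 * (S1 / S0 + z1) := by
    rw [hz2, hz3]
    linear_combination (1 / 4 : ℂ) * hw
  have s23 : z2 + z3 = -(S1 / S0 + z1) := by
    rw [hz2, hz3]
    ring
  have s2 : (S2 : ℂ) = S0 * (z1 * z2 + z1 * z3 + z2 * z3) := by
    have : z1 * z2 + z1 * z3 + z2 * z3 = S2 / S0 := by
      linear_combination p23 + z1 * s23
    rw [this]
    field_simp
  have s3 : (S3 : ℂ) = S0 * (-(z1 * z2 * z3)) := by
    linear_combination hz1' - z1 ^ 2 * s1 - z1 * s2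
  have r1 := hreal z1 hz1'
  have r2 := hreal z2 (by rw [s1, s2, s3]; ring)
  have r3 := hreal z3 (by rw [s1, s2, s3]; ring)
  have q1 : z1 = (z1.re : ℂ) := by apply Complex.ext <;> simp [r1]
  have q2 : z2 = (z2.re : ℂ) := by apply Complex.ext <;> simp [r2]
  have q3 : z3 = (z3.re : ℂ) := by apply Complex.ext <;> simp [r3]
  refine ⟨-z1.re, -z2.re, -z3.re, ?_, ?_, ?_⟩
  · apply Complex.ofReal_injective
    push_cast
    rw [← q1, ← q2, ← q3, s1]
    ring
  · apply Complex.ofReal_injective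
    push_cast
    rw [← q1, ← q2, ← q3, s2]
    ring
  · apply Complex.ofReal_injective
    push_cast
    rw [← q1, ← q2, ← q3, s3]
    ring

end Pool.Agent.Lib.MP_2fb14c_an
end

-- part Pool.Agent.Lib.MP_2fb14c_an.Stable
section

/-!
A multilinear partition function on states of three copies and its stability properties.
-/

set_option autoImplicit false
set_option linter.unusedSectionVars false

open Complex Finset Function

namespace Pool.Agent.Lib.MP_2fb14c_an

/-- Which of the three copies contain a given element. -/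
abbrev Bt := Fin 3 → Bool

/-- Number of copies. -/
def cnt (b : Bt) : ℕ := (if b 0 then 1 else 0) + (if b 1 then 1 else 0) + (if b 2 then 1 else 0)

section Ring

variable {R : Type*} [CommRing R]

/-- Product state. -/
def prodSt (α β : Fin 3 → R) : Bt → R := fun b => ∏ k, if b k then β k else α k

/-- The element is used by exactly `n` copies. -/
def E (R : Type*) [CommRing R] (n : ℕ) : Bt → R := fun b => if cnt b = n then 1 else 0

/-- Fugacity `s`. -/
def nu (s : R) : Bt → R := prodSt (fun _ => 1) (fun _ => s)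

/-- The element is used by copy `k` only. -/
def dl (R : Type*) [CommRing R] (k : Fin 3) : Bt → R :=
  prodSt (fun l => if l = k then 0 else 1) (fun l => if l = k then 1 else 0)

/-- Symmetric state. -/
def st (c0 c1 c2 c3 : R) : Bt → R := c0 • E R 0 + c1 • E R 1 + c2 • E R 2 + c3 • E R 3

theorem nu_eq (s : R) : nu s = st 1 s (s ^ 2) (s ^ 3) := by
  funext b
  simp only [nu, prodSt, st, E, cnt, Fin.prod_univ_three, Pi.add_apply, Pi.smul_apply,
    smul_eq_mul]
  by_cases h0 : b 0 = true <;> by_cases h1 : b 1 = true <;> by_cases h2 : b 2 = true <;>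
    simp [h0, h1, h2] <;> ring

theorem nu_zero : nu (0 : R) = E R 0 := by
  rw [nu_eq]
  simp [st]

theorem E_one_eq : E R 1 = dl R 0 + dl R 1 + dl R 2 := by
  funext b
  simp only [dl, prodSt, E, cnt, Fin.prod_univ_three, Pi.add_apply]
  by_cases h0 : b 0 = true <;> by_cases h1 : b 1 = true <;> by_cases h2 : b 2 = true <;>
    simp [h0, h1, h2]

variable {ι : Type*} [Fintype ι] [DecidableEq ι]

/-- The partition function. -/
def Z (C : (ι → Bt) → R) (a : ι → Bt → R) : R := ∑ n : ι → Bt, (∏ l, a l (n l)) * C n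

theorem Z_update (C : (ι → Bt) → R) (a : ι → Bt → R) (i : ι) (x : Bt → R) :
    Z C (update a i x) = ∑ n : ι → Bt, x (n i) * ((∏ l ∈ univ.erase i, a l (n l)) * C n) := by
  unfold Z
  apply sum_congr rfl
  intro n _
  rw [← mul_prod_erase univ _ (mem_univ i), update_self, mul_assoc]
  congr 2
  apply prod_congr rfl
  intro l hl
  rw [update_of_ne (ne_of_mem_erase hl)]

/-- The partition function as a linear function of one state. -/
def Zl (C : (ι → Bt) → R) (a : ι → Bt → R) (i : ι) : (Bt → R) →ₗ[R] R where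
  toFun x := Z C (update a i x)
  map_add' x y := by
    simp only [Z_update, Pi.add_apply, add_mul, sum_add_distrib]
  map_smul' c x := by
    simp only [Z_update, Pi.smul_apply, smul_eq_mul, RingHom.id_apply, mul_sum, mul_assoc]

theorem Zl_apply (C : (ι → Bt) → R) (a : ι → Bt → R) (i : ι) (x : Bt → R) :
    Z C (update a i x) = Zl C a i x := rfl

theorem Z_add (C : (ι → Bt) → R) (a : ι → Bt → R) (i : ι) (x y : Bt → R) :
    Z C (update a i (x + y)) = Z C (update a i x) + Z C (update a i y) :=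
  (Zl C a i).map_add x y

theorem Z_smul (C : (ι → Bt) → R) (a : ι → Bt → R) (i : ι) (c : R) (x : Bt → R) :
    Z C (update a i (c • x)) = c * Z C (update a i x) :=
  (Zl C a i).map_smul c x

theorem Z_st (C : (ι → Bt) → R) (a : ι → Bt → R) (i : ι) (c0 c1 c2 c3 : R) :
    Z C (update a i (st c0 c1 c2 c3)) =
      c0 * Z C (update a i (E R 0)) + c1 * Z C (update a i (E R 1)) +
        c2 * Z C (update a i (E R 2)) + c3 * Z C (update a i (E R 3)) := by
  simp only [st, Z_add, Z_smul]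

theorem Z_nu (C : (ι → Bt) → R) (a : ι → Bt → R) (i : ι) (s : R) :
    Z C (update a i (nu s)) = cub (Z C (update a i (E R 0))) (Z C (update a i (E R 1)))
      (Z C (update a i (E R 2))) (Z C (update a i (E R 3))) s := by
  rw [nu_eq, Z_st, cub]
  ring

end Ring

/-- Upper states. -/
def U : Set (Bt → ℂ) :=
  {a | ∀ φ : (Bt → ℂ) →ₗ[ℂ] ℂ,
    (∀ y : Fin 3 → ℂ, (∀ k, 0 < (y k).im) → φ (prodSt (fun _ => 1) y) ≠ 0) → φ a ≠ 0}

theorem prodSt_mem_U {α β : Fin 3 → ℂ} (h : ∀ k, 0 < ((starRingEnd ℂ) (α k) * β k).im) :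
    prodSt α β ∈ U := by
  have h0 : ∀ k, α k ≠ 0 := by
    intro k e
    have := h k
    rw [e] at this
    simp at this
  intro φ hφ
  have e : prodSt α β = (∏ k, α k) • prodSt (fun _ => 1) (fun k => β k / α k) := by
    funext b
    simp only [prodSt, Pi.smul_apply, smul_eq_mul, ← prod_mul_distrib]
    apply prod_congr rfl
    intro k _
    have := h0 k
    split_ifs
    · field_simp
    · simp
  rw [e, map_smul, smul_eq_mul]
  apply mul_ne_zero (prod_ne_zero_iff.2 fun k _ => h0 k)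
  apply hφ
  intro k
  have e2 : β k / α k = ((starRingEnd ℂ) (α k) * β k) / (normSq (α k) : ℂ) := by
    rw [normSq_eq_conj_mul_self]
    have h1 := h0 k
    have h2 : (starRingEnd ℂ) (α k) ≠ 0 := by simpa using h1
    field_simp
  rw [e2, div_ofReal_im]
  exact div_pos (h k) (normSq_pos.2 (h0 k))

theorem nu_mem_U {s : ℂ} (hs : 0 < s.im) : nu s ∈ U :=
  prodSt_mem_U (fun _ => by simpa using hs)

theorem map_st (φ : (Bt → ℂ) →ₗ[ℂ] ℂ) (c0 c1 c2 c3 : ℂ) :
    φ (st c0 c1 c2 c3) = c0 * φ (E ℂ 0) + c1 * φ (E ℂ 1) + c2 * φ (E ℂ 2) + c3 * φ (E ℂ 3) := by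
  simp [st]

theorem cubH_of (φ : (Bt → ℂ) →ₗ[ℂ] ℂ)
    (hφ : ∀ y : Fin 3 → ℂ, (∀ k, 0 < (y k).im) → φ (prodSt (fun _ => 1) y) ≠ 0) :
    CubH (φ (E ℂ 0)) (φ (E ℂ 1)) (φ (E ℂ 2)) (φ (E ℂ 3)) := by
  intro s hs
  have := hφ (fun _ => s) (fun _ => hs)
  rw [show prodSt (fun _ => (1 : ℂ)) (fun _ => s) = nu s from rfl, nu_eq, map_st] at this
  intro e
  apply this
  rw [← e, cub]
  ring

theorem comb1_mem_U {x y s : ℂ} (hxy : 0 < ((starRingEnd ℂ) x * y).im) (hs : 0 < s.im) :
    st x (x * s + y) (x * s ^ 2 + 2 * y * s) (x * s ^ 3 + 3 * y * s ^ 2) ∈ U := by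
  intro φ hφ e
  apply ((cubH_of φ hφ).comb hxy) s hs
  rw [map_st] at e
  rw [← e, cub]
  ring

theorem comb2_mem_U {x y x' y' s : ℂ} (hxy : 0 < ((starRingEnd ℂ) x * y).im)
    (hxy' : 0 < ((starRingEnd ℂ) x' * y').im) (hs : 0 < s.im) :
    st (x' * x) (x' * y + y' * x + x' * x * s)
      (2 * y * y' + (2 * x' * y + 2 * y' * x) * s + x' * x * s ^ 2)
      (6 * y * y' * s + (3 * x' * y + 3 * y' * x) * s ^ 2 + x' * x * s ^ 3) ∈ U := by
  intro φ hφ e
  apply (((cubH_of φ hφ).comb hxy).comb hxy') s hs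
  rw [map_st] at e
  rw [← e, cub]
  ring

theorem mem_closure_of_path (γ : ℝ → Bt → ℂ) (hc : Continuous γ) (h : ∀ t, 0 < t → γ t ∈ U) :
    γ 0 ∈ closure U := by
  apply mem_closure_of_tendsto (f := γ) (b := nhdsWithin 0 (Set.Ioi 0))
  · exact hc.continuousWithinAt
  · filter_upwards [self_mem_nhdsWithin] with t ht using h t ht

theorem continuous_prodSt {α β : ℝ → Fin 3 → ℂ} (ha : ∀ k, Continuous fun t => α t k)
    (hb : ∀ k, Continuous fun t => β t k) : Continuous fun t => prodSt (α t) (β t) := by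
  apply continuous_pi
  intro b
  unfold prodSt
  apply continuous_finsetProd
  intro k _
  split_ifs
  · exact hb k
  · exact ha k

theorem continuous_st {a b c d : ℝ → ℂ} (ha : Continuous a) (hb : Continuous b)
    (hc : Continuous c) (hd : Continuous d) : Continuous fun t => st (a t) (b t) (c t) (d t) := by
  unfold st
  fun_prop

/-- Complexification of a real state. -/
def cx (a : Bt → ℝ) : Bt → ℂ := fun b => a b

/-- Admissible real state. -/
def Adm (a : Bt → ℝ) : Prop := cx a ∈ closure U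

/-- Admissible real line of states. -/
def AdmL (a a' : Bt → ℝ) : Prop := cx a + I • cx a' ∈ closure U

theorem cx_E (n : ℕ) : cx (E ℝ n) = E ℂ n := by
  funext b
  simp only [cx, E]
  split_ifs <;> simp

theorem cx_prodSt (α β : Fin 3 → ℝ) :
    cx (prodSt α β) = prodSt (fun k => (α k : ℂ)) (fun k => (β k : ℂ)) := by
  funext b
  simp only [cx, prodSt, ofReal_prod]
  apply prod_congr rfl
  intro k _
  split_ifs <;> rfl

theorem adm_nu (s : ℝ) : Adm (nu s) := by
  have := mem_closure_of_path (fun t => prodSt (fun _ => 1) (fun _ => (s : ℂ) + t * I))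
    (continuous_prodSt (fun _ => continuous_const) (fun _ => by fun_prop))
    (fun t ht => nu_mem_U (by simpa using ht))
  unfold Adm nu
  rw [cx_prodSt]
  simpa using this

theorem adm_E0 : Adm (E ℝ 0) := by
  rw [← nu_zero]
  exact adm_nu 0

theorem adm_E1 : Adm (E ℝ 1) := by
  have := mem_closure_of_path (fun t => st (-(t * I)) (-(t * I) * (t * I) + 1)
      (-(t * I) * (t * I) ^ 2 + 2 * 1 * (t * I)) (-(t * I) * (t * I) ^ 3 + 3 * 1 * (t * I) ^ 2))
    (continuous_st (by fun_prop) (by fun_prop) (by fun_prop) (by fun_prop))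
    (fun t ht => comb1_mem_U (by simpa using ht) (by simpa using ht))
  unfold Adm
  rw [cx_E]
  simpa [st] using this

theorem admL_E01 : AdmL (E ℝ 0) (E ℝ 1) := by
  have := mem_closure_of_path (fun t => st 1 (1 * (t * I) + I)
      (1 * (t * I) ^ 2 + 2 * I * (t * I)) (1 * (t * I) ^ 3 + 3 * I * (t * I) ^ 2))
    (continuous_st (by fun_prop) (by fun_prop) (by fun_prop) (by fun_prop))
    (fun t ht => comb1_mem_U (by simp) (by simpa using ht))
  unfold AdmL
  rw [cx_E, cx_E]
  simpa [st] using this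

theorem admL_E12 : AdmL (E ℝ 1) (E ℝ 2) := by
  have := mem_closure_of_path (fun t => st (1 * -(t * I))
      (1 * 1 + (I / 2) * -(t * I) + 1 * -(t * I) * (t * I))
      (2 * 1 * (I / 2) + (2 * 1 * 1 + 2 * (I / 2) * -(t * I)) * (t * I) +
        1 * -(t * I) * (t * I) ^ 2)
      (6 * 1 * (I / 2) * (t * I) + (3 * 1 * 1 + 3 * (I / 2) * -(t * I)) * (t * I) ^ 2 +
        1 * -(t * I) * (t * I) ^ 3))
    (continuous_st (by fun_prop) (by fun_prop) (by fun_prop) (by fun_prop))
    (fun t ht => comb2_mem_U (by simpa using ht) (by simp) (by simpa using ht))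
  unfold AdmL
  rw [cx_E, cx_E]
  have e : (2 : ℂ) * (I / 2) = I := by ring
  simpa [st, e] using this

theorem adm_dl (k : Fin 3) : Adm (dl ℝ k) := by
  have := mem_closure_of_path (fun t => prodSt (fun l => if l = k then -(t * I) else 1)
      (fun l => if l = k then 1 else t * I))
    (continuous_prodSt (fun l => by split_ifs <;> fun_prop) (fun l => by split_ifs <;> fun_prop))
    (fun t ht => prodSt_mem_U (fun l => by split_ifs <;> simpa using ht))
  unfold Adm dl
  rw [cx_prodSt]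
  convert this using 3 with l l <;> split_ifs <;> simp

theorem admL_dl (k : Fin 3) : AdmL (E ℝ 0) (dl ℝ k) := by
  have := mem_closure_of_path (fun t => prodSt (fun _ => 1)
      (fun l => if l = k then I else t * I))
    (continuous_prodSt (fun l => continuous_const) (fun l => by split_ifs <;> fun_prop))
    (fun t ht => prodSt_mem_U (fun l => by split_ifs <;> simp [ht]))
  unfold AdmL dl
  rw [cx_prodSt, cx_E]
  convert this using 1
  funext b
  simp only [prodSt, E, cnt, Fin.prod_univ_three, Pi.add_apply, Pi.smul_apply, smul_eq_mul]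
  fin_cases k <;> by_cases h0 : b 0 = true <;> by_cases h1 : b 1 = true <;>
    by_cases h2 : b 2 = true <;> simp [h0, h1, h2]

variable {ι : Type*} [Fintype ι] [DecidableEq ι]

/-- Stability of the coefficient family. -/
def Stab (C : (ι → Bt) → ℝ) : Prop :=
  ∀ y : ι → Fin 3 → ℂ, (∀ l k, 0 < (y l k).im) →
    Z (fun n => (C n : ℂ)) (fun l => prodSt (fun _ => 1) (y l)) ≠ 0

theorem Z_ne_zero {C : (ι → Bt) → ℝ} (hC : Stab C) {c : ι → Bt → ℂ} (hc : ∀ l, c l ∈ U) :
    Z (fun n => (C n : ℂ)) c ≠ 0 := by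
  have key : ∀ S : Finset ι, ∀ y : ι → Fin 3 → ℂ, (∀ l k, 0 < (y l k).im) →
      Z (fun n => (C n : ℂ)) (fun l => if l ∈ S then c l else prodSt (fun _ => 1) (y l)) ≠ 0 := by
    intro S
    induction S using Finset.induction_on with
    | empty => intro y hy; simpa using hC y hy
    | insert i S hi ih =>
      intro y hy
      have e : (fun l => if l ∈ insert i S then c l else prodSt (fun _ => 1) (y l)) =
          update (fun l => if l ∈ S then c l else prodSt (fun _ => 1) (y l)) i (c i) := by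
        funext l
        by_cases h : l = i
        · subst h; simp
        · simp [h]
      rw [e, Zl_apply]
      apply hc i
      intro y' hy'
      have e2 : update (fun l => if l ∈ S then c l else prodSt (fun _ => 1) (y l)) i
          (prodSt (fun _ => 1) y') =
          (fun l => if l ∈ S then c l else prodSt (fun _ => 1) (update y i y' l)) := by
        funext l
        by_cases h : l = i
        · subst h; simp [hi]
        · simp [h]
      rw [← Zl_apply, e2]
      apply ih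
      intro l k
      by_cases h : l = i
      · subst h; simpa using hy' k
      · simpa [h] using hy l k
  simpa using key univ (fun _ _ => I) (fun _ _ => by simp)

theorem continuous_Z_update (C : (ι → Bt) → ℂ) (i : ι) (x : Bt → ℂ) :
    Continuous fun c : ι → Bt → ℂ => Z C (update c i x) := by
  simp only [Z_update]
  fun_prop

theorem closure_ind {P : (ι → Bt → ℂ) → Prop} (hP : IsClosed {c | P c})
    (h : ∀ c, (∀ l, c l ∈ U) → P c) {c : ι → Bt → ℂ} (hc : ∀ l, c l ∈ closure U) : P c := by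
  have h1 : c ∈ closure (Set.pi Set.univ fun _ : ι => U) := by
    rw [closure_pi_set]
    exact fun l _ => hc l
  have h2 : (Set.pi Set.univ fun _ : ι => U) ⊆ {c | P c} := fun c hc => h c fun l => hc l trivial
  exact (hP.closure_subset_iff.2 h2) h1

theorem cubH_Z {C : (ι → Bt) → ℝ} (hC : Stab C) {c : ι → Bt → ℂ} (hc : ∀ l, c l ∈ U) (i : ι) :
    CubH (Z (fun n => (C n : ℂ)) (update c i (E ℂ 0))) (Z (fun n => (C n : ℂ)) (update c i (E ℂ 1)))
      (Z (fun n => (C n : ℂ)) (update c i (E ℂ 2)))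
      (Z (fun n => (C n : ℂ)) (update c i (E ℂ 3))) := by
  intro s hs
  rw [← Z_nu]
  apply Z_ne_zero hC
  intro l
  by_cases h : l = i
  · subst h; simpa using nu_mem_U hs
  · simpa [h] using hc l

theorem closure_update {c : ι → Bt → ℂ} {i : ι} (hc : ∀ l, l ≠ i → c l ∈ closure U) :
    ∀ l, update c i (nu I) l ∈ closure U := by
  intro l
  by_cases h : l = i
  · subst h; simpa using subset_closure (nu_mem_U (by simp))
  · simpa [h] using hc l h

theorem im_le_Z {C : (ι → Bt) → ℝ} (hC : Stab C) {c : ι → Bt → ℂ} {i : ι}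
    (hc : ∀ l, l ≠ i → c l ∈ closure U) {s : ℂ} (hs : 0 ≤ s.im) :
    ((starRingEnd ℂ) (cub (Z (fun n => (C n : ℂ)) (update c i (E ℂ 0)))
      (Z (fun n => (C n : ℂ)) (update c i (E ℂ 1))) (Z (fun n => (C n : ℂ)) (update c i (E ℂ 2)))
      (Z (fun n => (C n : ℂ)) (update c i (E ℂ 3))) s) *
      dcub (Z (fun n => (C n : ℂ)) (update c i (E ℂ 1)))
      (Z (fun n => (C n : ℂ)) (update c i (E ℂ 2)))
      (Z (fun n => (C n : ℂ)) (update c i (E ℂ 3))) s).im ≤ 0 := by
  have := closure_ind (P := fun c =>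
    ((starRingEnd ℂ) (cub (Z (fun n => (C n : ℂ)) (update c i (E ℂ 0)))
      (Z (fun n => (C n : ℂ)) (update c i (E ℂ 1))) (Z (fun n => (C n : ℂ)) (update c i (E ℂ 2)))
      (Z (fun n => (C n : ℂ)) (update c i (E ℂ 3))) s) *
      dcub (Z (fun n => (C n : ℂ)) (update c i (E ℂ 1)))
      (Z (fun n => (C n : ℂ)) (update c i (E ℂ 2)))
      (Z (fun n => (C n : ℂ)) (update c i (E ℂ 3))) s).im ≤ 0) ?_
      (fun c hc => (cubH_Z hC hc i).im_le hs) (closure_update hc)
  · simpa using this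
  · have h := fun x => continuous_Z_update (fun n => (C n : ℂ)) i x
    apply isClosed_le _ continuous_const
    unfold cub dcub
    fun_prop

theorem normSq_le_Z {C : (ι → Bt) → ℝ} (hC : Stab C) {c : ι → Bt → ℂ} {i : ι}
    (hc : ∀ l, l ≠ i → c l ∈ closure U) {s s' : ℂ} (h1 : s'.re = s.re) (h2 : |s'.im| ≤ s.im) :
    normSq (cub (Z (fun n => (C n : ℂ)) (update c i (E ℂ 0)))
      (Z (fun n => (C n : ℂ)) (update c i (E ℂ 1))) (Z (fun n => (C n : ℂ)) (update c i (E ℂ 2)))
      (Z (fun n => (C n : ℂ)) (update c i (E ℂ 3))) s') ≤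
    normSq (cub (Z (fun n => (C n : ℂ)) (update c i (E ℂ 0)))
      (Z (fun n => (C n : ℂ)) (update c i (E ℂ 1))) (Z (fun n => (C n : ℂ)) (update c i (E ℂ 2)))
      (Z (fun n => (C n : ℂ)) (update c i (E ℂ 3))) s) := by
  have := closure_ind (P := fun c =>
    normSq (cub (Z (fun n => (C n : ℂ)) (update c i (E ℂ 0)))
      (Z (fun n => (C n : ℂ)) (update c i (E ℂ 1))) (Z (fun n => (C n : ℂ)) (update c i (E ℂ 2)))
      (Z (fun n => (C n : ℂ)) (update c i (E ℂ 3))) s') ≤
    normSq (cub (Z (fun n => (C n : ℂ)) (update c i (E ℂ 0)))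
      (Z (fun n => (C n : ℂ)) (update c i (E ℂ 1))) (Z (fun n => (C n : ℂ)) (update c i (E ℂ 2)))
      (Z (fun n => (C n : ℂ)) (update c i (E ℂ 3))) s)) ?_
      (fun c hc => (cubH_Z hC hc i).normSq_le h1 h2) (closure_update hc)
  · simpa using this
  · have h := fun x => continuous_Z_update (fun n => (C n : ℂ)) i x
    apply isClosed_le
    · unfold cub
      fun_prop
    · unfold cub
      fun_prop

end Pool.Agent.Lib.MP_2fb14c_an
end

-- part Pool.Agent.Lib.MP_2fb14c_an.Real
section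

/-!
Real consequences of stability: Wronskian inequality, Pick inequality and real roots.
-/

set_option autoImplicit false
set_option linter.unusedSectionVars false

open Complex Finset Function

namespace Pool.Agent.Lib.MP_2fb14c_an

variable {ι : Type*} [Fintype ι] [DecidableEq ι]

theorem Z_cx (C : (ι → Bt) → ℝ) (a : ι → Bt → ℝ) :
    Z (fun n => (C n : ℂ)) (fun l => cx (a l)) = (Z C a : ℝ) := by
  simp [Z, cx]

theorem cx_update (a : ι → Bt → ℝ) (i : ι) (x : Bt → ℝ) :
    (fun l => cx (update a i x l)) = update (fun l => cx (a l)) i (cx x) := by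
  funext l
  by_cases h : l = i
  · subst h; simp
  · simp [h]

/-- Coefficients of the cavity cubic at `i`. -/
noncomputable def S (C : (ι → Bt) → ℝ) (c : ι → Bt → ℝ) (i : ι) (n : ℕ) : ℝ :=
  Z C (update c i (E ℝ n))

/-- Value of the cavity cubic. -/
noncomputable def Sv (C : (ι → Bt) → ℝ) (c : ι → Bt → ℝ) (i : ι) (s : ℝ) : ℝ :=
  cub (S C c i 0) (S C c i 1) (S C c i 2) (S C c i 3) s

/-- Derivative of the cavity cubic. -/
noncomputable def Sd (C : (ι → Bt) → ℝ) (c : ι → Bt → ℝ) (i : ι) (s : ℝ) : ℝ :=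
  dcub (S C c i 1) (S C c i 2) (S C c i 3) s

theorem Z_nu_eq (C : (ι → Bt) → ℝ) (c : ι → Bt → ℝ) (i : ι) (s : ℝ) :
    Z C (update c i (nu s)) = Sv C c i s := Z_nu C c i s

theorem S_cx (C : (ι → Bt) → ℝ) (c : ι → Bt → ℝ) (i : ι) (n : ℕ) :
    Z (fun n => (C n : ℂ)) (update (fun l => cx (c l)) i (E ℂ n)) = (S C c i n : ℝ) := by
  rw [← cx_E, ← cx_update, Z_cx, S]

theorem S_line (C : (ι → Bt) → ℝ) (c : ι → Bt → ℝ) {i j : ι} (hij : i ≠ j) (a a' : Bt → ℝ)
    (n : ℕ) :
    Z (fun n => (C n : ℂ)) (update (update (fun l => cx (c l)) j (cx a + I • cx a')) i (E ℂ n)) =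
      (S C (update c j a) i n : ℝ) + I * (S C (update c j a') i n : ℝ) := by
  rw [update_comm hij.symm, Z_add, Z_smul, update_comm hij, update_comm hij, ← cx_update,
    ← cx_update, S_cx, S_cx]

theorem line_closure {c : ι → Bt → ℝ} {i j : ι} (hc : ∀ l, l ≠ i → l ≠ j → Adm (c l))
    {a a' : Bt → ℝ} (ha : AdmL a a') :
    ∀ l, l ≠ i → update (fun l => cx (c l)) j (cx a + I • cx a') l ∈ closure U := by
  intro l hl
  by_cases h : l = j
  · subst h; rw [update_self]; exact ha
  · rw [update_of_ne h]; exact hc l hl h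

theorem wronsk {C : (ι → Bt) → ℝ} (hC : Stab C) {c : ι → Bt → ℝ} {i j : ι} (hij : i ≠ j)
    (hc : ∀ l, l ≠ i → l ≠ j → Adm (c l)) {a a' : Bt → ℝ} (ha : AdmL a a') (s : ℝ) :
    Sd C (update c j a') i s * Sv C (update c j a) i s ≤
      Sv C (update c j a') i s * Sd C (update c j a) i s := by
  have h := im_le_Z hC (line_closure hc ha) (s := (s : ℂ)) (by simp)
  simp only [S_line C c hij] at h
  unfold Sd Sv
  set P := S C (update c j a) i
  set T := S C (update c j a') i
  have e1 : cub ((P 0 : ℂ) + I * T 0) (P 1 + I * T 1) (P 2 + I * T 2) (P 3 + I * T 3) s =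
      ((cub (P 0) (P 1) (P 2) (P 3) s : ℝ) : ℂ) + I * (cub (T 0) (T 1) (T 2) (T 3) s : ℝ) := by
    simp only [cub]
    push_cast
    ring
  have e2 : dcub ((P 1 : ℂ) + I * T 1) (P 2 + I * T 2) (P 3 + I * T 3) s =
      ((dcub (P 1) (P 2) (P 3) s : ℝ) : ℂ) + I * (dcub (T 1) (T 2) (T 3) s : ℝ) := by
    simp only [dcub]
    push_cast
    ring
  rw [e1, e2] at h
  simp only [map_add, conj_ofReal, map_mul, conj_I, mul_im, add_re, ofReal_re, mul_re, neg_re,
    I_re, neg_zero, zero_mul, neg_im, I_im, ofReal_im, mul_zero, sub_self, add_zero, add_im,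
    one_mul, zero_add] at h
  linarith

theorem pick {C : (ι → Bt) → ℝ} (hC : Stab C) {c : ι → Bt → ℝ} {i j : ι} (hij : i ≠ j)
    (hc : ∀ l, l ≠ i → l ≠ j → Adm (c l)) {a a' : Bt → ℝ} (ha : AdmL a a') (s : ℂ)
    (hs : 0 ≤ s.im) :
    ((starRingEnd ℂ) (cub (S C (update c j a) i 0 : ℂ) (S C (update c j a) i 1)
        (S C (update c j a) i 2) (S C (update c j a) i 3) s) *
      cub (S C (update c j a') i 0 : ℂ) (S C (update c j a') i 1)
        (S C (update c j a') i 2) (S C (update c j a') i 3) s).im ≤ 0 := by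
  have h := normSq_le_Z hC (line_closure hc ha) (s := s) (s' := (starRingEnd ℂ) s) (by simp)
    (by simp [abs_of_nonneg hs])
  simp only [S_line C c hij] at h
  set P := S C (update c j a) i
  set T := S C (update c j a') i
  have e1 : cub ((P 0 : ℂ) + I * T 0) (P 1 + I * T 1) (P 2 + I * T 2) (P 3 + I * T 3) s =
      cub (P 0 : ℂ) (P 1) (P 2) (P 3) s + I * cub (T 0 : ℂ) (T 1) (T 2) (T 3) s := by
    simp only [cub]
    ring
  have e2 : cub ((P 0 : ℂ) + I * T 0) (P 1 + I * T 1) (P 2 + I * T 2) (P 3 + I * T 3)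
      ((starRingEnd ℂ) s) = (starRingEnd ℂ) (cub (P 0 : ℂ) (P 1) (P 2) (P 3) s) +
        I * (starRingEnd ℂ) (cub (T 0 : ℂ) (T 1) (T 2) (T 3) s) := by
    simp only [cub, map_add, map_mul, map_pow, conj_ofReal]
    ring
  rw [e1, e2] at h
  set p := cub (P 0 : ℂ) (P 1) (P 2) (P 3) s
  set q := cub (T 0 : ℂ) (T 1) (T 2) (T 3) s
  simp only [normSq_apply, add_re, conj_re, mul_re, I_re, zero_mul, I_im, conj_im, one_mul,
    add_im, mul_im, zero_add] at h ⊢
  nlinarith

theorem S_roots {C : (ι → Bt) → ℝ} (hC : Stab C) {c : ι → Bt → ℝ} {i : ι}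
    (hc : ∀ l, l ≠ i → Adm (c l)) (h0 : S C c i 0 ≠ 0) :
    ∃ u1 u2 u3 : ℝ, S C c i 1 = S C c i 0 * (u1 + u2 + u3) ∧
      S C c i 2 = S C c i 0 * (u1 * u2 + u1 * u3 + u2 * u3) ∧
      S C c i 3 = S C c i 0 * (u1 * u2 * u3) := by
  apply real_roots h0
  intro s s' h1 h2
  have := normSq_le_Z hC (c := fun l => cx (c l)) (i := i) hc h1 h2
  simpa only [S_cx] using this

/-- The ratio of the two cavity cubics decreases on an interval where the denominator is
positive. -/
theorem ratio_mono {C : (ι → Bt) → ℝ} (hC : Stab C) {c : ι → Bt → ℝ} {i j : ι} (hij : i ≠ j)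
    (hc : ∀ l, l ≠ i → l ≠ j → Adm (c l)) {a a' : Bt → ℝ} (ha : AdmL a a') {s t : ℝ}
    (hst : s ≤ t) (hpos : ∀ r ∈ Set.Icc s t, 0 < Sv C (update c j a) i r) :
    Sv C (update c j a') i t / Sv C (update c j a) i t ≤
      Sv C (update c j a') i s / Sv C (update c j a) i s := by
  have hd : ∀ (c' : ι → Bt → ℝ) (r : ℝ), HasDerivAt (Sv C c' i) (Sd C c' i r) r := by
    intro c' r
    unfold Sv Sd cub dcub
    have h1 := (hasDerivAt_id r).const_mul (S C c' i 1)
    have h2 := (hasDerivAt_pow 2 r).const_mul (S C c' i 2)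
    have h3 := (hasDerivAt_pow 3 r).const_mul (S C c' i 3)
    have := ((h1.const_add (S C c' i 0)).add h2).add h3
    refine HasDerivAt.congr_deriv this ?_
    simp
    ring
  have hq : ∀ r ∈ Set.Icc s t, HasDerivAt
      (fun r => Sv C (update c j a') i r / Sv C (update c j a) i r)
      ((Sd C (update c j a') i r * Sv C (update c j a) i r -
        Sv C (update c j a') i r * Sd C (update c j a) i r) / Sv C (update c j a) i r ^ 2) r :=
    fun r hr => (hd _ r).div (hd _ r) (hpos r hr).ne'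
  have := antitoneOn_of_deriv_nonpos (convex_Icc s t)
    (f := fun r => Sv C (update c j a') i r / Sv C (update c j a) i r)
    (fun r hr => (hq r hr).continuousAt.continuousWithinAt)
    (fun r hr => (hq r (interior_subset hr)).differentiableAt.differentiableWithinAt)
    (fun r hr => by
      rw [(hq r (interior_subset hr)).deriv]
      apply div_nonpos_of_nonpos_of_nonneg _ (sq_nonneg _)
      linarith [wronsk hC hij hc ha r])
  exact this ⟨le_rfl, hst⟩ ⟨hst, le_rfl⟩ hst

end Pool.Agent.Lib.MP_2fb14c_an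
end

-- part Pool.Agent.Lib.MP_2fb14c_an.Cubic
section

/-!
Inequalities for real rooted cubics.
-/

set_option autoImplicit false

open Complex

namespace Pool.Agent.Lib.MP_2fb14c_an

theorem lim_zero {A B C D F : ℝ}
    (h : ∀ t : ℝ, 0 < t → 0 ≤ A + B * t + C * t ^ 2 + D * t ^ 3 + F * t ^ 4) : 0 ≤ A := by
  have hc : Continuous fun t : ℝ => A + B * t + C * t ^ 2 + D * t ^ 3 + F * t ^ 4 := by fun_prop
  have h1 : Filter.Tendsto (fun t : ℝ => A + B * t + C * t ^ 2 + D * t ^ 3 + F * t ^ 4)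
      (nhdsWithin 0 (Set.Ioi 0)) (nhds A) := by
    have := (hc.tendsto 0).mono_left (nhdsWithin_le_nhds (s := Set.Ioi 0))
    simpa using this
  apply ge_of_tendsto h1
  filter_upwards [self_mem_nhdsWithin] with t ht using h t ht

theorem core {a b c k α β : ℝ} (ha : 0 < a) (hab : a ≤ b) (hbc : b ≤ c)
    (hW : ∀ t : ℝ, 0 ≤ (k * (t + a) * (t + b) + α * (t + b) + β) *
        ((t + a) * (t + b) + (t + a) * (t + c) + (t + b) * (t + c)) -
      (k * (t + a) + k * (t + b) + α) * ((t + a) * (t + b) * (t + c)))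
    (hP : a = c → β ≤ 0) : 0 ≤ α * b + β := by
  rcases hab.lt_or_eq with hab | hab
  · have h1 : 0 ≤ α * (b - a) + β := by
      have h := hW (-a)
      have e : (k * (-a + a) * (-a + b) + α * (-a + b) + β) *
        ((-a + a) * (-a + b) + (-a + a) * (-a + c) + (-a + b) * (-a + c)) -
        (k * (-a + a) + k * (-a + b) + α) * ((-a + a) * (-a + b) * (-a + c)) =
        (α * (b - a) + β) * ((b - a) * (c - a)) := by ring
      rw [e] at h
      exact nonneg_of_mul_nonneg_left h (mul_pos (by linarith) (by linarith))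
    have h2 : β ≤ 0 := by
      rcases hbc.lt_or_eq with hbc | hbc
      · have h := hW (-b)
        have e : (k * (-b + a) * (-b + b) + α * (-b + b) + β) *
          ((-b + a) * (-b + b) + (-b + a) * (-b + c) + (-b + b) * (-b + c)) -
          (k * (-b + a) + k * (-b + b) + α) * ((-b + a) * (-b + b) * (-b + c)) =
          (-β) * ((b - a) * (c - b)) := by ring
        rw [e] at h
        have := nonneg_of_mul_nonneg_left h (mul_pos (by linarith) (by linarith))
        linarith
      · subst hbc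
        have : 0 ≤ -2 * β * (b - a) := by
          apply lim_zero (B := 3 * β + k * (b - a) ^ 2 - α * (b - a)) (C := 2 * α - 2 * k * (b - a))
            (D := k) (F := 0)
          intro t ht
          have h := hW (t - b)
          apply nonneg_of_mul_nonneg_left (b := t) _ ht
          exact le_of_le_of_eq h (by ring)
        nlinarith
    have h3 : 0 ≤ α := by
      by_contra hn
      have := mul_neg_of_neg_of_pos (not_le.1 hn) (sub_pos.2 hab)
      linarith
    nlinarith
  · subst hab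
    rcases hbc.lt_or_eq with hbc | hbc
    · have h1 : 0 ≤ 2 * β * (c - a) := by
        apply lim_zero (B := 3 * β + α * (c - a)) (C := 2 * α) (D := k) (F := 0)
        intro t ht
        have h := hW (t - a)
        apply nonneg_of_mul_nonneg_left (b := t) _ ht
        exact le_of_le_of_eq h (by ring)
      have h2 : 0 ≤ -2 * β * (c - a) := by
        apply lim_zero (B := 3 * β + α * (c - a)) (C := -2 * α) (D := k) (F := 0)
        intro t ht
        have h := hW (-t - a)
        apply nonneg_of_mul_nonneg_left (b := t) _ ht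
        exact le_of_le_of_eq h (by ring)
      have h3 : β = 0 := by nlinarith
      subst h3
      have h4 : 0 ≤ α * (c - a) := by
        apply lim_zero (B := 2 * α) (C := k) (D := 0) (F := 0)
        intro t ht
        have h := hW (t - a)
        apply nonneg_of_mul_nonneg_left (b := t ^ 2) _ (by positivity)
        exact le_of_le_of_eq h (by ring)
      have h5 : 0 ≤ α := nonneg_of_mul_nonneg_left h4 (by linarith)
      positivity
    · subst hbc
      have h1 : 0 ≤ 3 * β := by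
        apply lim_zero (B := 2 * α) (C := k) (D := 0) (F := 0)
        intro t ht
        have h := hW (t - a)
        apply nonneg_of_mul_nonneg_left (b := t ^ 2) _ (by positivity)
        exact le_of_le_of_eq h (by ring)
      have h3 : β = 0 := by linarith [hP rfl]
      subst h3
      have h4 : 0 ≤ 2 * α := by
        apply lim_zero (B := k) (C := 0) (D := 0) (F := 0)
        intro t ht
        have h := hW (t - a)
        apply nonneg_of_mul_nonneg_left (b := t ^ 3) _ (by positivity)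
        exact le_of_le_of_eq h (by ring)
      have h5 : 0 ≤ α := by linarith
      positivity

/-- The cavity cubic allows the step from fugacity `1 / d` to a single use. -/
def Good (S0 S1 S2 S3 d : ℝ) : Prop :=
  0 < S0 ∧ ∃ u1 u2 u3 : ℝ, S1 = S0 * (u1 + u2 + u3) ∧ S2 = S0 * (u1 * u2 + u1 * u3 + u2 * u3) ∧
    S3 = S0 * (u1 * u2 * u3) ∧ 0 < d + u1 ∧ 0 < d + u2 ∧ 0 < d + u3 ∧
    d ≤ u2 + u3 ∧ d ≤ u1 + u3 ∧ d ≤ u1 + u2

theorem turn_sorted {S0 u1 u2 u3 T0 T1 T2 T3 d : ℝ} (h0 : 0 < S0) (hd : 0 < d)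
    (h12 : u1 ≤ u2) (h23 : u2 ≤ u3) (hu : 0 < d + u1) (hs : d ≤ u1 + u2)
    (hW : ∀ s : ℝ, dcub T1 T2 T3 s * cub S0 (S0 * (u1 + u2 + u3))
        (S0 * (u1 * u2 + u1 * u3 + u2 * u3)) (S0 * (u1 * u2 * u3)) s ≤
      cub T0 T1 T2 T3 s * dcub (S0 * (u1 + u2 + u3))
        (S0 * (u1 * u2 + u1 * u3 + u2 * u3)) (S0 * (u1 * u2 * u3)) s)
    (hP : ∀ s : ℂ, 0 ≤ s.im → ((starRingEnd ℂ) (cub (S0 : ℂ) (S0 * (u1 + u2 + u3) : ℝ)
        (S0 * (u1 * u2 + u1 * u3 + u2 * u3) : ℝ) (S0 * (u1 * u2 * u3) : ℝ) s) *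
        cub (T0 : ℂ) T1 T2 T3 s).im ≤ 0) :
    cub T0 T1 T2 T3 d⁻¹ * (S0 * (u1 + u2 + u3)) ≤ T1 * cub S0 (S0 * (u1 + u2 + u3))
        (S0 * (u1 * u2 + u1 * u3 + u2 * u3)) (S0 * (u1 * u2 * u3)) d⁻¹ := by
  set k := T0 * (u1 + u2 + u3) - T1 with hk
  set k1 := T0 * (u1 * u2 + u1 * u3 + u2 * u3) - T2 with hk1
  set k0 := T0 * (u1 * u2 * u3) - T3 with hk0
  set α := k1 - k * (u1 + u2) with hα
  set β := k0 - k * (u1 * u2) - α * u2 with hβ
  have hk' : 0 ≤ k := by
    have h := hW 0
    simp only [cub, dcub] at h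
    apply nonneg_of_mul_nonneg_left (b := S0) _ h0
    rw [hk]
    nlinarith
  have hWz : ∀ z : ℝ, z ≠ 0 → 0 ≤ (k * z ^ 2 + k1 * z + k0) *
        ((z + u1) * (z + u2) + (z + u1) * (z + u3) + (z + u2) * (z + u3)) -
      (2 * k * z + k1) * ((z + u1) * (z + u2) * (z + u3)) := by
    intro z hz
    have h := sub_nonneg.2 (hW z⁻¹)
    have h2 : 0 < z ^ 4 := by positivity
    have h3 := mul_nonneg h h2.le
    apply nonneg_of_mul_nonneg_left (b := S0) _ h0
    convert h3 using 1
    simp only [cub, dcub, hk, hk1, hk0]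
    field_simp
    ring
  have hWz' : ∀ z : ℝ, 0 ≤ (k * z ^ 2 + k1 * z + k0) *
        ((z + u1) * (z + u2) + (z + u1) * (z + u3) + (z + u2) * (z + u3)) -
      (2 * k * z + k1) * ((z + u1) * (z + u2) * (z + u3)) := by
    intro z
    by_cases hz : z = 0
    · subst hz
      have hc : Continuous fun z : ℝ => (k * z ^ 2 + k1 * z + k0) *
        ((z + u1) * (z + u2) + (z + u1) * (z + u3) + (z + u2) * (z + u3)) -
        (2 * k * z + k1) * ((z + u1) * (z + u2) * (z + u3)) := by fun_prop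
      apply ge_of_tendsto ((hc.tendsto 0).mono_left (nhdsWithin_le_nhds (s := Set.Ioi 0)))
      filter_upwards [self_mem_nhdsWithin] with t ht using hWz t (ne_of_gt ht)
    · exact hWz z hz
  have hcore : 0 ≤ α * (d + u2) + β := by
    apply core (a := d + u1) (b := d + u2) (c := d + u3) (k := k) hu (by linarith) (by linarith)
    · intro t
      convert hWz' (t + d) using 1
      rw [hβ, hα]
      ring
    · intro e
      have e1 : u1 = u2 := by linarith
      have e2 : u3 = u2 := by linarith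
      have : 0 ≤ -β := by
        apply lim_zero (B := 0) (C := k) (D := 0) (F := 0)
        intro r hr
        set z : ℂ := -(u2 : ℂ) - r * I with hz
        have hzi : z.im = -r := by simp [hz]
        have hz0 : z ≠ 0 := by
          intro e
          rw [e] at hzi
          simp at hzi
          linarith
        have hn : 0 < normSq z := normSq_pos.2 hz0
        have h := hP z⁻¹ (by
          rw [inv_im, hzi]
          exact div_nonneg (by linarith) hn.le)
        have c1 : cub (S0 : ℂ) (S0 * (u1 + u2 + u3) : ℝ)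
            (S0 * (u1 * u2 + u1 * u3 + u2 * u3) : ℝ) (S0 * (u1 * u2 * u3) : ℝ) z⁻¹ =
            S0 * (z + u2) ^ 3 * z⁻¹ ^ 3 := by
          rw [e1, e2]
          simp only [cub]
          push_cast
          field_simp
          ring
        have c2 : cub (T0 : ℂ) T1 T2 T3 z⁻¹ =
            (T0 * (z + u2) ^ 3 - (k * (z + u2) ^ 2 + α * (z + u2) + β)) * z⁻¹ ^ 3 := by
          rw [hβ, hα, hk0, hk1, hk, e1, e2]
          simp only [cub]
          push_cast
          field_simp
          ring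
        have c3 : z + u2 = -(r * I) := by rw [hz]; ring
        rw [c1, c2, c3] at h
        have c4 : (starRingEnd ℂ) (S0 * (-(r * I)) ^ 3 * z⁻¹ ^ 3) *
            ((T0 * (-(r * I)) ^ 3 - (k * (-(r * I)) ^ 2 + α * (-(r * I)) + β)) * z⁻¹ ^ 3) =
            ((S0 * T0 * r ^ 6 + S0 * α * r ^ 4 : ℝ) + (S0 * r ^ 3 * (β - k * r ^ 2) : ℝ) * I) *
              ((normSq z⁻¹ ^ 3 : ℝ) : ℂ) := by
          push_cast
          rw [normSq_eq_conj_mul_self]
          simp only [map_mul, map_pow, map_neg, conj_ofReal, conj_I]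
          have i2 : I ^ 2 = -1 := I_sq
          have i4 : I ^ 4 = 1 := I_pow_four
          have i6 : I ^ 6 = -1 := by rw [show I ^ 6 = I ^ 4 * I ^ 2 by ring, i2, i4]; ring
          have i3 : I ^ 3 = -I := by rw [show I ^ 3 = I * I ^ 2 by ring, i2]; ring
          have i5 : I ^ 5 = I := by rw [show I ^ 5 = I * I ^ 4 by ring, i4]; ring
          ring_nf
          rw [i3, i4, i5, i6]
          ring
        rw [c4] at h
        simp only [mul_im, add_re, ofReal_re, mul_re, I_re, mul_zero, ofReal_im, I_im, mul_one,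
          sub_self, add_zero, add_im, zero_add] at h
        have hn' : 0 < normSq z⁻¹ ^ 3 := pow_pos (normSq_pos.2 (inv_ne_zero hz0)) 3
        have h5 : S0 * r ^ 3 * (β - k * r ^ 2) ≤ 0 := nonpos_of_mul_nonpos_left h hn'
        have h6 : β - k * r ^ 2 ≤ 0 := by
          by_contra hlt
          have := mul_pos (mul_pos h0 (pow_pos hr 3)) (not_le.1 hlt)
          linarith
        linarith
      linarith
  have hd0 : d ≠ 0 := hd.ne'
  have key : T1 * cub S0 (S0 * (u1 + u2 + u3))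
        (S0 * (u1 * u2 + u1 * u3 + u2 * u3)) (S0 * (u1 * u2 * u3)) d⁻¹ -
      cub T0 T1 T2 T3 d⁻¹ * (S0 * (u1 + u2 + u3)) =
      S0 * d⁻¹ ^ 3 * ((α * (d + u2) + β) * (u1 + u2 + u3) +
        k * ((d + u1) * (d + u2)) * (u1 + u2 - d)) := by
    rw [hβ, hα, hk0, hk1, hk]
    simp only [cub]
    field_simp
    ring
  have h1 : 0 ≤ (α * (d + u2) + β) * (u1 + u2 + u3) := mul_nonneg hcore (by linarith)
  have h2 : 0 ≤ k * ((d + u1) * (d + u2)) * (u1 + u2 - d) :=
    mul_nonneg (mul_nonneg hk' (mul_nonneg hu.le (by linarith))) (by linarith)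
  have h3 : 0 ≤ S0 * d⁻¹ ^ 3 := by positivity
  have := mul_nonneg h3 (add_nonneg h1 h2)
  linarith

theorem Good.sorted {S0 S1 S2 S3 d : ℝ} (h : Good S0 S1 S2 S3 d) :
    ∃ u1 u2 u3 : ℝ, S1 = S0 * (u1 + u2 + u3) ∧ S2 = S0 * (u1 * u2 + u1 * u3 + u2 * u3) ∧
      S3 = S0 * (u1 * u2 * u3) ∧ u1 ≤ u2 ∧ u2 ≤ u3 ∧ 0 < d + u1 ∧ d ≤ u1 + u2 := by
  obtain ⟨-, a, b, c, e1, e2, e3, p1, p2, p3, q1, q2, q3⟩ := h
  rcases le_total a b with h1 | h1 <;> rcases le_total b c with h2 | h2 <;>
    rcases le_total a c with h3 | h3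
  · exact ⟨a, b, c, e1, e2, e3, h1, h2, p1, q3⟩
  · exact ⟨a, b, c, e1, e2, e3, h1, h2, p1, q3⟩
  · exact ⟨a, c, b, by linarith, by linarith, by linarith, h3, h2, p1, q2⟩
  · exact ⟨c, a, b, by linarith, by linarith, by linarith, h3, h1, p3, by linarith⟩
  · exact ⟨b, a, c, by linarith, by linarith, by linarith, h1, h3, p2, by linarith⟩
  · exact ⟨b, c, a, by linarith, by linarith, by linarith, h2, h3, p2, q1⟩
  · exact ⟨c, b, a, by linarith, by linarith, by linarith, h2, h1, p3, by linarith⟩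
  · exact ⟨c, b, a, by linarith, by linarith, by linarith, h2, h1, p3, by linarith⟩

theorem Good.turn {S0 S1 S2 S3 T0 T1 T2 T3 d : ℝ} (h : Good S0 S1 S2 S3 d) (hd : 0 < d)
    (hW : ∀ s : ℝ, dcub T1 T2 T3 s * cub S0 S1 S2 S3 s ≤ cub T0 T1 T2 T3 s * dcub S1 S2 S3 s)
    (hP : ∀ s : ℂ, 0 ≤ s.im → ((starRingEnd ℂ) (cub (S0 : ℂ) S1 S2 S3 s) *
        cub (T0 : ℂ) T1 T2 T3 s).im ≤ 0) :
    cub T0 T1 T2 T3 d⁻¹ * S1 ≤ T1 * cub S0 S1 S2 S3 d⁻¹ := by
  obtain ⟨u1, u2, u3, rfl, rfl, rfl, h12, h23, hu, hs⟩ := h.sorted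
  exact turn_sorted h.1 hd h12 h23 hu hs hW hP

theorem cub_roots (S0 u1 u2 u3 s : ℝ) :
    cub S0 (S0 * (u1 + u2 + u3)) (S0 * (u1 * u2 + u1 * u3 + u2 * u3)) (S0 * (u1 * u2 * u3)) s =
      S0 * ((1 + s * u1) * (1 + s * u2) * (1 + s * u3)) := by
  simp only [cub]
  ring

theorem sigma_bound {u1 u2 u3 d ρ ξ : ℝ} (hρ : 0 < ρ) (h13 : u1 ≤ u3) (h23 : u2 ≤ u3)
    (he1 : 0 < u1 + u2 + u3) (he2 : ρ * (u1 + u2 + u3) ≤ u1 * u2 + u1 * u3 + u2 * u3)
    (hξ : u3 ≤ ξ) (hth : ξ * (d - ρ) + d ^ 2 / 4 ≤ ρ * d) : d ≤ u1 + u2 := by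
  by_contra hlt
  have hlt := not_le.1 hlt
  set σ := u1 + u2 with hσ
  have hπ : u1 * u2 ≤ σ ^ 2 / 4 := by rw [hσ]; nlinarith [sq_nonneg (u1 - u2)]
  have h3 : 0 < u3 := by linarith
  have hg : 0 ≤ u3 * (σ - ρ) + σ ^ 2 / 4 - ρ * σ := by rw [hσ] at *; nlinarith
  rcases le_or_gt σ ρ with h | h
  · rcases le_or_gt 0 σ with h' | h'
    · have a1 : u3 * (σ - ρ) ≤ 0 := mul_nonpos_of_nonneg_of_nonpos h3.le (by linarith)
      rcases h'.lt_or_eq with h'' | h''
      · nlinarith
      · rw [← h''] at hg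
        nlinarith
    · have a1 : -σ < u3 := by linarith
      nlinarith
  · have a1 : u3 * (σ - ρ) ≤ ξ * (σ - ρ) := mul_le_mul_of_nonneg_right hξ (by linarith)
    have a2 : 0 ≤ ξ * (σ - ρ) + σ ^ 2 / 4 - ρ * σ := by linarith
    have a3 : 0 < d - ρ := by linarith
    have a4 : (d - ρ) * (ξ * (σ - ρ) + σ ^ 2 / 4 - ρ * σ) =
        (σ - ρ) * (ξ * (d - ρ) + d ^ 2 / 4 - ρ * d) - (d - σ) * (3 * ρ ^ 2 / 4) -
          (σ - ρ) * (d - σ) * (d - ρ) / 4 := by ring
    have a5 := mul_nonneg a3.le a2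
    have a6 : (σ - ρ) * (ξ * (d - ρ) + d ^ 2 / 4 - ρ * d) ≤ 0 :=
      mul_nonpos_of_nonneg_of_nonpos (by linarith) (by linarith)
    have a7 : 0 < (d - σ) * (3 * ρ ^ 2 / 4) := mul_pos (by linarith) (by positivity)
    have a8 : 0 ≤ (σ - ρ) * (d - σ) * (d - ρ) :=
      mul_nonneg (mul_nonneg (by linarith) (by linarith)) a3.le
    linarith

theorem sigma_all {u1 u2 u3 d ρ ξ : ℝ} (hρ : 0 < ρ)
    (he1 : 0 < u1 + u2 + u3) (he2 : ρ * (u1 + u2 + u3) ≤ u1 * u2 + u1 * u3 + u2 * u3)
    (h1 : u1 ≤ ξ) (h2 : u2 ≤ ξ) (h3 : u3 ≤ ξ) (hth : ξ * (d - ρ) + d ^ 2 / 4 ≤ ρ * d) :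
    d ≤ u2 + u3 ∧ d ≤ u1 + u3 ∧ d ≤ u1 + u2 := by
  rcases le_total u1 u2 with a | a <;> rcases le_total u2 u3 with b | b <;>
    rcases le_total u1 u3 with c | c
  · have := sigma_bound hρ c b he1 he2 h3 hth
    exact ⟨by linarith, by linarith, this⟩
  · have := sigma_bound hρ (a.trans b) b he1 he2 h3 hth
    exact ⟨by linarith, by linarith, this⟩
  · have := sigma_bound (u1 := u1) (u2 := u3) (u3 := u2) hρ a b (by linarith) (by linarith) h2 hth
    exact ⟨by linarith, this, by linarith⟩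
  · have := sigma_bound (u1 := u1) (u2 := u3) (u3 := u2) hρ a b (by linarith) (by linarith) h2 hth
    exact ⟨by linarith, this, by linarith⟩
  · have := sigma_bound hρ c b he1 he2 h3 hth
    exact ⟨by linarith, by linarith, this⟩
  · have := sigma_bound (u1 := u2) (u2 := u3) (u3 := u1) hρ a c (by linarith) (by linarith) h1 hth
    exact ⟨this, by linarith, by linarith⟩
  · have := sigma_bound (u1 := u2) (u2 := u3) (u3 := u1) hρ a (b.trans a) (by linarith)
      (by linarith) h1 hth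
    exact ⟨this, by linarith, by linarith⟩
  · have := sigma_bound (u1 := u2) (u2 := u3) (u3 := u1) hρ a c (by linarith) (by linarith) h1 hth
    exact ⟨this, by linarith, by linarith⟩

theorem good_of_rho {S0 u1 u2 u3 d ρ ξ : ℝ} (h0 : 0 < S0) (hd : 0 < d) (hρ : 0 < ρ)
    (he1 : 0 < u1 + u2 + u3) (he2 : ρ * (u1 + u2 + u3) ≤ u1 * u2 + u1 * u3 + u2 * u3)
    (h1 : u1 ≤ ξ) (h2 : u2 ≤ ξ) (h3 : u3 ≤ ξ) (hth : ξ * (d - ρ) + d ^ 2 / 4 ≤ ρ * d)
    (hpos : 0 < (d + u1) * (d + u2) * (d + u3)) :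
    Good S0 (S0 * (u1 + u2 + u3)) (S0 * (u1 * u2 + u1 * u3 + u2 * u3)) (S0 * (u1 * u2 * u3)) d := by
  obtain ⟨q1, q2, q3⟩ := sigma_all hρ he1 he2 h1 h2 h3 hth
  refine ⟨h0, u1, u2, u3, rfl, rfl, rfl, ?_, ?_, ?_, q1, q2, q3⟩
  · by_contra hn
    have hn := not_lt.1 hn
    have : 0 < (d + u2) * (d + u3) := mul_pos (by linarith) (by linarith)
    nlinarith
  · by_contra hn
    have hn := not_lt.1 hn
    have : 0 < (d + u1) * (d + u3) := mul_pos (by linarith) (by linarith)
    nlinarith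
  · by_contra hn
    have hn := not_lt.1 hn
    have : 0 < (d + u1) * (d + u2) := mul_pos (by linarith) (by linarith)
    nlinarith

theorem cube_le {a b c X : ℝ} (hp : 0 < a * b * c) (hab : 0 < a + b) (hac : 0 < a + c)
    (hbc : 0 < b + c) (ha : a ≤ X) (hb : b ≤ X) (hc : c ≤ X) : a * b * c ≤ X ^ 3 := by
  have a0 : 0 < a := by
    by_contra hn
    have hn := not_lt.1 hn
    have : 0 < b * c := mul_pos (by linarith) (by linarith)
    nlinarith
  have b0 : 0 < b := by
    by_contra hn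
    have hn := not_lt.1 hn
    have : 0 < a * c := mul_pos (by linarith) (by linarith)
    nlinarith
  have c0 : 0 < c := by
    by_contra hn
    have hn := not_lt.1 hn
    have : 0 < a * b := mul_pos (by linarith) (by linarith)
    nlinarith
  have X0 : 0 < X := by linarith
  calc a * b * c ≤ X * X * X := by gcongr
    _ = X ^ 3 := by ring

theorem cub_coeff_eq {a0 a1 a2 a3 b0 b1 b2 b3 : ℝ}
    (h : ∀ s, cub a0 a1 a2 a3 s = cub b0 b1 b2 b3 s) :
    a0 = b0 ∧ a1 = b1 ∧ a2 = b2 ∧ a3 = b3 := by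
  have h0 := h 0
  have h1 := h 1
  have h2 := h (-1)
  have h3 := h 2
  simp only [cub] at h0 h1 h2 h3
  refine ⟨by linarith, by linarith, by linarith, by linarith⟩

end Pool.Agent.Lib.MP_2fb14c_an
end
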