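import Pool.Agent.Lib.MP_2fb14c_an.Base

-- part Pool.Agent.Lib.MP_2fb14c_an.Step
section

/-!
The self improving step: weak barrier inequalities imply strict ones.
-/

set_option autoImplicit false
set_option linter.unusedSectionVars false

open Finset Function Matrix Complex

namespace Pool.Agent.Lib.MP_2fb14c_an

variable {ι : Type*} [Fintype ι] [DecidableEq ι]

/-- Upper bound for the roots. -/
noncomputable def xi (P : Matrix ι ι ℂ) (θ : ℝ) (T : Finset ι) (j : ι) : ℝ :=
  9 / 32 + ms P T j + 2 * (1 - θ) + dd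

/-- First barrier quantity. -/
noncomputable def Fa (P : Matrix ι ι ℂ) (θ : ℝ) (T : Finset ι) (j : ι) : ℝ :=
  (1 + ww * 3) ^ 3 * S (CM (Mt P xx θ)) (cfg T fun _ => ww) j 1 -
    dd * Z (CM (Mt P xx θ)) (cfg T fun _ => ww)

/-- Second barrier quantity. -/
noncomputable def Fb (P : Matrix ι ι ℂ) (θ : ℝ) (T : Finset ι) (j : ι) : ℝ :=
  S (CM (Mt P xx θ)) (cfg T fun _ => ww) j 2 * (xi P θ T j + dd) -
    dd * (xi P θ T j + dd / 4) * S (CM (Mt P xx θ)) (cfg T fun _ => ww) j 1

/-- The weak barrier inequalities. -/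
def Weak (P : Matrix ι ι ℂ) (θ : ℝ) : Prop := ∀ T j, j ∉ T → 0 ≤ Fa P θ T j ∧ 0 ≤ Fb P θ T j

theorem xi_pos (P : Matrix ι ι ℂ) {θ : ℝ} (h1 : θ ≤ 1) (T : Finset ι) (j : ι) :
    0 < xi P θ T j := by
  have := ms_nonneg P T j
  have := dd_pos
  rw [xi]
  linarith

theorem Weak.ab {P : Matrix ι ι ℂ} (hP : Proj P) {θ : ℝ} (h1 : θ ≤ 1) (h : Weak P θ) :
    ∀ T, Ab (CM (Mt P xx θ)) ww T := by
  intro T
  induction T using Finset.induction_on with
  | empty =>
    intro f hf
    rw [Z_cfg_empty]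
    exact pow_pos (dfpos hP h1 hf) 3
  | insert i T hi ih =>
    apply Ab.insert (stab_CM (Mt_herm hP _ _)) ww_pos.le hi ih
    have a1 := (h T i hi).1
    have a2 := mul_pos dd_pos (ih _ box_ww)
    rw [Fa, S_one] at a1
    have a3 : 0 < (1 + ww * 3) ^ 3 := by have := ww_pos; positivity
    exact (mul_pos_iff_of_pos_left a3).1 (by linarith)

theorem Weak.good {P : Matrix ι ι ℂ} (hP : Proj P) {θ : ℝ} (h0 : 0 ≤ θ) (h1 : θ ≤ 1)
    (h : Weak P θ) {T : Finset ι} {j : ι} (hj : j ∉ T) :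
    Good (S (CM (Mt P xx θ)) (cfg T fun _ => ww) j 0) (S (CM (Mt P xx θ)) (cfg T fun _ => ww) j 1)
      (S (CM (Mt P xx θ)) (cfg T fun _ => ww) j 2) (S (CM (Mt P xx θ)) (cfg T fun _ => ww) j 3)
      dd ∧ 0 < Fa P θ T j := by
  have hA := h.ab hP h1
  have hξ := xi_pos P h1 T j
  have hd := dd_pos
  have hS : 0 < S (CM (Mt P xx θ)) (cfg T fun _ => ww) j 1 := by
    rw [S_one]
    exact hA _ _ box_ww
  obtain ⟨g1, g2⟩ := good_cfg (stab_CM (Mt_herm hP _ _)) hA hj box_ww hd dd_inv.le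
    (ρ := dd * (xi P θ T j + dd / 4) / (xi P θ T j + dd)) (ξ := xi P θ T j) (by positivity) hξ
    (by
      have := (h T j hj).2
      rw [Fb] at this
      rw [rho, div_le_div_iff₀ (by positivity) hS]
      linarith)
    (hup hP h1 hj box_ww (d := dd) (t := 1 / 4) hd.le (fun _ _ => by norm_num [dd, ww])
      (by norm_num) (by norm_num) (by rw [xi]; linarith))
    (by
      apply le_of_eq
      field_simp
      ring)
  refine ⟨g1, ?_⟩
  have g3 := g2 ww ww_pos.le le_rfl
  rw [← Z_nu_eq, cfg_self (fun _ => ww) hj] at g3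
  have g4 : xi P θ T j ≤ 3 := by
    have := hP.ms_le hj
    rw [xi, dd]
    linarith
  have g5 : (1 + ww * xi P θ T j) ^ 3 ≤ (1 + ww * 3) ^ 3 := by
    have := ww_pos
    gcongr
  have g6 := mul_le_mul_of_nonneg_right g5 hS.le
  rw [Fa]
  linarith

theorem Weak.chain {P : Matrix ι ι ℂ} (hP : Proj P) {θ : ℝ} (h0 : 0 ≤ θ) (h1 : θ ≤ 1)
    (h : Weak P θ) {R T : Finset ι} (hRT : R ⊆ T) {j : ι} (hj : j ∉ T) :
    rho (CM (Mt P xx θ)) R (fun _ => ww) j ≤ rho (CM (Mt P xx θ)) T (fun _ => ww) j := by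
  have key : ∀ X : Finset ι, j ∉ R ∪ X →
      rho (CM (Mt P xx θ)) R (fun _ => ww) j ≤ rho (CM (Mt P xx θ)) (R ∪ X) (fun _ => ww) j := by
    intro X
    induction X using Finset.induction_on with
    | empty => simp
    | insert i X _ ih =>
      intro hj
      rw [union_insert] at hj ⊢
      rw [mem_insert, not_or] at hj
      refine (ih hj.2).trans ?_
      by_cases hi : i ∈ R ∪ X
      · rw [insert_eq_of_mem hi]
      · exact turn_cfg (stab_CM (Mt_herm hP _ _)) (h.ab hP h1) hi (Ne.symm hj.1) box_ww dd_pos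
          dd_inv.symm (h.good hP h0 h1 (by
            rw [mem_insert, not_or]
            exact ⟨Ne.symm hj.1, hi⟩)).1
  have := key T (by rwa [union_eq_right.2 hRT])
  rwa [union_eq_right.2 hRT] at this

theorem Weak.rho_ge {P : Matrix ι ι ℂ} (hP : Proj P) {θ : ℝ} (h0 : 0 ≤ θ) (h1 : θ ≤ 1)
    (h : Weak P θ) {T : Finset ι} {j : ι} (hj : j ∉ T) {f : ι → ℝ} (hf : Box ww f) :
    uu ≤ rho (CM (Mt P xx θ)) T f j := by
  refine le_trans ?_ (rho_mono (stab_CM (Mt_herm hP _ _)) (h.ab hP h1) T j hf box_ww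
    fun l => (hf l).2)
  refine le_trans ?_ (h.chain hP h0 h1 (empty_subset T) hj)
  rw [rho_empty hP h1 box_ww, le_div_iff₀ (d0pos hP h1 box_ww j)]
  exact d1low hP h1 box_ww j

theorem rho_fR_eq (C : (ι → Bt) → ℝ) (R : Finset ι) (d : ℝ) (j : ι) :
    rho C R (fR R d) j = rho C R (fun _ => ww) j := by
  rw [rho, rho, cfg_congr (g := fun _ => ww) fun l hl => by simp [fR, hl]]

theorem Weak.caseI {P : Matrix ι ι ℂ} (hP : Proj P) {θ : ℝ} (h0 : 0 ≤ θ) (h1 : θ ≤ 1)
    (h : Weak P θ) {T : Finset ι} {j : ι} (hj : j ∉ T) (hθ : 2 / 10 ^ 12 ≤ 1 - θ) :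
    dd ≤ rho (CM (Mt P xx θ)) T (fun _ => ww) j := by
  refine le_trans ?_ (h.chain hP h0 h1 (empty_subset T) hj)
  have := rho_fR hP h1 (η := dd + 199 / 10 ^ 14) (ζ := 0) (τ := 2 * dd) (R := ∅) (j := j)
    (by simp) (by norm_num [dd]) (by rw [xx]; linarith) le_rfl (by norm_num [dd])
    (by norm_num [dd, xx])
  rw [rho_fR_eq] at this
  linarith

theorem Weak.caseA {P : Matrix ι ι ℂ} (hP : Proj P) {θ : ℝ} (h0 : 0 ≤ θ) (h1 : θ ≤ 1)
    (h : Weak P θ) {T : Finset ι} {j : ι} (hj : j ∉ T) {i : ι} (hi : i ∈ T)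
    (hij : 1 / 40000 ≤ normSq (P i j)) : dd ≤ rho (CM (Mt P xx θ)) T (fun _ => ww) j := by
  have hne : i ≠ j := by rintro rfl; exact hj hi
  refine le_trans ?_ (h.chain hP h0 h1 (singleton_subset_iff.2 hi) hj)
  have hm : ms P {i} j = normSq (P i j) := by simp [ms]
  have a1 := rho_fR hP h1 (η := dd - 1 / 10 ^ 14) (ζ := 1 / 2) (τ := 2 * dd) (R := {i}) (j := j)
    (by simpa using hne.symm) (by norm_num [dd]) (by rw [xx]; linarith) (by norm_num)
    (by norm_num [dd]) (by
      rw [hm]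
      norm_num [dd, xx]
      linarith)
  have hd := dd_pos
  have hb := box_fR {i} (d := dd + 1 / 2 * dd) (by linarith)
  have a2 := turn_cfg (stab_CM (Mt_herm hP _ _)) (h.ab hP h1) (notMem_empty i) hne hb
    (d := dd + 1 / 2 * dd) (by linarith) (by simp [fR]) (good_two hP h1 hb hne)
  rw [insert_empty_eq, rho_fR_eq] at a2
  linarith

theorem Weak.caseB {P : Matrix ι ι ℂ} (hP : Proj P) {θ : ℝ} (h0 : 0 ≤ θ) (h1 : θ ≤ 1)
    (h : Weak P θ) {T : Finset ι} {j : ι} (hj : j ∉ T) (hθ : 1 - θ ≤ 2 / 10 ^ 12)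
    (hT : ∀ i ∈ T, normSq (P i j) ≤ 1 / 40000) :
    dd - (203 / 100 - 276 / 100 * ms P T j) * dd ^ 2 ≤ rho (CM (Mt P xx θ)) T (fun _ => ww) j := by
  have hC := stab_CM (Mt_herm hP xx θ)
  have hA := h.ab hP h1
  have hd := dd_pos
  obtain ⟨R, hR, hPr, hm⟩ := greedy hP j (fun R => ∀ f, Box ww f →
      (∀ l, 1 ≤ (dd + 70 * dd * dd) * f l) → (∀ l ∈ R, f l = (dd + 70 * dd * dd)⁻¹) →
      rho (CM (Mt P xx θ)) ∅ f j ≤ rho (CM (Mt P xx θ)) R f j) (fun _ _ _ _ => le_rfl) T (by
    intro i R hi hiR hRT hms ih f hf hf1 hf2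
    have hne : i ≠ j := by rintro rfl; exact hj hi
    have hjR : j ∉ R := fun hh => hj (hRT hh)
    have hi' : i ∉ insert j R := by
      rw [mem_insert, not_or]
      exact ⟨hne, hiR⟩
    refine (ih f hf hf1 fun l hl => hf2 l (mem_insert_of_mem hl)).trans ?_
    apply turn_cfg hC hA hiR hne hf (by positivity) (hf2 i (mem_insert_self _ _))
    refine (good_cfg hC hA hi' hf (by positivity) (by norm_num [dd, ww]) uu_pos
      (ξ := 10102 / 10 ^ 6) (by norm_num) (h.rho_ge hP h0 h1 hi' hf)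
      (hup hP h1 hi' hf (d := dd + 70 * dd * dd) (t := 1) (by positivity) (fun l _ => hf1 l)
        (by norm_num) le_rfl ?_) (by norm_num [dd, uu])).1
    have b1 : ms P (insert j R) i = normSq (P j i) + ms P R i := sum_insert hjR
    have b2 := hT i hi
    rw [b1, hP.normSq_comm j i, dd]
    linarith)
  have hjR : j ∉ R := fun hh => hj (hR hh)
  have hb := box_fR R (d := dd + 70 * dd * dd) (by nlinarith)
  have a1 := hPr _ hb (fun l => by
    unfold fR
    split_ifs
    · rw [mul_inv_cancel₀ (by positivity)]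
    · norm_num [dd, ww]) (fun l hl => by simp [fR, hl])
  rw [rho_fR_eq] at a1
  have m0 := ms_nonneg P R j
  have a2 := rho_fR hP h1 (η := dd - 1 / 10 ^ 14) (ζ := 70 * dd)
    (τ := 2 * dd - (203 / 100 - 279 * ms P R j) * dd ^ 2) (R := R) (j := j)
    hjR (by norm_num [dd]) (by rw [xx]; linarith) (by positivity)
    (by rw [dd]; nlinarith) (by
      norm_num [dd, xx]
      nlinarith)
  have a3 := h.chain hP h0 h1 hR hj
  have a4 : 276 / 100 * ms P T j * dd ^ 2 ≤ 279 * ms P R j * dd ^ 2 :=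
    mul_le_mul_of_nonneg_right (by linarith) (sq_nonneg _)
  linarith

theorem Weak.strict {P : Matrix ι ι ℂ} (hP : Proj P) {θ : ℝ} (h0 : 0 ≤ θ) (h1 : θ ≤ 1)
    (h : Weak P θ) {T : Finset ι} {j : ι} (hj : j ∉ T) : 0 < Fa P θ T j ∧ 0 < Fb P θ T j := by
  refine ⟨(h.good hP h0 h1 hj).2, ?_⟩
  have hS : 0 < S (CM (Mt P xx θ)) (cfg T fun _ => ww) j 1 := by
    rw [S_one]
    exact h.ab hP h1 _ _ box_ww
  have hξ := xi_pos P h1 T j
  have hd := dd_pos
  have key : ∀ lam, lam ≤ rho (CM (Mt P xx θ)) T (fun _ => ww) j →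
      dd * (xi P θ T j + dd / 4) < lam * (xi P θ T j + dd) → 0 < Fb P θ T j := by
    intro lam a1 a2
    rw [rho, le_div_iff₀ hS] at a1
    have a3 := mul_le_mul_of_nonneg_right a1 (show 0 ≤ xi P θ T j + dd by linarith)
    have a4 := mul_lt_mul_of_pos_right a2 hS
    rw [Fb]
    linarith
  have triv : dd * (xi P θ T j + dd / 4) < dd * (xi P θ T j + dd) :=
    mul_lt_mul_of_pos_left (by linarith) hd
  rcases le_total (2 / 10 ^ 12) (1 - θ) with hθ | hθ
  · exact key _ (h.caseI hP h0 h1 hj hθ) triv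
  by_cases hT : ∀ i ∈ T, normSq (P i j) ≤ 1 / 40000
  · apply key _ (h.caseB hP h0 h1 hj hθ hT)
    have m0 := ms_nonneg P T j
    have m1 := hP.ms_le hj
    have b1 : xi P θ T j + dd ≤ 28126 / 100000 + ms P T j := by
      rw [xi, dd]
      linarith
    have b2 : (203 / 100 - 276 / 100 * ms P T j) * (xi P θ T j + dd) < 3 / 4 := by
      have := mul_le_mul_of_nonneg_left b1
        (show 0 ≤ 203 / 100 - 276 / 100 * ms P T j by linarith)
      nlinarith [sq_nonneg (ms P T j - 227 / 1000)]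
    have b3 := mul_lt_mul_of_pos_left b2 (pow_pos hd 2)
    nlinarith
  · push Not at hT
    obtain ⟨i, hi, hij⟩ := hT
    exact key _ (h.caseA hP h0 h1 hj hi hij.le) triv

end Pool.Agent.Lib.MP_2fb14c_an
end

-- part Pool.Agent.Lib.MP_2fb14c_an.Main
section

/-!
The continuity argument.
-/

set_option autoImplicit false
set_option linter.unusedSectionVars false

open Finset Function Matrix Complex

namespace Pool.Agent.Lib.MP_2fb14c_an

variable {ι : Type*} [Fintype ι] [DecidableEq ι]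

theorem continuous_Z (P : Matrix ι ι ℂ) (x : ℝ) (a : ι → Bt → ℝ) :
    Continuous fun θ : ℝ => Z (CM (Mt P x θ)) a := by
  have h : ∀ m, Continuous fun θ : ℝ => minor (Mt P x θ) m := by
    intro m
    unfold minor
    apply continuous_re.comp
    apply Continuous.matrix_det
    apply continuous_matrix
    intro l k
    simp only [Mb, of_apply]
    split_ifs
    · simp only [Mt, Matrix.sub_apply, Matrix.smul_apply]
      fun_prop
    · exact continuous_const
  unfold Z CM
  fun_prop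

theorem continuous_Fa (P : Matrix ι ι ℂ) (T : Finset ι) (j : ι) :
    Continuous fun θ => Fa P θ T j := by
  have := continuous_Z P xx
  unfold Fa S
  fun_prop

theorem continuous_Fb (P : Matrix ι ι ℂ) (T : Finset ι) (j : ι) :
    Continuous fun θ => Fb P θ T j := by
  have := continuous_Z P xx
  unfold Fb S xi
  fun_prop

/-- Weight of a state for a scalar matrix. -/
noncomputable def wt (x : ℝ) (a : Bt → ℝ) : ℝ := ∑ b, a b * nu x b

theorem wt_nu (x s : ℝ) : wt x (nu s) = (1 + s * x) ^ 3 := by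
  have := Fintype.prod_sum (fun (_ : Fin 3) (b : Bool) =>
    (if b then s else 1) * (if b then x else 1))
  rw [prod_const, card_univ, Fintype.card_fin] at this
  simp only [wt, nu, prodSt, ← prod_mul_distrib]
  rw [← this]
  simp [add_comm]

theorem wt_E (x : ℝ) : wt x (E ℝ 1) = 3 * x ∧ wt x (E ℝ 2) = 3 * x ^ 2 := by
  have := cub_coeff_eq (a0 := wt x (E ℝ 0)) (a1 := wt x (E ℝ 1)) (a2 := wt x (E ℝ 2))
    (a3 := wt x (E ℝ 3)) (b0 := 1) (b1 := 3 * x) (b2 := 3 * x ^ 2) (b3 := x ^ 3) (fun s => by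
      have h := wt_nu x s
      rw [nu_eq s] at h
      simp only [wt, st, Pi.add_apply, Pi.smul_apply, smul_eq_mul, add_mul, sum_add_distrib,
        mul_assoc, ← mul_sum] at h
      simp only [cub, wt]
      linear_combination h)
  exact ⟨this.2.1, this.2.2.1⟩

theorem Z_scalar (P : Matrix ι ι ℂ) (x : ℝ) (a : ι → Bt → ℝ) :
    Z (CM (Mt P x 0)) a = ∏ l, wt x (a l) := by
  have h : ∀ m, minor (Mt P x 0) m = ∏ l, if m l then x else 1 := by
    intro m
    have : Mb (Mt P x 0) m = diagonal fun l => ((if m l then x else 1 : ℝ) : ℂ) := by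
      ext l k
      by_cases h' : l = k
      · subst h'
        by_cases h : m l = true <;> simp [Mb, Mt, h]
      · by_cases h : m l = true <;> simp [Mb, Mt, h, h', Ne.symm h']
    rw [minor, this, det_diagonal, ← ofReal_prod, ofReal_re]
  unfold wt
  rw [Fintype.prod_sum, Z]
  apply sum_congr rfl
  intro n _
  simp only [CM, h, prod_mul_distrib, nu, prodSt]
  rw [prod_comm]

theorem weak_zero (P : Matrix ι ι ℂ) : Weak P 0 := by
  intro T j hj
  have hx : 0 < xx := by norm_num [xx]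
  have e : ∀ y, Z (CM (Mt P xx 0)) (update (cfg T fun _ => ww) j y) =
      wt xx y * ∏ l ∈ univ.erase j, wt xx (cfg T (fun _ => ww) l) := by
    intro y
    rw [Z_scalar, ← mul_prod_erase univ _ (mem_univ j), update_self]
    congr 1
    exact prod_congr rfl fun l hl => by rw [update_of_ne (ne_of_mem_erase hl)]
  have hp : 0 < ∏ l ∈ univ.erase j, wt xx (cfg T (fun _ => ww) l) := by
    apply prod_pos
    intro l _
    unfold cfg
    split_ifs
    · rw [(wt_E xx).1]
      positivity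
    · rw [wt_nu]
      have := ww_pos
      positivity
  have hξ := xi_pos P zero_le_one T j
  constructor
  · have e' := e (nu ww)
    rw [cfg_self (fun _ => ww) hj] at e'
    rw [Fa, S, e, e', (wt_E xx).1, wt_nu]
    have : dd * (1 + ww * xx) ^ 3 ≤ (1 + ww * 3) ^ 3 * (3 * xx) := by norm_num [dd, ww, xx]
    nlinarith
  · rw [Fb, S, S, e, e, (wt_E xx).1, (wt_E xx).2]
    have h1 : dd * (xi P 0 T j + dd / 4) ≤ xx * (xi P 0 T j + dd) :=
      mul_le_mul (by norm_num [dd, xx]) (by linarith [dd_pos]) (by linarith [dd_pos]) hx.le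
    have h2 := mul_le_mul_of_nonneg_right h1 (mul_pos (mul_pos three_pos hx) hp).le
    nlinarith

theorem weak_one {P : Matrix ι ι ℂ} (hP : Proj P) : Weak P 1 := by
  let u : Set ℝ := {θ | ∀ T j, j ∉ T → 0 < Fa P θ T j ∧ 0 < Fb P θ T j}
  have hu : IsOpen u := by
    simp only [u, Set.ofPred_forall]
    refine isOpen_iInter_of_finite fun T => isOpen_iInter_of_finite fun j =>
      isOpen_iInter_of_finite fun _ => ?_
    exact (isOpen_lt continuous_const (continuous_Fa P T j)).inter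
      (isOpen_lt continuous_const (continuous_Fb P T j))
  have hc : IsClosed {θ | Weak P θ} := by
    simp only [Weak, Set.ofPred_forall]
    refine isClosed_iInter fun T => isClosed_iInter fun j => isClosed_iInter fun _ => ?_
    exact (isClosed_le continuous_const (continuous_Fa P T j)).inter
      (isClosed_le continuous_const (continuous_Fb P T j))
  have hsub : u ⊆ {θ | Weak P θ} := fun θ h T j hj => ⟨(h T j hj).1.le, (h T j hj).2.le⟩
  have := (isPreconnected_Icc (a := (0 : ℝ)) (b := 1)).subset_of_closure_inter_subset hu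
    ⟨0, ⟨le_rfl, zero_le_one⟩, fun T j hj => (weak_zero P).strict hP le_rfl zero_le_one hj⟩
    (fun θ h T j hj => Weak.strict hP h.2.1 h.2.2 (hc.closure_subset_iff.2 hsub h.1) hj)
  exact hsub (this ⟨zero_le_one, le_rfl⟩)

end Pool.Agent.Lib.MP_2fb14c_an
end

-- part Pool.Agent.Lib.MP_2fb14c_an.Derand
section

/-!
Selection of a good partition.
-/

set_option autoImplicit false
set_option linter.unusedSectionVars false

open Finset Function Matrix Complex

namespace Pool.Agent.Lib.MP_2fb14c_an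

variable {ι : Type*} [Fintype ι] [DecidableEq ι]

/-- Assigned elements, elements used once, and removed elements. -/
noncomputable def mix (A : Finset ι) (σ : ι → Fin 3) (X : Finset ι) : ι → Bt → ℝ :=
  fun l => if l ∈ A then dl ℝ (σ l) else if l ∈ X then E ℝ 1 else E ℝ 0

theorem adm_mix (A : Finset ι) (σ : ι → Fin 3) (X : Finset ι) (l : ι) : Adm (mix A σ X l) := by
  unfold mix
  split_ifs
  · exact adm_dl _
  · exact adm_E1
  · exact adm_E0

theorem mix_zero {A : Finset ι} (σ : ι → Fin 3) (X : Finset ι) {l : ι} (hl : l ∉ A) :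
    update (mix A σ X) l (E ℝ 0) = mix A σ (X.erase l) := by
  funext m
  by_cases h : m = l
  · subst h; simp [mix, hl]
  · simp [mix, h]

theorem mix_one {A : Finset ι} (σ : ι → Fin 3) (X : Finset ι) {l : ι} (hl : l ∉ A) :
    update (mix A σ X) l (E ℝ 1) = mix A σ (insert l X) := by
  funext m
  by_cases h : m = l
  · subst h; simp [mix, hl]
  · simp [mix, h]

theorem mix_dl (A : Finset ι) (σ : ι → Fin 3) (X : Finset ι) {i : ι} (hi : i ∉ A) (k : Fin 3) :
    update (mix A σ X) i (dl ℝ k) = mix (insert i A) (update σ i k) X := by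
  funext m
  by_cases h : m = i
  · subst h; simp [mix]
  · simp [mix, h]

theorem mix_step {C : (ι → Bt) → ℝ} (hC : Stab C) {A : Finset ι} {σ : ι → Fin 3}
    (h : ∀ X, 0 < Z C (mix A σ X)) {i : ι} (hi : i ∉ A) :
    ∃ k, ∀ X, 0 < Z C (mix (insert i A) (update σ i k) X) := by
  have h1 := h (insert i univ)
  rw [← mix_one σ univ hi, E_one_eq, Z_add, Z_add] at h1
  obtain ⟨k, hk⟩ : ∃ k, 0 < Z C (update (mix A σ univ) i (dl ℝ k)) := by
    by_contra hn
    push Not at hn
    linarith [hn 0, hn 1, hn 2]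
  refine ⟨k, ?_⟩
  have key : ∀ Y : Finset ι, 0 < Z C (mix (insert i A) (update σ i k) Yᶜ) := by
    intro Y
    induction Y using Finset.induction_on with
    | empty => rwa [compl_empty, ← mix_dl A σ _ hi]
    | insert l Y hl ih =>
      rw [compl_insert]
      by_cases hlA : l ∈ insert i A
      · convert ih using 2
        funext m
        by_cases hm : m = l
        · subst hm
          simp only [mix, hlA, if_true]
        · simp [mix, hm]
      have hli : l ≠ i := by rintro rfl; exact hlA (mem_insert_self _ _)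
      have hlA' : l ∉ A := fun hh => hlA (mem_insert_of_mem hh)
      have hw := wronsk hC hli (c := mix A σ Yᶜ) (fun m _ _ => adm_mix A σ _ m) (admL_dl k) 0
      simp only [Sd, Sv, cub, dcub, S, mul_zero, add_zero, ne_eq, OfNat.ofNat_ne_zero,
        not_false_eq_true, zero_pow] at hw
      rw [mix_dl A σ _ hi, mix_zero σ _ hi, mix_zero σ _ hlA', mix_one σ _ hlA',
        mix_zero _ _ hlA, mix_one _ _ hlA, insert_eq_of_mem (mem_compl.2 hl)] at hw
      exact (mul_pos_iff_of_pos_right (h _)).1 (lt_of_lt_of_le (mul_pos ih (h _)) hw)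
  intro X
  simpa using key Xᶜ

theorem Z_mix (M : Matrix ι ι ℂ) (A : Finset ι) (σ : ι → Fin 3) :
    Z (CM M) (mix A σ ∅) = ∏ k, dR M (ind (A.filter fun l => σ l = k) 0 1)
      (ind (A.filter fun l => σ l = k) 1 0) := by
  rw [← Z_CM]
  congr 1
  funext l
  by_cases h : l ∈ A
  · simp only [mix, h, if_true, dl, ind, mem_filter, true_and, eq_comm]
  · simp only [mix, h, if_false, notMem_empty, ind, mem_filter, false_and, ← nu_zero, nu]

theorem select {M : Matrix ι ι ℂ} (hM : M.IsHermitian) {w : ℝ} (hw : 0 ≤ w)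
    (hA : ∀ T, Ab (CM M) w T) :
    ∃ σ : ι → Fin 3, ∀ k (c : ι → ℂ), (∀ l, σ l ≠ k → c l = 0) → 0 ≤ rp c (M *ᵥ c) := by
  have key : ∀ A : Finset ι, ∃ σ : ι → Fin 3, (∀ X, 0 < Z (CM M) (mix A σ X)) ∧
      ∀ k, 0 < dR M (ind (A.filter fun l => σ l = k) 0 1) (ind (A.filter fun l => σ l = k) 1 0) ∧
        ∀ c : ι → ℂ, (∀ l, l ∉ (A.filter fun l => σ l = k) → c l = 0) → 0 ≤ rp c (M *ᵥ c) := by
    intro A
    induction A using Finset.induction_on with
    | empty =>
      refine ⟨fun _ => 0, fun X => ?_, fun k => ⟨?_, fun c hc => ?_⟩⟩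
      · have := hA X (fun _ => 0) fun _ => ⟨le_rfl, hw⟩
        convert this using 2
        funext l
        simp [mix, cfg, nu_zero]
      · have := Df_zero hM
        rw [Df] at this
        rw [filter_empty, show ind (∅ : Finset ι) 0 1 = fun _ => 1 from by funext l; simp [ind],
          show ind (∅ : Finset ι) 1 0 = fun _ => 0 from by funext l; simp [ind], this]
        exact zero_lt_one
      · have : c = 0 := by funext l; exact hc l (by simp)
        rw [this]
        simp [rp]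
    | insert i A hi ih =>
      obtain ⟨σ, h1, h2⟩ := ih
      obtain ⟨k, hk⟩ := mix_step (stab_CM hM) h1 hi
      have e1 : ∀ k', k' ≠ k → ((insert i A).filter fun l => update σ i k l = k') =
          A.filter fun l => σ l = k' := by
        intro k' hk'
        ext l
        by_cases hl : l = i
        · subst hl; simp [hi, hk'.symm]
        · simp [hl]
      have e2 : ((insert i A).filter fun l => update σ i k l = k) =
          insert i (A.filter fun l => σ l = k) := by
        ext l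
        by_cases hl : l = i
        · subst hl; simp
        · simp [hl]
      refine ⟨update σ i k, hk, fun k' => ?_⟩
      by_cases hk' : k' = k
      · subst hk'
        have h3 := hk ∅
        rw [Z_mix, ← mul_prod_erase univ _ (mem_univ k')] at h3
        have h4 := (mul_pos_iff_of_pos_right (prod_pos fun k'' hk'' => by
          rw [e1 k'' (ne_of_mem_erase hk'')]
          exact (h2 k'').1)).1 h3
        rw [e2] at h4 ⊢
        exact ⟨h4, psd_step hM (by simp [hi]) (h2 k').1 h4 (h2 k').2⟩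
      · rw [e1 k' hk']
        exact h2 k'
  obtain ⟨σ, -, h⟩ := key univ
  exact ⟨σ, fun k c hc => (h k).2 c fun l hl => hc l (by simpa using hl)⟩

/-- Three paving of projections with diagonal one half. -/
theorem paving {P : Matrix ι ι ℂ} (hP : Proj P) :
    ∃ σ : ι → Fin 3, ∀ k (c : ι → ℂ), (∀ l, σ l ≠ k → c l = 0) →
      rp c (P *ᵥ c) ≤ xx * rp c c := by
  obtain ⟨σ, h⟩ := select (Mt_herm hP xx 1) ww_pos.le ((weak_one hP).ab hP le_rfl)
  refine ⟨σ, fun k c hc => ?_⟩
  have := h k c hc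
  rw [Mt_form] at this
  linarith

end Pool.Agent.Lib.MP_2fb14c_an
end

-- part Pool.Agent.Lib.MP_2fb14c_an.Frame
section

/-!
Translation between unit norm tight frames and projections.
-/

set_option autoImplicit false
set_option linter.unusedSectionVars false

open Finset Function Matrix Complex

namespace Pool.Agent.Lib.MP_2fb14c_an

variable {ι : Type*} [Fintype ι] [DecidableEq ι]
variable {V : Type*} [NormedAddCommGroup V] [InnerProductSpace ℂ V]

theorem frame_op (u : ι → V) (h : ∀ x : V, ∑ i, ‖(inner ℂ (u i) x : ℂ)‖ ^ 2 = 2 * ‖x‖ ^ 2)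
    (x : V) : ∑ i, (inner ℂ (u i) x : ℂ) • u i = (2 : ℂ) • x := by
  have := (ext_inner_map
    (∑ i, (LinearMap.toSpanSingleton ℂ V (u i)).comp (innerₛₗ ℂ (u i)) : V →ₗ[ℂ] V)
    ((2 : ℂ) • LinearMap.id)).1 (fun y => by
      have h1 := congrArg (fun t : ℝ => (t : ℂ)) (h y)
      simp only [LinearMap.sum_apply, LinearMap.comp_apply, LinearMap.toSpanSingleton_apply,
        innerₛₗ_apply_apply, sum_inner, inner_smul_left, LinearMap.smul_apply, LinearMap.id_apply,
        inner_self_eq_norm_sq_to_K, Complex.conj_mul']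
      push_cast at h1
      rw [h1, map_ofNat]
      rfl)
  have h2 := LinearMap.congr_fun this x
  simpa using h2

theorem proj_gram (u : ι → V) (h1 : ∀ i, ‖u i‖ = 1)
    (h : ∀ x : V, ∑ i, ‖(inner ℂ (u i) x : ℂ)‖ ^ 2 = 2 * ‖x‖ ^ 2) :
    Proj (1 - (1 / 2 : ℝ) • gram ℂ u) := by
  have hG : gram ℂ u * gram ℂ u = (2 : ℝ) • gram ℂ u := by
    ext i j
    have := congrArg (fun y => (inner ℂ (u i) y : ℂ)) (frame_op u h (u j))
    simp only [inner_sum, inner_smul_right] at this
    simp only [mul_apply, gram_apply, Matrix.smul_apply, real_smul, ofReal_ofNat, ← this, mul_comm]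
  refine ⟨?_, ?_, ?_⟩
  · unfold IsHermitian
    rw [conjTranspose_sub, conjTranspose_smul, conjTranspose_one, (isHermitian_gram ℂ u).eq]
    simp
  · simp only [sub_mul, mul_sub, one_mul, mul_one, smul_mul_assoc, mul_smul_comm, hG]
    module
  · intro i
    simp [h1]
    norm_num

theorem frame_three (u : ι → V) (h1 : ∀ i, ‖u i‖ = 1)
    (h : ∀ x : V, ∑ i, ‖(inner ℂ (u i) x : ℂ)‖ ^ 2 = 2 * ‖x‖ ^ 2) :
    ∃ f : ι → Fin 3, ∀ (j : Fin 3) (c : ι → ℂ),
      2 / 10 ^ 14 * ∑ i ∈ univ.filter (fun i => f i = j), ‖c i‖ ^ 2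
          ≤ ‖∑ i ∈ univ.filter (fun i => f i = j), c i • u i‖ ^ 2 ∧
      ‖∑ i ∈ univ.filter (fun i => f i = j), c i • u i‖ ^ 2
          ≤ 2 * ∑ i ∈ univ.filter (fun i => f i = j), ‖c i‖ ^ 2 := by
  have hP := proj_gram u h1 h
  obtain ⟨σ, hσ⟩ := paving hP
  refine ⟨σ, fun j c => ?_⟩
  set R := univ.filter (fun i => σ i = j) with hR
  have a1 := hσ j (res R c) (fun l hl => by simp [res, hR, hl])
  have a2 := hP.A_nonneg (res R c)
  have e1 : rp (res R c) (res R c) = ∑ i ∈ R, ‖c i‖ ^ 2 := by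
    rw [rp_res_self]
    simp only [normSq_eq_norm_sq]
  have e2 : ∑ i, res R c i • u i = ∑ i ∈ R, c i • u i := by
    rw [← sum_subset (subset_univ R)]
    · exact sum_congr rfl fun l hl => by simp [res, hl]
    · intro l _ hl
      simp [res, hl]
  have e3 : rp (res R c) (gram ℂ u *ᵥ res R c) = ‖∑ i ∈ R, c i • u i‖ ^ 2 := by
    rw [rp_eq, star_dotProduct_gram_mulVec, e2, ← inner_self_eq_norm_sq (𝕜 := ℂ)]
    rfl
  rw [sub_mulVec, smul_mulVec, one_mulVec, rp_sub_right, rp_smul_right, e1, e3] at a1 a2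
  rw [xx] at a1
  constructor <;> linarith

end Pool.Agent.Lib.MP_2fb14c_an
end
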